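import Pool.Agent.W886.VL.LB

/-!
# Statements of the parts of the proof
-/

namespace Pool.Agent.W886.VL

open SOCat
open ZFSet (pair omega)

/-! ### arithmetic inside the structures -/

/-- closure of the definable relations on `ω` under iteration -/
def T_REC : Prop := ∀ (Z : ℕ → ℕ → Prop) (S : ℕ → ℕ → ℕ → ℕ → Prop),
  Dfn Base (fun _ v => ∃ a m, v 0 = num a ∧ v 1 = num m ∧ Z a m) →
  Dfn Base (fun _ v => ∃ a i m m', v 0 = num a ∧ v 1 = num i ∧ v 2 = num m ∧ v 3 = num m' ∧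
    S a i m m') →
  Dfn Base (fun _ v => ∃ a n m, v 0 = num a ∧ v 1 = num n ∧ v 2 = num m ∧
    ∃ u : ℕ → ℕ, Z a (u 0) ∧ (∀ i < n, S a i (u i) (u (i+1))) ∧ u n = m)

/-- the graph of the pairing function is definable -/
def T_PAIR : Prop :=
  Dfn Base (fun _ v => ∃ a b, v 0 = num a ∧ v 1 = num b ∧ v 2 = num (Nat.pair a b))

/-- recursively enumerable sets are definable -/
def T_RE : Prop := ∀ p : ℕ → Prop, REPred p → Dfn Base fun _ v => ∃ n, v 0 = num n ∧ p n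

/-! ### satisfaction, sequences -/

/-- satisfaction of an `NF`-formula is definable over transitive sets -/
def T_NS : Prop := ∀ φ : NF, Dfn Trs (fun A v => NSat A φ v)

/-- definability by `NF`-formulas is the same as definability -/
def T_DEF : Prop := ∀ y : ZFSet.{0}, y.IsTransitive → ∅ ∈ y → ∀ x,
  x ∈ Def y ↔ ∃ (φ : NF) (s : ℕ → ZFSet.{0}), FSup y s ∧ DefBy y φ s x

/-- relativization of a formula to an element of the structure is definable -/
def T_REL : Prop := ∀ φ : Fml, Dfn Trs (fun _ v => Sat (v 0) φ (fun n => v (n + 1)))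

def T_FS : Prop := Dfn Base (fun _ v => v 0 = FSet (v 1))

def T_RS : Prop := Dfn Base (fun _ v => v 0 = RSet (v 1) ∧ v 2 = FSet (v 1))

/-! ### the order of `L` -/

structure T_ORD : Prop where
  wf : WellFounded ltL
  trans : ∀ x y z, ltL x y → ltL y z → ltL x z
  tri : ∀ (α β : Ordinal.{0}) (x y), x ∈ L α → y ∈ L β → ltL x y ∨ x = y ∨ ltL y x
  mem : ∀ (α : Ordinal.{0}) (x y), y ∈ L α → x ∈ y → ltL x y
  rel_iff : ∀ (α : Ordinal.{0}) (x y), rel α x y ↔ x ∈ L α ∧ y ∈ L α ∧ ltL x y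
  init : ∀ (α : Ordinal.{0}) (x y), y ∈ L α → ltL x y → x ∈ L α

/-! ### levels inside the structures -/

def T_HISTD : Prop := Dfn Base (fun _ v => IsHist (v 0))

def T_HISTE : Prop := ∀ h : ZFSet.{0}, IsHist h ↔ ∃ γ, h = hset γ

/-- goodness is expressed by one formula -/
def T_GOOD : Prop := Dfn Trs (fun A _ => Good A)

/-- the order of `L` is definable over good sets -/
def T_LT : Prop := Dfn Good (fun _ v => ltL (v 0) (v 1))

/-- good sets are comparable -/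
def T_CMP : Prop := ∀ A B : ZFSet.{0}, Good A → Good B → A = B ∨ A ∈ B ∨ B ∈ A

/-! ### collapses and hulls -/

structure T_COL : Prop where
  mem_colS : ∀ Y z : ZFSet.{0}, z ∈ colS Y ↔ ∃ x ∈ Y, col Y x = z
  mem_col : ∀ Y x z : ZFSet.{0}, z ∈ col Y x ↔ ∃ w ∈ x, w ∈ Y ∧ col Y w = z
  trans : ∀ Y : ZFSet.{0}, (colS Y).IsTransitive
  card : ∀ Y : ZFSet.{0}, (colS Y).card ≤ Y.card
  fix : ∀ Y T : ZFSet.{0}, T.IsTransitive → T ⊆ Y → ∀ x ∈ T, col Y x = x
  inj : ∀ Y A : ZFSet.{0}, A.IsTransitive → El Y A → ∀ x ∈ Y, ∀ y ∈ Y,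
    (col Y x = col Y y ↔ x = y) ∧ (col Y x ∈ col Y y ↔ x ∈ y)
  sat : ∀ Y A : ZFSet.{0}, A.IsTransitive → El Y A → ∀ (φ : Fml) (v : ℕ → ZFSet.{0}),
    (∀ n, v n ∈ Y) → (Sat (colS Y) φ (fun n => col Y (v n)) ↔ Sat A φ v)

def T_GCOL : Prop := ∀ Y A : ZFSet.{0}, Good A → El Y A → Y.Nonempty →
  Good (colS Y) ∧ ∀ x ∈ Y, ∀ y ∈ Y, (ltL (col Y x) (col Y y) ↔ ltL x y)

structure T_DCL : Prop where
  el : ∀ (A : ZFSet.{0}) (X : ZFSet.{0} → Prop), Good A → (∀ x, X x → x ∈ A) → El (dcl A X) A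
  sub : ∀ (A : ZFSet.{0}) (X : ZFSet.{0} → Prop), (∀ x, X x → x ∈ A) → ∀ x, X x → x ∈ dcl A X
  card : ∀ (A Z : ZFSet.{0}), (dcl A (fun x => x ∈ Z)).card ≤ max Cardinal.aleph0 Z.card
  least : ∀ (A Y : ZFSet.{0}) (X : ZFSet.{0} → Prop), A.IsTransitive → ∅ ∈ Y → El Y A →
    (∀ x, X x → x ∈ Y) → dcl A X ⊆ Y

/-! ### the sets `HH M` -/

structure T_HH : Prop where
  tr : ∀ (M : Type) [Infinite M], (HH M).IsTransitive
  sub : ∀ (M : Type) [Infinite M] (z : ZFSet.{0}), (∀ x ∈ z, x ∈ HH M) →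
    z.card ≤ Cardinal.mk M → z ∈ HH M
  card : ∀ (M : Type) [Infinite M] (z : ZFSet.{0}), z ∈ HH M → z.card ≤ Cardinal.mk M
  congr : ∀ (M N : Type), Cardinal.mk M = Cardinal.mk N → HH M = HH N
  base : ∀ (M : Type) [Infinite M], Base (HH M)
  fs : ∀ (M : Type) [Infinite M] (X : ZFSet.{0}), X ∈ HH M → FSet X ∈ HH M ∧ RSet X ∈ HH M
  tup : ∀ (M : Type) [Infinite M] (d z : ZFSet.{0}), d ∈ HH M →
    (∀ p ∈ z, ∃ l : List ZFSet.{0}, (∀ x ∈ l, x ∈ d) ∧ p = tupZ l) → z ∈ HH M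

structure T_HHV : Prop where
  good : ∀ (M : Type) [Infinite M], Good (HH M)
  mem : ∀ (M N : Type) [Infinite M] [Infinite N], Cardinal.mk M < Cardinal.mk N → HH M ∈ HH N

/-! ### structures and their codes -/

structure T_CDS : Prop where
  ex : ∀ {τ : Voc} (M : Type) [Infinite M] (S : Str τ M), ∃ b ∈ HH M, Cds S b
  isom : ∀ {τ : Voc} (M N : Type) (S : Str τ M) (S' : Str τ N) (b : ZFSet.{0}),
    Cds S b → Cds S' b → Isom S S'
  congr : ∀ {τ : Voc} (M N : Type) (S : Str τ M) (S' : Str τ N) (b : ZFSet.{0}),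
    Isom S S' → Cds S b → Cds S' b
  sat : ∀ {τ : Voc} (M : Type) (S : Str τ M) (A b : ZFSet.{0}), A.IsTransitive → b ∈ A →
    Cds S b → (∀ z : ZFSet.{0}, (∀ p ∈ z, ∃ l : List ZFSet.{0}, (∀ x ∈ l, x ∈ val b 0) ∧
      p = tupZ l) → z ∈ A) →
    ∀ ψ : SO τ, SO.IsSentence.{0} ψ → (Models S ψ ↔ NSat A (emb ψ) (val b))

/-- being a code of a structure is definable -/
def T_SC : Prop := ∀ τ : Voc, Dfn Base (fun _ v => IsStrCode τ (v 0))

/-- the binary relation `W 2 n` -/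
def rl {M : Type} (W : Asg M) (n : ℕ) : M → M → Prop := fun a b => W 2 n ![a, b]

/-- the sequence of sets coded by an environment: `g i = some (n, k)` says that the variable `i`
stands for the set coded by the relation variable `(2, n)` and the element variable `k`,
`g i = none` says that it stands for `∅` -/
noncomputable def envZ {M : Type} (g : ℕ → Option (ℕ × ℕ)) (v : ℕ → M) (W : Asg M) :
    ℕ → ZFSet.{0} := fun i =>
  match g i with
  | none => ∅
  | some p => mos (rl W p.1) (v p.2)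

/-- formulas of set theory over `HH M` translate to second-order formulas over `M` -/
def T_KS1 : Prop := ∀ (τ : Voc) (φ : Fml) (d : ℕ) (g : ℕ → Option (ℕ × ℕ)),
  (∀ i p, g i = some p → p.1 < d ∧ p.2 < d) → ∃ ψ : SO τ,
  ∀ (M : Type) [Infinite M] (S : Str τ M) (v : ℕ → M) (W : Asg M),
    (∀ i p, g i = some p → WellFounded (rl W p.1)) →
    (ψ.Sat S v W ↔ Sat (HH M) φ (envZ g v W))

/-- being a code of the structure is expressed by a second-order formula -/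
def T_KS2 : Prop := ∀ (τ : Voc) (n k : ℕ), ∃ ψ : SO τ,
  ∀ (M : Type) [Infinite M] (S : Str τ M) (v : ℕ → M) (W : Asg M),
    WellFounded (rl W n) → (ψ.Sat S v W ↔ Cds S (mos (rl W n) (v k)))

/-- every formula with the predicate for the codes of the structure translates to a second-order
sentence -/
def T_KS : Prop := ∀ (τ : Voc) (φ : KF), ∃ ψ : SO τ, SO.IsSentence.{0} ψ ∧
  ∀ (M : Type) [Infinite M] (S : Str τ M),
    (Models S ψ ↔ KSat (HH M) (Cds S) φ (fun _ => ∅))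

/-- the finite case -/
def T_FIN : Prop := ∀ (τ : Voc) (T : Set (SO τ)), Complete.{0} T →
  ∀ (M N : Type) [Nonempty M] [Nonempty N] [Finite M] (S : Str τ M) (S' : Str τ N),
    IsModel S T → IsModel S' T → Isom S S'

/-- the sets `HH M`, `M` infinite -/
def IsHH (A : ZFSet.{0}) : Prop := ∃ (M : Type) (_ : Infinite M), A = HH M

/-- truth of a recursively enumerable set of formulas in a set `X` is definable over `HH M` -/
def T_TI : Prop := ∀ C : ℕ → Prop, REPred C → (∀ c, C c → ∃ φ : NF, φ.code = c) → ∀ τ : Voc,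
  Dfn IsHH (fun _ v => (v 0).IsTransitive ∧ v 1 ∈ v 0 ∧ IsStrCode τ (v 1) ∧ TrueIn C (v 0) (v 1))

/-- all the models of a complete recursively axiomatized theory have the same cardinality -/
def T_CARD : Prop := ∀ (τ : Voc) (T : Set (SO τ)), Complete.{0} T → RecAx T →
  (∀ (M : Type) [Nonempty M] [Finite M] (S : Str τ M), ¬ IsModel S T) →
  ∀ (M N : Type) [Nonempty M] [Nonempty N] (S : Str τ M) (S' : Str τ N),
    IsModel S T → IsModel S' T → Cardinal.mk M = Cardinal.mk N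

/-! ### the main argument -/

/-- strictly decreasing lists -/
def Desc (l : List ZFSet.{0}) : Prop := l.Pairwise (fun a b => ltL b a)

structure T_LEX : Prop where
  /-- the lexicographic order of decreasing lists is well-founded -/
  wf : WellFounded (fun l l' : List ZFSet.{0} => Desc l ∧ Desc l' ∧ List.Lex ltL l l')
  /-- every finite set of constructible sets can be listed in decreasing order -/
  sort : ∀ (α : Ordinal.{0}) (m : List ZFSet.{0}), (∀ x ∈ m, x ∈ L α) →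
    ∃ l, Desc l ∧ ∀ x, x ∈ l ↔ x ∈ m
  tri : ∀ (α : Ordinal.{0}) (l l' : List ZFSet.{0}), (∀ x ∈ l, x ∈ L α) → (∀ x ∈ l', x ∈ L α) →
    List.Lex ltL l l' ∨ l = l' ∨ List.Lex ltL l' l
  trans : ∀ l l' l'' : List ZFSet.{0}, List.Lex ltL l l' → List.Lex ltL l' l'' → List.Lex ltL l l''
  comp : ∀ (G r l' : List ZFSet.{0}) (e : ZFSet.{0}) (f : ZFSet.{0} → ZFSet.{0}),
    Desc (G ++ e :: r) → Desc l' → (∀ x ∈ l', ltL x e ∨ ∃ g ∈ G, x = f g) →
    (∀ g ∈ G, f g = g ∨ ltL (f g) g) → List.Lex ltL l' (G ++ e :: r)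

/-- the key lemma -/
def T_KEY : Prop := ∀ (H : ZFSet.{0}), Good H → ∀ (G r : List ZFSet.{0}) (e u : ZFSet.{0}),
  Desc (G ++ e :: r) → (∀ x ∈ G ++ e :: r, x ∈ H) → u ∈ dcl H (fun x => x ∈ G ++ e :: r) →
  (∀ l' : List ZFSet.{0}, Desc l' → (∀ x ∈ l', x ∈ H) → List.Lex ltL l' (G ++ e :: r) →
    u ∉ dcl H (fun x => x ∈ l')) →
  ∃ (X : ZFSet.{0}) (G' : List ZFSet.{0}), X ∈ dcl H (fun x => x ∈ G ++ e :: r) ∧
    (∀ x ∈ G', x ∈ dcl H (fun x => x ∈ G ++ e :: r)) ∧ G'.length = G.length ∧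
    (∀ x ∈ G', x ∈ X) ∧ ∅ ∈ X ∧ X.IsTransitive ∧ (∀ x, ltL x e → x ∈ X) ∧
    ∀ (φ : Fml) (r' : List ZFSet.{0}), (∀ x ∈ r', ltL x e) →
      (Sat H φ (asg (G ++ r')) ↔ Sat X φ (asg (G' ++ r')))

/-- the main step -/
def T_MAIN : Prop := ∀ (τ : Voc) (T : Set (SO τ)), Complete.{0} T → RecAx T →
  (∀ (M : Type) [Nonempty M] [Finite M] (S : Str τ M), ¬ IsModel S T) →
  (∀ (M N : Type) [Nonempty M] [Nonempty N] (S : Str τ M) (S' : Str τ N),
    IsModel S T → IsModel S' T → Cardinal.mk M = Cardinal.mk N) →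
  ∀ (M : Type) [Nonempty M] (S S' : Str τ M), IsModel S T → IsModel S' T → Isom S S'

end Pool.Agent.W886.VL
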