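import Pool.Agent.W886.VL.Stm

/-!
# The Mostowski collapse
-/

namespace Pool.Agent.W886.VL

open SOCat (Fml cons)
open ZFSet (pair omega)

theorem mem_colx {Y x z : ZFSet.{0}} : z ∈ col Y x ↔ ∃ w ∈ x, w ∈ Y ∧ col Y w = z := by
  have h : col Y x = ZFSet.range (fun w : (x ∩ Y : ZFSet.{0}) => col Y w.1) := by
    unfold col
    rw [WellFounded.fix_eq]
  rw [h, ZFSet.mem_range]
  constructor
  · rintro ⟨⟨w, hw⟩, rfl⟩
    have hw' := ZFSet.mem_inter.1 hw
    exact ⟨w, hw'.1, hw'.2, rfl⟩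
  · rintro ⟨w, h1, h2, rfl⟩
    exact ⟨⟨w, ZFSet.mem_inter.2 ⟨h1, h2⟩⟩, rfl⟩

theorem mem_colSx {Y z : ZFSet.{0}} : z ∈ colS Y ↔ ∃ x ∈ Y, col Y x = z := by
  unfold colS
  rw [ZFSet.mem_range]
  constructor
  · rintro ⟨⟨w, hw⟩, rfl⟩; exact ⟨w, hw, rfl⟩
  · rintro ⟨w, hw, rfl⟩; exact ⟨⟨w, hw⟩, rfl⟩

theorem t_col : T_COL where
  mem_colS _ _ := mem_colSx
  mem_col _ _ _ := mem_colx
  trans Y := by
    intro z hz w hw
    obtain ⟨x, hx, rfl⟩ := mem_colSx.1 hz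
    obtain ⟨w', _, h2, rfl⟩ := mem_colx.1 hw
    exact mem_colSx.2 ⟨w', h2, rfl⟩
  card Y := by
    have h := ZFSet.lift_card_range_le (f := fun z : Y => col Y z.1)
    rw [ZFSet.cardinalMk_coe_sort] at h
    simpa [colS] using h
  fix Y T hT hTY := by
    intro x
    induction x using ZFSet.inductionOn with
    | _ x ih =>
    intro hx
    ext z
    rw [mem_colx]
    constructor
    · rintro ⟨w, h1, _, rfl⟩
      rw [ih w h1 (hT x hx h1)]; exact h1
    · intro hz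
      have := hT x hx hz
      exact ⟨z, hz, hTY this, ih z hz this⟩
  inj Y A hA hY := by
    -- extensionality
    have hext : ∀ x ∈ Y, ∀ y ∈ Y, (∀ z ∈ Y, z ∈ x ↔ z ∈ y) → x = y := by
      intro x hx y hy h
      by_contra hne
      let φ : Fml := .all (.and (.neg (.and (.mem 0 1) (.neg (.mem 0 2))))
        (.neg (.and (.mem 0 2) (.neg (.mem 0 1)))))
      have hφ : ∀ B : ZFSet.{0}, Sat B φ (cons x (fun _ => y)) ↔ ∀ z ∈ B, (z ∈ x ↔ z ∈ y) := by
        intro B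
        show (∀ z ∈ B, ¬ (z ∈ x ∧ ¬ (z ∈ y)) ∧ ¬ (z ∈ y ∧ ¬ (z ∈ x))) ↔ _
        apply forall_congr'; intro z
        apply imp_congr_right; intro _
        tauto
      have h1 := (hφ Y).2 h
      rw [hY.2 φ _ (cons_mem hx (fun _ => hy)), hφ] at h1
      apply hne
      ext z
      constructor
      · intro hz; exact (h1 z (hA _ (hY.1 hx) hz)).1 hz
      · intro hz; exact (h1 z (hA _ (hY.1 hy) hz)).2 hz
    have hinj : ∀ x, ∀ y, x ∈ Y → y ∈ Y → col Y x = col Y y → x = y := by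
      intro x
      induction x using ZFSet.inductionOn with
      | _ x ih =>
      intro y hx hy h
      apply hext x hx y hy
      intro z hz
      constructor
      · intro hzx
        have : col Y z ∈ col Y y := by rw [← h]; exact mem_colx.2 ⟨z, hzx, hz, rfl⟩
        obtain ⟨w, h1, h2, h3⟩ := mem_colx.1 this
        rw [ih z hzx w hz h2 h3.symm]; exact h1
      · intro hzy
        have : col Y z ∈ col Y x := by rw [h]; exact mem_colx.2 ⟨z, hzy, hz, rfl⟩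
        obtain ⟨w, h1, h2, h3⟩ := mem_colx.1 this
        rw [← ih w h1 z h2 hz h3]; exact h1
    intro x hx y hy
    refine ⟨⟨hinj x y hx hy, fun h => by rw [h]⟩, ?_, ?_⟩
    · intro h
      obtain ⟨w, h1, h2, h3⟩ := mem_colx.1 h
      rw [← hinj w x h2 hx h3]; exact h1
    · intro h
      exact mem_colx.2 ⟨x, h, hx, rfl⟩
  sat Y A hA hY := by
    have hext : ∀ x ∈ Y, ∀ y ∈ Y, (∀ z ∈ Y, z ∈ x ↔ z ∈ y) → x = y := by
      intro x hx y hy h
      by_contra hne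
      let φ : Fml := .all (.and (.neg (.and (.mem 0 1) (.neg (.mem 0 2))))
        (.neg (.and (.mem 0 2) (.neg (.mem 0 1)))))
      have hφ : ∀ B : ZFSet.{0}, Sat B φ (cons x (fun _ => y)) ↔ ∀ z ∈ B, (z ∈ x ↔ z ∈ y) := by
        intro B
        show (∀ z ∈ B, ¬ (z ∈ x ∧ ¬ (z ∈ y)) ∧ ¬ (z ∈ y ∧ ¬ (z ∈ x))) ↔ _
        apply forall_congr'; intro z
        apply imp_congr_right; intro _
        tauto
      have h1 := (hφ Y).2 h
      rw [hY.2 φ _ (cons_mem hx (fun _ => hy)), hφ] at h1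
      apply hne
      ext z
      constructor
      · intro hz; exact (h1 z (hA _ (hY.1 hx) hz)).1 hz
      · intro hz; exact (h1 z (hA _ (hY.1 hy) hz)).2 hz
    have hinj : ∀ x, ∀ y, x ∈ Y → y ∈ Y → col Y x = col Y y → x = y := by
      intro x
      induction x using ZFSet.inductionOn with
      | _ x ih =>
      intro y hx hy h
      apply hext x hx y hy
      intro z hz
      constructor
      · intro hzx
        have : col Y z ∈ col Y y := by rw [← h]; exact mem_colx.2 ⟨z, hzx, hz, rfl⟩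
        obtain ⟨w, h1, h2, h3⟩ := mem_colx.1 this
        rw [ih z hzx w hz h2 h3.symm]; exact h1
      · intro hzy
        have : col Y z ∈ col Y x := by rw [h]; exact mem_colx.2 ⟨z, hzy, hz, rfl⟩
        obtain ⟨w, h1, h2, h3⟩ := mem_colx.1 this
        rw [← ih w h1 z h2 hz h3]; exact h1
    have hcons : ∀ (a : ZFSet.{0}) (v : ℕ → ZFSet.{0}),
        cons (col Y a) (fun n => col Y (v n)) = fun n => col Y (cons a v n) := by
      intro a v
      funext n
      cases n <;> rfl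
    have key : ∀ (φ : Fml) (v : ℕ → ZFSet.{0}), (∀ n, v n ∈ Y) →
        (Sat (colS Y) φ (fun n => col Y (v n)) ↔ Sat Y φ v) := by
      intro φ
      induction φ with
      | mem i j =>
        intro v hv
        show col Y (v i) ∈ col Y (v j) ↔ v i ∈ v j
        constructor
        · intro h
          obtain ⟨w, h1, h2, h3⟩ := mem_colx.1 h
          rw [← hinj w _ h2 (hv i) h3]; exact h1
        · intro h
          exact mem_colx.2 ⟨_, h, hv i, rfl⟩
      | eq i j =>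
        intro v hv
        show col Y (v i) = col Y (v j) ↔ v i = v j
        exact ⟨hinj _ _ (hv i) (hv j), fun h => by rw [h]⟩
      | neg φ ih => intro v hv; simp only [Sat, ih v hv]
      | and φ ψ ih1 ih2 => intro v hv; simp only [Sat, ih1 v hv, ih2 v hv]
      | all φ ih =>
        intro v hv
        constructor
        · intro h a ha
          have := h (col Y a) (mem_colSx.2 ⟨a, ha, rfl⟩)
          rw [hcons] at this
          exact (ih _ (cons_mem ha hv)).1 this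
        · intro h a ha
          obtain ⟨a', ha', rfl⟩ := mem_colSx.1 ha
          rw [hcons]
          exact (ih _ (cons_mem ha' hv)).2 (h a' ha')
    intro φ v hv
    rw [key φ v hv, hY.2 φ v hv]

/-- good sets are levels -/
theorem Good.eq_L {A : ZFSet.{0}} (hA : Good A) : ∃ θ, A = L θ := by
  have lev_mem : ∀ β γ : Ordinal.{0}, β < γ → hset γ ∈ A → L β ∈ A := by
    intro β γ hβ h
    have h1 : lev β ∈ A := hA.tr _ h (mem_hset.2 ⟨β, hβ, rfl⟩)
    have h2 : ({L β} : ZFSet.{0}) ∈ A := hA.tr _ h1 (by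
      unfold lev ZFSet.pair; exact ZFSet.mem_pair.2 (Or.inl rfl))
    exact hA.tr _ h2 (ZFSet.mem_singleton.2 rfl)
  let B : Set Ordinal.{0} := {β | ∃ γ, β < γ ∧ hset γ ∈ A}
  have hBA : ∀ β ∈ B, L β ∈ A := by
    rintro β ⟨γ, h1, h2⟩
    exact lev_mem β γ h1 h2
  have hdown : ∀ β ∈ B, ∀ δ ≤ β, δ ∈ B := by
    rintro β ⟨γ, h1, h2⟩ δ hδ
    exact ⟨γ, hδ.trans_lt h1, h2⟩
  have hne : (Bᶜ : Set Ordinal.{0}).Nonempty := by
    by_contra hc
    rw [Set.not_nonempty_iff_eq_empty, Set.compl_empty_iff] at hc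
    -- the rank of L β is unbounded
    have : ∀ β : Ordinal.{0}, L β ∈ A := fun β => hBA β (by rw [hc]; trivial)
    have hr : ∀ β : Ordinal.{0}, β ≤ (L β).rank := by
      intro β
      induction β using WellFoundedLT.induction with
      | _ β ih =>
      by_contra hcon
      rw [not_le] at hcon
      have h1 := ih _ hcon
      have h2 := ZFSet.rank_lt_of_mem (L_mem_L.2 hcon)
      exact absurd (h1.trans_lt h2) (lt_irrefl _)
    exact absurd ((hr A.rank).trans_lt (ZFSet.rank_lt_of_mem (this A.rank))) (lt_irrefl _)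
  let θ := sInf (Bᶜ : Set Ordinal.{0})
  have hθ : θ ∉ B := csInf_mem hne
  have hθ' : ∀ β < θ, β ∈ B := by
    intro β hβ
    by_contra hc
    exact absurd (csInf_le' hc) (not_le.2 hβ)
  have hB : ∀ β, β ∈ B ↔ β < θ := by
    intro β
    refine ⟨fun h => ?_, hθ' β⟩
    by_contra hc
    exact hθ (hdown β h θ (not_lt.1 hc))
  refine ⟨θ, ?_⟩
  ext x
  constructor
  · intro hx
    obtain ⟨γ, β, h1, h2, h3⟩ := hA.hist x hx
    have : β < θ := (hB β).1 ⟨γ, h1, h2⟩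
    exact L_mono this.le h3
  · intro hx
    obtain ⟨β, hβ, h⟩ := mem_L.1 hx
    have h1 := hBA β (hθ' β hβ)
    obtain ⟨γ, β', h2, h3, h4⟩ := hA.hist _ h1
    have h5 : β < β' := L_mem_L.1 h4
    have h6 : x ∈ L β' := mem_L.2 ⟨β, h5, h⟩
    exact hA.tr _ (lev_mem β' γ h2 h3) h6

theorem t_cmp : T_CMP := by
  intro A B hA hB
  obtain ⟨θ, rfl⟩ := hA.eq_L
  obtain ⟨η, rfl⟩ := hB.eq_L
  rcases lt_trichotomy θ η with h | h | h
  · exact Or.inr (Or.inl (L_mem_L.2 h))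
  · exact Or.inl (by rw [h])
  · exact Or.inr (Or.inr (L_mem_L.2 h))

theorem t_gcol (h1 : T_GOOD) (h2 : T_LT) (h3 : T_COL) : T_GCOL := by
  intro Y A hA hY ⟨y0, hy0⟩
  have hg : Good (colS Y) := by
    obtain ⟨σ, hσ⟩ := h1
    have e1 := hσ A hA.tr (fun _ => y0) (fun _ => hY.1 hy0)
    have e2 := hσ (colS Y) (h3.trans Y) (fun _ => col Y y0)
      (fun _ => (h3.mem_colS _ _).2 ⟨y0, hy0, rfl⟩)
    exact e2.1 ((h3.sat Y A hA.tr hY σ (fun _ => y0) (fun _ => hy0)).2 (e1.2 hA))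
  refine ⟨hg, ?_⟩
  intro x hx y hy
  obtain ⟨φ, hφ⟩ := h2
  have hv : ∀ n, cons x (fun _ => y) n ∈ Y := cons_mem hx (fun _ => hy)
  have e1 := hφ A hA _ (fun n => hY.1 (hv n))
  have e2 := hφ (colS Y) hg (fun n => col Y (cons x (fun _ => y) n))
    (fun n => (h3.mem_colS _ _).2 ⟨_, hv n, rfl⟩)
  have e3 := h3.sat Y A hA.tr hY φ _ hv
  rw [e1, e2] at e3
  exact e3

theorem t_lt (hO : T_ORD) (h1 : T_HISTD) (h2 : T_HISTE) : T_LT := by
  have hd : Dfn Good (fun _ v => IsHist (v 0)) := h1.mono (fun A hA => hA.toBase)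
  -- the formula
  have hq : Dfn Good (fun A v => ∃ h ∈ A, IsHist h ∧ ∃ q ∈ h, ∃ y ∈ A, ∃ c ∈ A, ∃ r ∈ A, ∃ d ∈ A,
      q = pair y c ∧ c = pair r d ∧ pair (v 0) (v 1) ∈ r) :=
    (hd.and ((((((d_pair 4 3 2).and ((d_pair 2 1 0).and (d_app 6 7 1))).ex).ex).ex).ex.exB 0)).ex
  refine hq.congr fun A hA v hv => ?_
  constructor
  · rintro ⟨h, _, hh, q, hq, y, _, c, _, r, _, d, _, e1, e2, e3⟩
    obtain ⟨γ, rfl⟩ := (h2 h).1 hh
    obtain ⟨β, _, rfl⟩ := mem_hset.1 hq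
    unfold lev at e1
    rw [ZFSet.pair_inj] at e1
    rw [← e1.2, ZFSet.pair_inj] at e2
    rw [← e2.1] at e3
    unfold rZ at e3
    rw [ZFSet.mem_sep] at e3
    obtain ⟨_, x, x', h3, h4⟩ := e3
    rw [ZFSet.pair_inj] at h4
    rw [h4.1, h4.2]
    exact ⟨β, h3⟩
  · intro hlt
    obtain ⟨γ, β, h3, h4, h5⟩ := hA.hist _ (hv 0)
    obtain ⟨γ', β', h3', h4', h5'⟩ := hA.hist _ (hv 1)
    -- a common level
    obtain ⟨δ, η, h6, h7, h8, h9⟩ : ∃ δ η : Ordinal.{0}, η < δ ∧ hset δ ∈ A ∧ v 0 ∈ L η ∧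
        v 1 ∈ L η := by
      rcases le_total β β' with h | h
      · exact ⟨γ', β', h3', h4', L_mono h h5, h5'⟩
      · exact ⟨γ, β, h3, h4, h5, L_mono h h5'⟩
    have hlev : lev η ∈ A := hA.tr _ h7 (mem_hset.2 ⟨η, h6, rfl⟩)
    have hp : ∀ a b : ZFSet.{0}, pair a b ∈ A → a ∈ A ∧ b ∈ A := by
      intro a b hab
      have h2 : ({a, b} : ZFSet.{0}) ∈ A := hA.tr _ hab (by
        unfold ZFSet.pair; exact ZFSet.mem_pair.2 (Or.inr rfl))
      exact ⟨hA.tr _ h2 (ZFSet.mem_pair.2 (Or.inl rfl)), hA.tr _ h2 (ZFSet.mem_pair.2 (Or.inr rfl))⟩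
    have k1 := hp _ _ hlev
    have k2 := hp _ _ k1.2
    refine ⟨hset δ, h7, (h2 _).2 ⟨δ, rfl⟩, lev η, mem_hset.2 ⟨η, h6, rfl⟩, _, k1.1, _, k1.2, _,
      k2.1, _, k2.2, rfl, rfl, ?_⟩
    unfold rZ
    rw [ZFSet.mem_sep]
    exact ⟨ZFSet.pair_mem_prod.2 ⟨h8, h9⟩, v 0, v 1, (hO.rel_iff _ _ _).2 ⟨h8, h9, hlt⟩, rfl⟩

end Pool.Agent.W886.VL
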