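import Pool.Agent.W886.VL.Stm

/-!
# Decreasing lists
-/

namespace Pool.Agent.W886.VL

theorem t_lex (h : T_ORD) : T_LEX where
  wf := by
    have irr : ∀ x, ¬ ltL x x := fun x hx => h.wf.asymmetric x x hx hx
    set R := fun l l' : List ZFSet.{0} => Desc l ∧ Desc l' ∧ List.Lex ltL l l' with hR
    have hnil : Acc R [] := by
      refine ⟨_, ?_⟩
      rintro y ⟨_, _, hy⟩
      cases hy
    -- lists with head h
    have key : ∀ a : ZFSet.{0}, ∀ t, Desc (a :: t) → Acc R (a :: t) := by
      intro a
      induction a using h.wf.induction with
      | _ a iha =>
      -- tails are accessible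
      have tails : ∀ t, Desc (a :: t) → Acc R t := by
        intro t ht
        cases t with
        | nil => exact hnil
        | cons b t =>
          unfold Desc at ht
          rw [List.pairwise_cons] at ht
          exact iha b (ht.1 b (by simp)) t ht.2
      intro t ht
      have hacc := tails t ht
      induction hacc with
      | intro t _ iht =>
      refine ⟨_, ?_⟩
      rintro y ⟨hy1, hy2, hy3⟩
      cases hy3 with
      | nil => exact hnil
      | cons hlt =>
        rename_i t'
        refine iht t' ⟨?_, ?_, hlt⟩ hy1
        · unfold Desc at hy1; rw [List.pairwise_cons] at hy1; exact hy1.2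
        · unfold Desc at ht; rw [List.pairwise_cons] at ht; exact ht.2
      | rel hlt => exact iha _ hlt _ hy1
    refine ⟨fun l => ?_⟩
    by_cases hl : Desc l
    · cases l with
      | nil => exact hnil
      | cons a t => exact key a t hl
    · refine ⟨_, ?_⟩
      rintro y ⟨_, h2, _⟩
      exact absurd h2 hl
  sort := by
    intro α m
    induction m with
    | nil => intro _; exact ⟨[], by simp [Desc], by simp⟩
    | cons a m ih =>
      intro hm
      obtain ⟨l, hl, hlm⟩ := ih (fun x hx => hm x (by simp [hx]))
      have ha := hm a (by simp)
      -- insertion
      have ins : ∀ l : List ZFSet.{0}, Desc l → (∀ x ∈ l, x ∈ L α) →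
          ∃ l', Desc l' ∧ ∀ x, x ∈ l' ↔ x = a ∨ x ∈ l := by
        intro l
        induction l with
        | nil => intro _ _; exact ⟨[a], by simp [Desc], by simp⟩
        | cons b l ihl =>
          intro hd hlα
          have hd' := hd
          unfold Desc at hd'
          rw [List.pairwise_cons] at hd'
          rcases h.tri α α a b ha (hlα b (by simp)) with h1 | h1 | h1
          · obtain ⟨l', h2, h3⟩ := ihl hd'.2 (fun x hx => hlα x (by simp [hx]))
            refine ⟨b :: l', ?_, ?_⟩
            · unfold Desc
              rw [List.pairwise_cons]
              refine ⟨fun x hx => ?_, h2⟩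
              rcases (h3 x).1 hx with h4 | h4
              · rw [h4]; exact h1
              · exact hd'.1 x h4
            · intro x
              simp only [List.mem_cons, h3]
              tauto
          · refine ⟨b :: l, hd, ?_⟩
            intro x
            rw [h1]
            simp
          · refine ⟨a :: b :: l, ?_, fun x => by simp⟩
            unfold Desc
            rw [List.pairwise_cons]
            refine ⟨fun x hx => ?_, hd⟩
            rcases List.mem_cons.1 hx with h4 | h4
            · rw [h4]; exact h1
            · exact h.trans _ _ _ (hd'.1 x h4) h1
      obtain ⟨l', h1, h2⟩ := ins l hl (fun x hx => hm x (by simp [(hlm x).1 hx]))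
      exact ⟨l', h1, fun x => by rw [h2, hlm]; simp⟩
  tri := by
    intro α l
    induction l with
    | nil =>
      intro l' _ _
      cases l' with
      | nil => exact Or.inr (Or.inl rfl)
      | cons b l' => exact Or.inl List.Lex.nil
    | cons a l ih =>
      intro l' hl hl'
      cases l' with
      | nil => exact Or.inr (Or.inr List.Lex.nil)
      | cons b l' =>
        rcases h.tri α α a b (hl a (by simp)) (hl' b (by simp)) with h1 | h1 | h1
        · exact Or.inl (List.Lex.rel h1)
        · subst h1
          rcases ih l' (fun x hx => hl x (by simp [hx])) (fun x hx => hl' x (by simp [hx])) with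
            h2 | h2 | h2
          · exact Or.inl (List.Lex.cons h2)
          · exact Or.inr (Or.inl (by rw [h2]))
          · exact Or.inr (Or.inr (List.Lex.cons h2))
        · exact Or.inr (Or.inr (List.Lex.rel h1))
  trans := by
    intro l l' l'' h1
    induction h1 generalizing l'' with
    | nil =>
      intro h2
      cases h2 with
      | cons _ => exact List.Lex.nil
      | rel _ => exact List.Lex.nil
    | cons h1 ih =>
      intro h2
      cases h2 with
      | cons h2 => exact List.Lex.cons (ih _ h2)
      | rel h2 => exact List.Lex.rel h2
    | rel h1 =>
      intro h2
      cases h2 with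
      | cons h2 => exact List.Lex.rel h1
      | rel h2 => exact List.Lex.rel (h.trans _ _ _ h1 h2)
  comp := by
    have irr : ∀ x, ¬ ltL x x := fun x hx => h.wf.asymmetric x x hx hx
    intro G
    induction G with
    | nil =>
      intro r l' e f _ hl' hx _
      cases l' with
      | nil => exact List.Lex.nil
      | cons x l' =>
        rcases hx x (by simp) with h1 | ⟨g, hg, _⟩
        · exact List.Lex.rel h1
        · simp at hg
    | cons g G ih =>
      intro r l' e f hd hl' hx hf
      have hd' := hd
      unfold Desc at hd'
      rw [List.cons_append, List.pairwise_cons] at hd'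
      have heg : ltL e g := hd'.1 e (by simp)
      have hGg : ∀ g' ∈ G, ltL g' g := fun g' hg' => hd'.1 g' (by simp [hg'])
      cases l' with
      | nil => exact List.Lex.nil
      | cons x l'' =>
        have hl'' := hl'
        unfold Desc at hl''
        rw [List.pairwise_cons] at hl''
        rcases hx x (by simp) with h1 | ⟨g', hg', hxg⟩
        · exact List.Lex.rel (h.trans _ _ _ h1 heg)
        · -- x = f g' ≤ g' ≤ g
          rcases List.mem_cons.1 hg' with h2 | h2
          · -- g' = g
            subst h2
            rcases hf g' (by simp) with h3 | h3
            · -- x = g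
              rw [h3] at hxg
              subst hxg
              refine List.Lex.cons (ih r l'' e f hd'.2 hl''.2 ?_ (fun g hg => hf g (by simp [hg])))
              intro y hy
              rcases hx y (by simp [hy]) with h4 | ⟨g1, hg1, hy1⟩
              · exact Or.inl h4
              · rcases List.mem_cons.1 hg1 with h5 | h5
                · exfalso
                  have h6 := hl''.1 y hy
                  rw [hy1, h5, h3] at h6
                  exact irr _ h6
                · exact Or.inr ⟨g1, h5, hy1⟩
            · rw [← hxg] at h3
              exact List.Lex.rel h3
          · have h3 := hGg g' h2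
            rcases hf g' (by simp [h2]) with h4 | h4
            · rw [hxg, h4]; exact List.Lex.rel h3
            · rw [hxg]; exact List.Lex.rel (h.trans _ _ _ h4 h3)

end Pool.Agent.W886.VL
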