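import Pool.Agent.W886.VL.Card

/-!
# Codes of structures are definable; truth is definable
-/

namespace Pool.Agent.W886.VL

open SOCat
open ZFSet (pair omega)

section

variable {C : ZFSet.{0} → Prop} [BC C]

theorem d_numapp (k i j : ℕ) : Dfn C (fun _ v => pair (num k) (v i) ∈ v j) :=
  (((d_num k 0).and (d_app 0 (i+1) (j+1))).ex).congr fun A hA v hv => by
    have hB := BC.base A hA
    show (∃ a ∈ A, a = num k ∧ pair a (v i) ∈ v j) ↔ _
    constructor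
    · rintro ⟨a, _, rfl, h⟩; exact h
    · intro h; exact ⟨_, hB.tr _ hB.om (num_mem_omega k), rfl, h⟩

theorem d_numpair (k i j : ℕ) : Dfn C (fun _ v => v j = pair (num k) (v i)) :=
  (((d_num k 0).and (d_pair (j+1) 0 (i+1))).ex).congr fun A hA v hv => by
    have hB := BC.base A hA
    show (∃ a ∈ A, a = num k ∧ v j = pair a (v i)) ↔ _
    constructor
    · rintro ⟨a, _, rfl, h⟩; exact h
    · intro h; exact ⟨_, hB.tr _ hB.om (num_mem_omega k), rfl, h⟩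

theorem d_tupmem (is : List ℕ) (j : ℕ) : Dfn C (fun _ v => tupZ (is.map v) ∈ v j) := by
  refine ((((Dfn.exFin (fun k : Fin is.length => d_numpair k.1 (is.get k + 2) 0)).allB 0).and
    (Dfn.allFin (fun k : Fin is.length => d_numapp k.1 (is.get k + 1) 0))).exB j).congr
    fun A hA v hv => ?_
  show (∃ p ∈ v j, (∀ q ∈ p, ∃ k : Fin is.length, q = pair (num k.1) (v (is.get k))) ∧
    ∀ k : Fin is.length, pair (num k.1) (v (is.get k)) ∈ p) ↔ _
  have key : ∀ p : ZFSet.{0}, ((∀ q ∈ p, ∃ k : Fin is.length, q = pair (num k.1) (v (is.get k))) ∧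
      ∀ k : Fin is.length, pair (num k.1) (v (is.get k)) ∈ p) ↔ p = tupZ (is.map v) := by
    intro p
    constructor
    · rintro ⟨h1, h2⟩
      ext q
      rw [mem_tupZ]
      constructor
      · intro hq
        obtain ⟨k, rfl⟩ := h1 q hq
        exact ⟨⟨k.1, by simp⟩, by simp⟩
      · rintro ⟨k, rfl⟩
        have := h2 ⟨k.1, by simpa using k.2⟩
        simpa using this
    · rintro rfl
      constructor
      · intro q hq
        obtain ⟨k, rfl⟩ := mem_tupZ.1 hq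
        exact ⟨⟨k.1, by simpa using k.2⟩, by simp⟩
      · intro k
        rw [pair_mem_tupZ]
        simp
  constructor
  · rintro ⟨p, hp, h⟩
    rw [key p] at h
    rw [← h]; exact hp
  · intro h
    exact ⟨_, h, (key _).2 rfl⟩

theorem d_tupm {f : (ℕ → ZFSet.{0}) → List ZFSet.{0}} (hf : VL f)
    {g : (ℕ → ZFSet.{0}) → ZFSet.{0}} (hg : VV g) : Dfn C (fun _ v => tupZ (f v) ∈ g v) := by
  obtain ⟨is, hf⟩ := hf
  obtain ⟨j, hg⟩ := hg
  exact (d_tupmem is j).congr fun A hA v hv => by rw [hf, hg]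

end

/-- the set `g` is the graph of an `a`-ary function on `d` -/
def FunOn (a : ℕ) (g d : ZFSet.{0}) : Prop :=
  ∀ xs : List ZFSet.{0}, xs.length = a → (∀ x ∈ xs, x ∈ d) →
    ∃ y ∈ d, tupZ (xs ++ [y]) ∈ g ∧ ∀ y' ∈ d, tupZ (xs ++ [y']) ∈ g → y' = y

theorem d_funon {C : ZFSet.{0} → Prop} [BC C] (a i j : ℕ) :
    Dfn C (fun _ v => FunOn a (v i) (v j)) := by
  have h : Dfn C (fun A v => ∀ xs : List ZFSet.{0}, xs.length = a → (∀ x ∈ xs, x ∈ A) →
      ((∀ x ∈ xs, x ∈ v j) →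
        ∃ y ∈ v j, tupZ (xs ++ [y]) ∈ v i ∧ ∀ y' ∈ v j, tupZ (xs ++ [y']) ∈ v i → y' = y)) := by
    refine Dfn.allLs a (P := fun A xs v => (∀ x ∈ xs, x ∈ v j) →
        ∃ y ∈ v j, tupZ (xs ++ [y]) ∈ v i ∧ ∀ y' ∈ v j, tupZ (xs ++ [y']) ∈ v i → y' = y) ?_
    refine (d_allmem (VL.range a) (VV.var (a + j))).imp ?_
    refine Dfn.exB (a + j) (P := fun A w => tupZ ((List.range a).map (fun n => w (n+1)) ++ [w 0]) ∈
      w (a + i + 1) ∧ ∀ y' ∈ w (a + j + 1),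
        tupZ ((List.range a).map (fun n => w (n+1)) ++ [y']) ∈ w (a + i + 1) → y' = w 0) ?_
    have hnil : VL (fun _ => []) := ⟨[], fun _ => rfl⟩
    refine (d_tupm (((VL.range a).succ).append (hnil.cons (VV.var 0))) (VV.var _)).and ?_
    refine Dfn.allB (a + j + 1) (P := fun A w =>
      tupZ ((List.range a).map (fun n => w (n+1+1)) ++ [w 0]) ∈ w (a + i + 1 + 1) → w 0 = w 1) ?_
    exact (d_tupm (((VL.range a).succ.succ).append (hnil.cons (VV.var 0))) (VV.var _)).imp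
      (Dfn.eq 0 1)
  refine h.congr fun A hA v hv => ?_
  have hB := BC.base A hA
  constructor
  · intro H xs h1 h2
    exact H xs h1 (fun x hx => hB.tr _ (hv j) (h2 x hx)) h2
  · intro H xs h1 _ h2
    exact H xs h1 h2

/-- explicit form of `IsStrCode` -/
def SCx (τ : Voc) (A b : ZFSet.{0}) : Prop :=
  (∀ p ∈ b, ∃ n ∈ omega, ∃ x ∈ A, p = pair n x) ∧
  (∀ n : ℕ, ∃ x ∈ A, pair (num n) x ∈ b ∧ ∀ y ∈ A, pair (num n) y ∈ b → y = x) ∧
  (∀ n : ℕ, (∀ k : Fin (τ.nR + τ.nF + 1), num n ≠ num (3 * k.1)) → pair (num n) ∅ ∈ b) ∧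
  ∃ d ∈ A, pair (num 0) d ∈ b ∧ ∅ ∈ d ∧ ∀ f : Fin τ.nF, ∃ g ∈ A,
    pair (num (3 * (τ.nR + f.1 + 1))) g ∈ b ∧ FunOn (τ.aF f) g d

theorem d_scx (τ : Voc) : Dfn Base (fun A v => SCx τ A (v 0)) := by
  have h1 : Dfn Base (fun A v => ∀ p ∈ v 0, ∃ n ∈ omega, ∃ x ∈ A, p = pair n x) := by
    refine ((((d_om 1).and (d_pair 2 1 0)).ex.ex).allB 0).congr fun A hA v hv => ?_
    show (∀ p ∈ v 0, ∃ n ∈ A, ∃ x ∈ A, n ∈ omega ∧ p = pair n x) ↔ _
    constructor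
    · intro h p hp
      obtain ⟨n, _, x, hx, hn, e⟩ := h p hp
      exact ⟨n, hn, x, hx, e⟩
    · intro h p hp
      obtain ⟨n, hn, x, hx, e⟩ := h p hp
      exact ⟨n, hA.tr _ hA.om hn, x, hx, hn, e⟩
  have h2 : Dfn Base (fun A v => ∀ n : ℕ, ∃ x ∈ A, pair (num n) x ∈ v 0 ∧
      ∀ y ∈ A, pair (num n) y ∈ v 0 → y = x) :=
    Dfn.allOm (P := fun A w => ∃ x ∈ A, pair (w 0) x ∈ w 1 ∧
      ∀ y ∈ A, pair (w 0) y ∈ w 1 → y = x)
      (((d_app 1 0 2).and ((d_app 2 0 3).imp (Dfn.eq 0 1)).all).ex)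
  have h3 : Dfn Base (fun _ v => ∀ n : ℕ, (∀ k : Fin (τ.nR + τ.nF + 1), num n ≠ num (3 * k.1)) →
      pair (num n) ∅ ∈ v 0) := by
    refine Dfn.allOm (P := fun _ w => (∀ k : Fin (τ.nR + τ.nF + 1), w 0 ≠ num (3 * k.1)) →
      pair (w 0) ∅ ∈ w 1) ?_
    refine (Dfn.allFin (fun k => (d_num (3 * k.1) 0).not)).imp ?_
    refine (((d_emp 0).and (d_app 1 0 2)).ex).congr fun A hA v hv => ?_
    show (∃ a ∈ A, a = ∅ ∧ pair (v 0) a ∈ v 1) ↔ _
    constructor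
    · rintro ⟨a, _, rfl, h⟩; exact h
    · intro h; exact ⟨∅, hA.empty, rfl, h⟩
  have h4 : Dfn Base (fun A v => ∃ d ∈ A, pair (num 0) d ∈ v 0 ∧ ∅ ∈ d ∧
      ∀ f : Fin τ.nF, ∃ g ∈ A,
        pair (num (3 * (τ.nR + f.1 + 1))) g ∈ v 0 ∧ FunOn (τ.aF f) g d) := by
    refine Dfn.ex (P := fun A w => pair (num 0) (w 0) ∈ w 1 ∧ ∅ ∈ w 0 ∧
      ∀ f : Fin τ.nF, ∃ g ∈ A, pair (num (3 * (τ.nR + f.1 + 1))) g ∈ w 1 ∧
        FunOn (τ.aF f) g (w 0)) ?_
    refine (d_numapp 0 0 1).and (Dfn.and ?_ (Dfn.allFin fun f => ?_))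
    · refine (((d_emp 0).exB 0)).congr fun A hA v hv => ?_
      show (∃ a ∈ v 0, a = ∅) ↔ _
      simp
    · exact ((d_numapp _ 0 2).and (d_funon (τ.aF f) 0 1)).ex
  exact h1.and (h2.and (h3.and h4))

theorem scx_iff {τ : Voc} {A b : ZFSet.{0}} (hA : Base A) (hb : b ∈ A) :
    SCx τ A b ↔ IsStrCode τ b := by
  constructor
  · rintro ⟨h1, h2, h3, d, _, hd, hed, h4⟩
    choose s hsA hs hsu using h2
    have hbs : b = fnZ s := by
      ext p
      rw [mem_fnZ]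
      constructor
      · intro hp
        obtain ⟨n, hn, x, hx, rfl⟩ := h1 p hp
        obtain ⟨m, rfl⟩ := mem_omega.1 hn
        exact ⟨m, by rw [hsu m x hx hp]⟩
      · rintro ⟨n, rfl⟩
        exact hs n
    have hds : d = s 0 := by rw [hbs] at hd; exact pair_mem_fnZ.1 hd
    subst hds
    have h4' : ∀ f : Fin τ.nF, FunOn (τ.aF f) (s (3 * (τ.nR + f.1 + 1))) (s 0) := by
      intro f
      obtain ⟨g, _, hg, h5⟩ := h4 f
      rw [hbs, pair_mem_fnZ] at hg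
      rw [← hg]; exact h5
    -- the structure
    let e : Shrink.{0} (s 0) → ZFSet.{0} := fun m => ((equivShrink (s 0)).symm m).1
    have he : ∀ m, e m ∈ s 0 := fun m => ((equivShrink (s 0)).symm m).2
    have hsurj : ∀ x ∈ s 0, ∃ m, e m = x := by
      intro x hx
      exact ⟨equivShrink (s 0) ⟨x, hx⟩, by simp [e]⟩
    have hinj : Function.Injective e := by
      intro m m' h
      exact (equivShrink (s 0)).symm.injective (Subtype.ext h)
    have hfun : ∀ (f : Fin τ.nF) (xs : Fin (τ.aF f) → Shrink.{0} (s 0)), ∃ m,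
        tupZ (List.ofFn (fun k => e (xs k)) ++ [e m]) ∈ s (3 * (τ.nR + f.1 + 1)) ∧
        ∀ m', tupZ (List.ofFn (fun k => e (xs k)) ++ [e m']) ∈ s (3 * (τ.nR + f.1 + 1)) →
          m' = m := by
      intro f xs
      obtain ⟨y, hy, h6, h7⟩ := h4' f (List.ofFn (fun k => e (xs k))) (by simp) (by
        intro x hx
        rw [List.mem_ofFn] at hx
        obtain ⟨k, rfl⟩ := hx
        exact he _)
      obtain ⟨m, rfl⟩ := hsurj y hy
      exact ⟨m, h6, fun m' h => hinj (h7 _ (he m') h)⟩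
    choose F hF1 hF2 using hfun
    refine ⟨Shrink.{0} (s 0), ⟨fun R xs => tupZ (List.ofFn (fun k => e (xs k))) ∈
      s (3 * (R.1 + 1)), F⟩, s, e, hbs, ?_, hinj, hsurj ∅ hed, ?_, fun R xs => Iff.rfl, ?_⟩
    · intro n hn
      have := h3 n (fun k hk => hn k.1 (by omega) (num_inj.1 hk))
      rw [hbs, pair_mem_fnZ] at this
      exact this.symm
    · intro x
      exact ⟨hsurj x, fun ⟨m, hm⟩ => hm ▸ he m⟩
    · intro f xs y
      constructor
      · rintro rfl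
        exact hF1 f xs
      · intro h
        exact (hF2 f xs y h).symm
  · rintro ⟨M, S, s, e, hbs, h1, h2, ⟨m0, h3⟩, h4, h5, h6⟩
    have hsA : ∀ n, s n ∈ A := val_mem hA.tr hb hbs
    refine ⟨?_, ?_, ?_, s 0, hsA 0, ?_, ?_, ?_⟩
    · intro p hp
      rw [hbs] at hp
      obtain ⟨n, rfl⟩ := mem_fnZ.1 hp
      exact ⟨num n, num_mem_omega n, s n, hsA n, rfl⟩
    · intro n
      refine ⟨s n, hsA n, by rw [hbs]; exact pair_mem_fnZ.2 rfl, fun y _ hy => ?_⟩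
      rw [hbs] at hy
      exact pair_mem_fnZ.1 hy
    · intro n hn
      rw [hbs, pair_mem_fnZ, h1 n]
      intro k hk hnk
      exact hn ⟨k, by omega⟩ (by rw [hnk])
    · rw [hbs]; exact pair_mem_fnZ.2 rfl
    · rw [h4]; exact ⟨m0, h3⟩
    · intro f
      refine ⟨_, hsA _, by rw [hbs]; exact pair_mem_fnZ.2 rfl, ?_⟩
      intro xs hxs hxd
      have hch : ∀ k : Fin (τ.aF f), ∃ m, e m = xs[k.1]'(by rw [hxs]; exact k.2) := by
        intro k
        exact (h4 _).1 (hxd _ (List.getElem_mem _))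
      choose ys hys using hch
      have hxs' : xs = List.ofFn (fun k => e (ys k)) := by
        apply List.ext_getElem (by simp [hxs])
        intro i h7 h8
        simp [hys]
      refine ⟨e (S.fn f ys), (h4 _).2 ⟨_, rfl⟩, ?_, ?_⟩
      · rw [hxs']; exact (h6 f ys _).1 rfl
      · intro y' hy' h
        obtain ⟨m, rfl⟩ := (h4 y').1 hy'
        rw [hxs'] at h
        rw [(h6 f ys m).2 h]

theorem t_sc : T_SC := fun τ =>
  (d_scx τ).congr fun A hA v hv => scx_iff hA (hv 0)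

theorem t_ti (h1 : T_HH) (h2 : T_FS) (h3 : T_RS) (h4 : T_SC) (h5 : T_RE) : T_TI := by
  intro C hC hcode τ
  have hBI : ∀ A, IsHH A → Base A := by
    rintro A ⟨Q, hQ, rfl⟩
    exact h1.base Q
  haveI : BC IsHH := ⟨hBI⟩
  -- `v 2 = F`, `v 3 = R`
  have e1 : Dfn IsHH (fun _ v => (v 0).IsTransitive ∧ v 1 ∈ v 0 ∧ IsStrCode τ (v 1)) :=
    (d_trans 0).and ((Dfn.mem 1 0).and (((h4 τ).mono hBI).ren (fun _ => 1)))
  have e2 : Dfn IsHH (fun A v => ∃ F ∈ A, ∃ R ∈ A, (R = RSet (v 0) ∧ F = FSet (v 0)) ∧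
      ∀ n : ℕ, C n → pair (num n) (v 1) ∈ R) := by
    refine Dfn.ex (P := fun A w => ∃ R ∈ A, (R = RSet (w 1) ∧ w 0 = FSet (w 1)) ∧
      ∀ n : ℕ, C n → pair (num n) (w 2) ∈ R) ?_
    refine Dfn.ex (P := fun A w => (w 0 = RSet (w 2) ∧ w 1 = FSet (w 2)) ∧
      ∀ n : ℕ, C n → pair (num n) (w 3) ∈ w 0) ?_
    refine Dfn.and ?_ ?_
    · exact (h3.mono hBI).ren (fun n => match n with | 0 => 0 | 1 => 2 | _ => 1)
    · have g1 : Dfn IsHH (fun _ w => ∃ n, w 0 = num n ∧ C n) := (h5 C hC).mono hBI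
      refine (Dfn.allOm (g1.imp (d_app 0 4 1))).congr fun A hA v hv => ?_
      show (∀ n : ℕ, (∃ m, num n = num m ∧ C m) → pair (num n) (v 3) ∈ v 0) ↔ _
      apply forall_congr'; intro n
      constructor
      · intro h hn; exact h ⟨n, rfl, hn⟩
      · rintro h ⟨m, hm, hCm⟩
        rw [num_inj] at hm
        subst hm
        exact h hCm
  refine (e1.and e2).congr fun A hA v hv => ?_
  obtain ⟨M, hM, rfl⟩ := hA
  have hfs := h1.fs M (v 0) (hv 0)
  constructor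
  · rintro ⟨⟨htr, hmem, hc⟩, F, _, R, _, ⟨rfl, rfl⟩, h⟩
    refine ⟨htr, hmem, hc, ?_⟩
    intro φ hφ
    obtain ⟨s, hs⟩ := hc.fn
    have := h _ hφ
    rw [hs, pair_mem_RSet] at this
    have hval : val (v 1) = s := by rw [hs]; funext n; exact val_fnZ s n
    rw [hval]; exact this.2
  · rintro ⟨htr, hmem, hc, h⟩
    refine ⟨⟨htr, hmem, hc⟩, _, hfs.1, _, hfs.2, ⟨rfl, rfl⟩, ?_⟩
    intro n hn
    obtain ⟨φ, rfl⟩ := hcode n hn
    obtain ⟨N, S, s, e, hs, hsup, _, _, _⟩ := hc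
    have hval : val (v 1) = s := by rw [hs]; funext n; exact val_fnZ s n
    have := h φ hn
    rw [hval] at this
    rw [hs, pair_mem_RSet]
    refine ⟨⟨val_mem htr hmem hs, 3 * (τ.nR + τ.nF) + 1, fun n hn => hsup n ?_⟩, this⟩
    intro k hk
    omega

end Pool.Agent.W886.VL
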