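import Pool.Agent.W886.VL.Fin
import Pool.Agent.W886.VL.Col
import Pool.Agent.W886.VL.Lex
import Pool.Agent.W886.VL.SC
import Pool.Agent.W402.VL.Rec
import Pool.Agent.W352.VL.NS
import Pool.Agent.W826.VLDef
import Pool.Agent.W352.VL.Rel
import Pool.Agent.W352.VL.FS
import Pool.Agent.W928.VL.ORD
import Pool.Agent.W352.VL.HistD
import Pool.Agent.W352.VL.HistE
import Pool.Agent.W352.VL.GoodD
import Pool.Agent.W928.VL.DCL
import Pool.Agent.W928.VL.HH
import Pool.Agent.W928.VL.HHV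
import Pool.Agent.W826.VLKs2
import Pool.Agent.W63.VL.VLFIN
import Pool.Agent.W928.VL.CDS
import Pool.Agent.W352.VL.RS
import Pool.Agent.W826.VLKs1
import Pool.Agent.W826.VLKs3

/-!
# The theorem from its parts
-/

namespace Pool.Agent.W886.VL

open SOCat

theorem solovay (hV : VeqL) {τ : Voc}
    (T : Set (SO τ)) (hT : Complete.{0} T) (hR : RecAx T) : Categorical.{0} T := by
  have hRE : T_RE := Pool.Agent.W402.VL.Rec.re'
  have hNS : T_NS := Pool.Agent.W352.VL.nsTask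
  have hDEF : T_DEF := Pool.Agent.W826.VLDef.task hNS
  have hREL : T_REL := Pool.Agent.W352.VL.relTask
  have hFS : T_FS := Pool.Agent.W352.VL.fsTask
  have hRS : T_RS := Pool.Agent.W352.VL.rsTask Pool.Agent.W402.VL.Rec.pair' hRE hFS
  have hORD : T_ORD := Pool.Agent.W928.VL.ORD.task hDEF
  have hHD : T_HISTD := Pool.Agent.W352.VL.histdTask hFS hRS
  have hHE : T_HISTE := Pool.Agent.W352.VL.histeTask hDEF
  have hGOOD : T_GOOD := Pool.Agent.W352.VL.goodTask hHD hHE
  have hLT : T_LT := t_lt hORD hHD hHE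
  have hCMP : T_CMP := t_cmp
  have hCOL : T_COL := t_col
  have hGCOL : T_GCOL := t_gcol hGOOD hLT hCOL
  have hDCL : T_DCL := Pool.Agent.W928.VL.DCL.task hORD hLT
  have hHH : T_HH := Pool.Agent.W928.VL.HH.task
  have hHHV : T_HHV := Pool.Agent.W928.VL.HHV.task hV hGCOL hCOL hDCL hHH
  have hCDS : T_CDS := Pool.Agent.W928.VL.CDS.task hHH
  have hSC : T_SC := t_sc
  have hFIN : T_FIN := Pool.Agent.W63.VLFIN.task
  have hKS1 : T_KS1 := Pool.Agent.W826.VLKs1.task
  have hKS2 : T_KS2 := Pool.Agent.W826.VLKs2.task hKS1 hHH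
  have hKS : T_KS := Pool.Agent.W826.VLKs3.task hKS1 hKS2
  have hTI : T_TI := t_ti hHH hFS hRS hSC hRE
  have hLEX : T_LEX := t_lex hORD
  have hKEY : T_KEY := key hORD hLT hCMP hCOL hGCOL hDCL hREL hLEX
  have hCARD : T_CARD := card_step hHH hHHV hCDS hKS hTI
  have hMAIN : T_MAIN := main_step hORD hLT hGOOD hHH hHHV hCDS hKS hTI hSC hNS hLEX hKEY hREL
  exact solovay_of hHH hCDS hCARD hMAIN hFIN T hT hR

end Pool.Agent.W886.VL
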