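import Pool.Agent.W886.VL.Main

/-!
# All the models have the same cardinality
-/

namespace Pool.Agent.W886.VL

open SOCat
open ZFSet (pair omega)

/-- `p` is a finite sequence of elements of `d` -/
def IsTup (p d : ZFSet.{0}) : Prop :=
  ∃ n ∈ omega, (∀ q ∈ p, ∃ i ∈ n, ∃ x ∈ d, q = pair i x) ∧
    ∀ i ∈ n, ∃ x ∈ d, pair i x ∈ p ∧ ∀ y ∈ d, pair i y ∈ p → y = x

theorem isTup_iff {p d : ZFSet.{0}} :
    (∃ l : List ZFSet.{0}, (∀ x ∈ l, x ∈ d) ∧ p = tupZ l) ↔ IsTup p d := by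
  constructor
  · rintro ⟨l, hl, rfl⟩
    refine ⟨num l.length, num_mem_omega _, ?_, ?_⟩
    · intro q hq
      obtain ⟨k, rfl⟩ := mem_tupZ.1 hq
      exact ⟨_, num_mem_num.2 k.2, _, hl _ (List.get_mem _ _), rfl⟩
    · intro i hi
      obtain ⟨m, hm, rfl⟩ := mem_num.1 hi
      refine ⟨l[m], hl _ (List.getElem_mem _), ?_, ?_⟩
      · rw [pair_mem_tupZ, List.getElem?_eq_getElem hm]
      · intro y _ hy
        rw [pair_mem_tupZ, List.getElem?_eq_getElem hm] at hy
        exact (Option.some.inj hy).symm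
  · rintro ⟨n, hn, h1, h2⟩
    obtain ⟨m, rfl⟩ := mem_omega.1 hn
    have h3 : ∀ i : ℕ, ∃ x, i < m → x ∈ d ∧ pair (num i) x ∈ p ∧
        ∀ y ∈ d, pair (num i) y ∈ p → y = x := by
      intro i
      by_cases hi : i < m
      · obtain ⟨x, h4, h5, h6⟩ := h2 (num i) (num_mem_num.2 hi)
        exact ⟨x, fun _ => ⟨h4, h5, h6⟩⟩
      · exact ⟨∅, fun h => absurd h hi⟩
    choose f hf using h3
    refine ⟨(List.range m).map f, ?_, ?_⟩
    · intro x hx
      obtain ⟨i, hi, rfl⟩ := List.mem_map.1 hx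
      exact (hf i (List.mem_range.1 hi)).1
    · ext q
      constructor
      · intro hq
        obtain ⟨i, hi, x, hx, rfl⟩ := h1 q hq
        obtain ⟨j, hj, rfl⟩ := mem_num.1 hi
        rw [(hf j hj).2.2 x hx hq, pair_mem_tupZ]
        simp [hj]
      · intro hq
        obtain ⟨k, rfl⟩ := mem_tupZ.1 hq
        have hk : k.1 < m := by simpa using k.2
        simp only [List.get_eq_getElem, List.getElem_map, List.getElem_range]
        exact (hf k.1 hk).2.1

theorem d_istup {C : ZFSet.{0} → Prop} [BC C] (i j : ℕ) :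
    Dfn C (fun _ v => IsTup (v i) (v j)) := by
  refine (((d_om 0).and (((((d_pair 2 1 0).exB (j+3)).exB 1).allB (i+1)).and
    (((d_app 1 0 (i+3)).and (((d_app 2 0 (i+4)).imp (Dfn.eq 0 1)).allB (j+3))).exB
      (j+2) |>.allB 0))).ex).congr fun A hA v hv => ?_
  have hB := BC.base A hA
  constructor
  · rintro ⟨n, _, h1, h2⟩
    exact ⟨n, h1, h2⟩
  · rintro ⟨n, h1, h2⟩
    exact ⟨n, hB.tr _ hB.om h1, h1, h2⟩

theorem card_step (hHH : T_HH) (hHHV : T_HHV) (hCds : T_CDS) (hKS : T_KS) (hTI : T_TI) :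
    T_CARD := by
  intro τ T hT hR hfin
  obtain ⟨T', hsent, hmod, hre⟩ := hR
  have hinf : ∀ (M : Type) [Nonempty M] (S : Str τ M), IsModel S T → Infinite M := by
    intro M _ S hS
    by_contra hc
    rw [not_infinite_iff_finite] at hc
    exact hfin M S hS
  -- the least cardinality of a model
  have key : ∀ (M N : Type) [Nonempty M] [Nonempty N] (S : Str τ M) (S' : Str τ N),
      IsModel S T → IsModel S' T →
      (∀ (P : Type) [Nonempty P] (S'' : Str τ P), IsModel S'' T →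
        Cardinal.mk M ≤ Cardinal.mk P) → ¬ Cardinal.mk M < Cardinal.mk N := by
    intro M N _ _ S S' hS hS' hmin hlt
    haveI := hinf M S hS
    haveI := hinf N S' hS'
    let C := codesOf T'
    have hC : ∀ c, C c → ∃ φ : NF, φ.code = c := by
      rintro c ⟨ψ, _, h⟩
      exact ⟨emb ψ, by rw [code_emb, h]⟩
    have hti := hTI C hre hC τ
    let P : ZFSet.{0} → (ZFSet.{0} → Prop) → Prop := fun A _ =>
      ∃ X ∈ A, ∃ u ∈ A, ∃ d ∈ A, ((∃ o ∈ A, o = num 0 ∧ pair o d ∈ u) ∧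
        (∀ z ∈ A, (∀ p ∈ z, IsTup p d) → z ∈ X)) ∧
        (X.IsTransitive ∧ u ∈ X ∧ IsStrCode τ u ∧ TrueIn C X u)
    have hBI : ∀ A, IsHH A → Base A := by
      rintro A ⟨Q, hQ, rfl⟩
      exact hHH.base Q
    haveI : BC IsHH := ⟨hBI⟩
    have hP : DfnK IsHH (fun A K (_ : ℕ → ZFSet.{0}) => P A K) := by
      refine DfnK.of_dfn (R := fun A _ => ∃ X ∈ A, ∃ u ∈ A, ∃ d ∈ A,
        ((∃ o ∈ A, o = num 0 ∧ pair o d ∈ u) ∧ (∀ z ∈ A, (∀ p ∈ z, IsTup p d) → z ∈ X)) ∧
        (X.IsTransitive ∧ u ∈ X ∧ IsStrCode τ u ∧ TrueIn C X u)) ?_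
      have g1 : Dfn IsHH (fun A (v : ℕ → ZFSet.{0}) => ∃ o ∈ A, o = num 0 ∧ pair o (v 0) ∈ v 1) :=
        ((d_num 0 0).and (d_app 0 1 2)).ex
      have g2 : Dfn IsHH (fun A (v : ℕ → ZFSet.{0}) => ∀ z ∈ A, (∀ p ∈ z, IsTup p (v 0)) →
          z ∈ v 2) :=
        ((((d_istup 0 2).allB 0).imp (Dfn.mem 0 3)).all)
      have g3 : Dfn IsHH (fun _ (v : ℕ → ZFSet.{0}) => (v 2).IsTransitive ∧ v 1 ∈ v 2 ∧
          IsStrCode τ (v 1) ∧ TrueIn C (v 2) (v 1)) :=
        hti.ren (fun n => if n = 0 then 2 else 1)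
      exact ((g1.and g2).and g3).ex.ex.ex
    -- it holds for the larger model
    have hPN : P (HH N) (Cds S') := by
      obtain ⟨b, hb, hbS⟩ := hCds.ex M S
      have hMN := hHHV.mem M N hlt
      have htr := hHH.tr N
      obtain ⟨s, e, hbs, hrest⟩ := hbS
      have hbS : Cds S b := ⟨s, e, hbs, hrest⟩
      have h0 : s 0 ∈ HH M := val_mem (hHH.tr M) hb hbs 0
      refine ⟨HH M, hMN, b, htr _ hMN hb, s 0, htr _ hMN h0, ⟨⟨num 0, ?_, rfl, ?_⟩, ?_⟩,
        hHH.tr M, hb, ⟨M, S, hbS⟩, ?_⟩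
      · exact (hHH.base N).tr _ (hHH.base N).om (num_mem_omega 0)
      · rw [hbs]; exact pair_mem_fnZ.2 rfl
      · intro z _ hz
        exact hHH.tup M (s 0) z h0 (fun p hp => isTup_iff.2 (hz p hp))
      · intro φ hφ
        obtain ⟨ψ, hψ, rfl⟩ := codesOf_code hφ
        exact (model_iff hHH hCds hsent hb hbS).1 ((hmod M S).1 hS) ψ hψ
    -- so it holds for the smaller one
    obtain ⟨X, hX, u, hu, d, hd, ⟨⟨o, _, ho, hod⟩, hcl⟩, hXtr, huX, hcode, htrue⟩ :=
      transfer hKS hHH hT hfin hP S' S hS' hS hPN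
    obtain ⟨Q, SQ, s, e, hus, hfs, hinj, hem, hdom, hrel, hfn⟩ := hcode
    have hSQ : Cds SQ u := ⟨s, e, hus, hfs, hinj, hem, hdom, hrel, hfn⟩
    have hds : d = s 0 := by
      rw [ho, hus] at hod
      exact pair_mem_fnZ.1 hod
    have hvd : val u 0 = d := by rw [hus, val_fnZ, hds]
    have hcl' : ∀ z : ZFSet.{0}, (∀ p ∈ z, ∃ l : List ZFSet.{0}, (∀ x ∈ l, x ∈ d) ∧
        p = tupZ l) → z ∈ X := by
      intro z hz
      exact hcl z (hHH.tup M d z hd hz) (fun p hp => isTup_iff.1 (hz p hp))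
    haveI : Nonempty Q := ⟨hem.choose⟩
    have hSQm : IsModel SQ T := by
      rw [hmod]
      intro ψ hψ
      have h1 := hCds.sat Q SQ X u hXtr huX hSQ (by rw [hvd]; exact hcl') ψ (hsent ψ hψ)
      exact h1.2 (htrue (emb ψ) ⟨ψ, hψ, (code_emb ψ).symm⟩)
    have h1 : Cardinal.mk M ≤ Cardinal.mk Q := hmin Q SQ hSQm
    -- but the power set of `Q` injects into `X`
    have h2 : Cardinal.mk (Set Q) ≤ Cardinal.mk M := by
      have h3 : X.card ≤ Cardinal.mk M := hHH.card M X hX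
      refine le_trans ?_ h3
      unfold ZFSet.card
      -- the map
      have hmem : ∀ a : Set Q, ZFSet.range (fun q : a => tupZ [e q.1]) ∈ X := by
        intro a
        apply hcl'
        intro p hp
        obtain ⟨q, rfl⟩ := ZFSet.mem_range.1 hp
        refine ⟨[e q.1], ?_, rfl⟩
        intro x hx
        rw [List.mem_singleton.1 hx, hds]
        exact (hdom _).2 ⟨_, rfl⟩
      refine Cardinal.mk_le_of_injective (f := fun a : Set Q =>
        equivShrink X ⟨ZFSet.range (fun q : a => tupZ [e q.1]), hmem a⟩) ?_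
      intro a b hab
      have h4 := congrArg Subtype.val ((equivShrink X).injective hab)
      simp only at h4
      ext q
      have h5 : ∀ c : Set Q, q ∈ c ↔ tupZ [e q] ∈ ZFSet.range (fun q : c => tupZ [e q.1]) := by
        intro c
        rw [ZFSet.mem_range]
        constructor
        · intro h; exact ⟨⟨q, h⟩, rfl⟩
        · rintro ⟨⟨q', hq'⟩, h⟩
          rw [tupZ_inj] at h
          have : e q' = e q := by simpa using h
          rw [← hinj this]; exact hq'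
      rw [h5 a, h5 b, h4]
    have h6 : Cardinal.mk Q < Cardinal.mk (Set Q) := by
      rw [Cardinal.mk_set]; exact Cardinal.cantor _
    exact absurd (h6.trans_le (h2.trans h1)) (lt_irrefl _)
  -- conclusion
  intro M N _ _ S S' hS hS'
  let cards : Set Cardinal.{0} := {c | ∃ (P : Type) (_ : Nonempty P) (S'' : Str τ P),
    IsModel S'' T ∧ Cardinal.mk P = c}
  have hne : cards.Nonempty := ⟨_, M, inferInstance, S, hS, rfl⟩
  obtain ⟨P, hPn, SP, hSP, hPc⟩ := csInf_mem hne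
  have hmin : ∀ (Q : Type) [Nonempty Q] (S'' : Str τ Q), IsModel S'' T →
      Cardinal.mk P ≤ Cardinal.mk Q := by
    intro Q i S'' hS''
    rw [hPc]
    exact csInf_le' ⟨Q, i, S'', hS'', rfl⟩
  have e1 : Cardinal.mk P = Cardinal.mk M :=
    le_antisymm (hmin M S hS) (not_lt.1 (key P M SP S hSP hS hmin))
  have e2 : Cardinal.mk P = Cardinal.mk N :=
    le_antisymm (hmin N S' hS') (not_lt.1 (key P N SP S' hSP hS' hmin))
  rw [← e1, ← e2]

end Pool.Agent.W886.VL
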