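import Mathlib
import Pool.Agent.SOCat.Defs

/-!
# Definitions for the statement

* `Sat A φ v` : satisfaction of a first-order formula of set theory in the structure `(A, ∈)`,
* `Def A` : the set of the subsets of `A` which are first-order definable over `(A, ∈)` with
  parameters,
* `L α` : the levels of the constructible hierarchy, `L α = ⋃_{β < α} Def (L β)`,
* `VeqL` : the axiom of constructibility,
* `SO.code` : a Gödel numbering of the second-order formulas of a finite vocabulary,
* `RecAx` : recursively axiomatized sets of second-order sentences.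

The second-order formulas `SO τ` of a finite vocabulary `τ`, full second-order satisfaction
`SO.Sat`, `Models`, `IsModel`, `Complete` and `Categorical` are those of `SOCat.Defs`.
-/

namespace Pool.Agent.W886.VL

open SOCat

/-- Satisfaction of first-order formulas of set theory in the structure `(A, ∈)`
(de Bruijn indices; `cons a v` puts `a` in front of the sequence `v`). -/
def Sat (A : ZFSet.{0}) : Fml → (ℕ → ZFSet.{0}) → Prop
  | .mem i j, v => v i ∈ v j
  | .eq i j, v => v i = v j
  | .neg φ, v => ¬ Sat A φ v
  | .and φ ψ, v => Sat A φ v ∧ Sat A ψ v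
  | .all φ, v => ∀ a ∈ A, Sat A φ (cons a v)

/-- `Def A` is the set of the subsets of `A` which are definable over `(A, ∈)` by a first-order
formula with parameters from `A` (the empty set is always definable; the clause `z = ∅` matters
only for `A = ∅`, where there are no sequences of parameters). -/
noncomputable def Def (A : ZFSet.{0}) : ZFSet.{0} :=
  ZFSet.sep (fun z => z = ∅ ∨ ∃ (φ : Fml) (v : ℕ → ZFSet.{0}), (∀ n, v n ∈ A) ∧
    ∀ a ∈ A, a ∈ z ↔ Sat A φ (cons a v)) A.powerset

/-- The levels of the constructible hierarchy: `L α` is the union of the sets `Def (L β)`,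
`β < α`.  So `L 0 = ∅`, `L (α + 1) = Def (L α)`, and `L α` is the union of the `L β`, `β < α`,
for limit `α`. -/
noncomputable def L (α : Ordinal.{0}) : ZFSet.{0} :=
  ZFSet.iUnion (fun β : Set.Iio α => Def (L β.1))
termination_by α
decreasing_by exact β.2

/-- The axiom of constructibility `V = L`: every set is in some level of the constructible
hierarchy. -/
def VeqL : Prop := ∀ x : ZFSet.{0}, ∃ α : Ordinal.{0}, x ∈ L α

/-- A Gödel numbering of the second-order formulas of the vocabulary `τ`.  The symbols are
numbered as follows: the `k`-th symbol of the vocabulary (first the relation symbols, then the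
function symbols) has the number `3 (k + 1)`, the first-order variable `x` has the number
`3 x + 1`, the second-order variable `(r, i)` has the number `3 ⟨r, i⟩ + 2`; here `⟨r, i⟩` is the
pairing function `Nat.pair`, and finite sequences of numbers are coded by
`Encodable.encode`. -/
def SOcode {τ : Voc} : SO τ → ℕ
  | .eq x y => Nat.pair 0 (Nat.pair (3 * x + 1) (3 * y + 1))
  | .rel R xs => Nat.pair 2 (Nat.pair (3 * (R.1 + 1))
      (Encodable.encode (List.ofFn (fun k => 3 * xs k + 1))))
  | .fn f xs y => Nat.pair 2 (Nat.pair (3 * (τ.nR + f.1 + 1))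
      (Encodable.encode (List.ofFn (fun k => 3 * xs k + 1) ++ [3 * y + 1])))
  | .var r i xs => Nat.pair 2 (Nat.pair (3 * Nat.pair r i + 2)
      (Encodable.encode (List.ofFn (fun k => 3 * xs k + 1))))
  | .neg φ => Nat.pair 3 (SOcode φ)
  | .and φ ψ => Nat.pair 4 (Nat.pair (SOcode φ) (SOcode ψ))
  | .all x φ => Nat.pair 5 (Nat.pair (3 * x + 1) (SOcode φ))
  | .allR r i φ => Nat.pair 6 (Nat.pair (3 * Nat.pair r i + 2) (SOcode φ))

/-- `T` is recursively axiomatized: it has the same models as some recursively enumerable set
`T'` of second-order sentences (a recursive set is recursively enumerable). -/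
def RecAx {τ : Voc} (T : Set (SO τ)) : Prop :=
  ∃ T' : Set (SO τ), (∀ φ ∈ T', SO.IsSentence.{0} φ) ∧
    (∀ (M : Type) [Nonempty M] (S : Str τ M), IsModel S T ↔ IsModel S T') ∧
    REPred (fun n : ℕ => ∃ φ ∈ T', SOcode φ = n)

end Pool.Agent.W886.VL
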