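import Pool.Agent.W886.VL.Card

/-!
# Assembly
-/

namespace Pool.Agent.W886.VL

open SOCat

theorem solovay_of (hHH : T_HH) (hCds : T_CDS) (hCard : T_CARD) (hMain : T_MAIN) (hFin : T_FIN)
    {τ : Voc} (T : Set (SO τ)) (hT : Complete.{0} T) (hR : RecAx T) : Categorical.{0} T := by
  intro M N _ _ S S' hS hS'
  by_cases hf : ∃ (P : Type) (_ : Nonempty P) (_ : Finite P) (S'' : Str τ P), IsModel S'' T
  · obtain ⟨P, _, _, S'', hS''⟩ := hf
    exact Isom.trans' (Isom.symm' (hFin τ T hT P M S'' S hS'' hS)) (hFin τ T hT P N S'' S' hS'' hS')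
  · have hfin : ∀ (M : Type) [Nonempty M] [Finite M] (S : Str τ M), ¬ IsModel S T := by
      intro P _ _ S'' hS''
      exact hf ⟨P, inferInstance, inferInstance, S'', hS''⟩
    have hcard := hCard τ T hT hR hfin
    have hinf : Infinite N := by
      by_contra hc
      rw [not_infinite_iff_finite] at hc
      exact hfin N S' hS'
    obtain ⟨e⟩ := Cardinal.eq.1 (hcard N M S' S hS' hS)
    obtain ⟨T', hsent, hmod, -⟩ := id hR
    obtain ⟨b, hb, hbS⟩ := hCds.ex N S'
    have hiso := isom_trans S' e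
    have hbS'' : Cds (trans S' e) b := hCds.congr N M S' (trans S' e) b hiso hbS
    have hS'' : IsModel (trans S' e) T := by
      rw [hmod]
      have h1 := (hmod N S').1 hS'
      exact (model_iff hHH hCds hsent hb hbS'').2 ((model_iff hHH hCds hsent hb hbS).1 h1)
    exact Isom.trans' (hMain τ T hT hR hfin hcard M S (trans S' e) hS hS'') (Isom.symm' hiso)

end Pool.Agent.W886.VL
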