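import Pool.Agent.W886.VL.Objs

/-!
# Definability: closure lemmas
-/

namespace Pool.Agent.W886.VL

open SOCat (Fml cons lift ren cons_lift)
open ZFSet (pair omega)

/-- a class of transitive structures -/
class TC (C : ZFSet.{0} → Prop) : Prop where
  tr : ∀ A, C A → A.IsTransitive

instance : TC Trs := ⟨fun _ h => h⟩
instance : TC Base := ⟨fun _ h => h.tr⟩
instance : TC Good := ⟨fun _ h => h.tr⟩

/-- a class of structures satisfying `Base` -/
class BC (C : ZFSet.{0} → Prop) : Prop where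
  base : ∀ A, C A → Base A

instance : BC Base := ⟨fun _ h => h⟩
instance : BC Good := ⟨fun _ h => h.toBase⟩
instance (C : ZFSet.{0} → Prop) [BC C] : TC C := ⟨fun A h => (BC.base A h).tr⟩

theorem sat_ren (A : ZFSet.{0}) (φ : Fml) : ∀ (g : ℕ → ℕ) (v : ℕ → ZFSet.{0}),
    Sat A (ren g φ) v ↔ Sat A φ (fun n => v (g n)) := by
  induction φ with
  | mem i j => intro g v; rfl
  | eq i j => intro g v; rfl
  | neg φ ih => intro g v; simp only [ren, Sat, ih]
  | and φ ψ ih1 ih2 => intro g v; simp only [ren, Sat, ih1, ih2]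
  | all φ ih =>
    intro g v
    simp only [ren, Sat, ih, cons_lift]

theorem cons_mem {A a : ZFSet.{0}} {v : ℕ → ZFSet.{0}} (ha : a ∈ A) (hv : ∀ n, v n ∈ A) :
    ∀ n, cons a v n ∈ A := by
  intro n
  cases n
  · exact ha
  · exact hv _

namespace Dfn

variable {C : ZFSet.{0} → Prop} {P Q : ZFSet.{0} → (ℕ → ZFSet.{0}) → Prop}

theorem congr (h : Dfn C P) (hPQ : ∀ A, C A → ∀ v : ℕ → ZFSet.{0}, (∀ n, v n ∈ A) →
    (P A v ↔ Q A v)) : Dfn C Q := by
  obtain ⟨φ, hφ⟩ := h
  exact ⟨φ, fun A hA v hv => (hφ A hA v hv).trans (hPQ A hA v hv)⟩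

theorem mono (h : Dfn C P) {C' : ZFSet.{0} → Prop} (hC : ∀ A, C' A → C A) : Dfn C' P := by
  obtain ⟨φ, hφ⟩ := h
  exact ⟨φ, fun A hA v hv => hφ A (hC A hA) v hv⟩

theorem mem (i j : ℕ) : Dfn C fun _ v => v i ∈ v j := ⟨.mem i j, fun _ _ _ _ => Iff.rfl⟩

theorem eq (i j : ℕ) : Dfn C fun _ v => v i = v j := ⟨.eq i j, fun _ _ _ _ => Iff.rfl⟩

theorem not (h : Dfn C P) : Dfn C fun A v => ¬ P A v := by
  obtain ⟨φ, hφ⟩ := h
  exact ⟨.neg φ, fun A hA v hv => by simp only [Sat, hφ A hA v hv]⟩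

theorem and (h : Dfn C P) (h' : Dfn C Q) : Dfn C fun A v => P A v ∧ Q A v := by
  obtain ⟨φ, hφ⟩ := h
  obtain ⟨ψ, hψ⟩ := h'
  exact ⟨.and φ ψ, fun A hA v hv => by simp only [Sat, hφ A hA v hv, hψ A hA v hv]⟩

theorem or (h : Dfn C P) (h' : Dfn C Q) : Dfn C fun A v => P A v ∨ Q A v :=
  ((h.not.and h'.not).not).congr fun A _ v _ => by tauto

theorem imp (h : Dfn C P) (h' : Dfn C Q) : Dfn C fun A v => P A v → Q A v :=
  ((h.and h'.not).not).congr fun A _ v _ => by tauto

theorem iff (h : Dfn C P) (h' : Dfn C Q) : Dfn C fun A v => (P A v ↔ Q A v) :=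
  ((h.imp h').and (h'.imp h)).congr fun A _ v _ => by tauto

theorem all (h : Dfn C P) : Dfn C fun A v => ∀ a ∈ A, P A (cons a v) := by
  obtain ⟨φ, hφ⟩ := h
  refine ⟨.all φ, fun A hA v hv => ?_⟩
  constructor
  · intro h a ha
    exact (hφ A hA _ (cons_mem ha hv)).1 (h a ha)
  · intro h a ha
    exact (hφ A hA _ (cons_mem ha hv)).2 (h a ha)

theorem ex (h : Dfn C P) : Dfn C fun A v => ∃ a ∈ A, P A (cons a v) :=
  (h.not.all.not).congr fun A _ v _ => by push Not; rfl

theorem ren (g : ℕ → ℕ) (h : Dfn C P) : Dfn C fun A v => P A (fun n => v (g n)) := by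
  obtain ⟨φ, hφ⟩ := h
  exact ⟨SOCat.ren g φ, fun A hA v hv => by rw [sat_ren, hφ A hA _ (fun n => hv _)]⟩

theorem tru : Dfn C fun _ _ => True := (eq 0 0).congr fun _ _ _ _ => by simp
theorem fls : Dfn C fun _ _ => False := (eq 0 0).not.congr fun _ _ _ _ => by simp

theorem const (p : Prop) : Dfn C fun _ _ => p := by
  by_cases hp : p
  · exact tru.congr fun _ _ _ _ => by simp [hp]
  · exact fls.congr fun _ _ _ _ => by simp [hp]

/-- conjunction of a finite family -/
theorem allFin {n : ℕ} {P : Fin n → ZFSet.{0} → (ℕ → ZFSet.{0}) → Prop}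
    (h : ∀ i, Dfn C (P i)) : Dfn C fun A v => ∀ i, P i A v := by
  induction n with
  | zero => exact tru.congr fun _ _ _ _ => by simp
  | succ n ih =>
    exact ((h 0).and (ih fun i => h i.succ)).congr fun A _ v _ => by
      rw [Fin.forall_fin_succ]

theorem exFin {n : ℕ} {P : Fin n → ZFSet.{0} → (ℕ → ZFSet.{0}) → Prop}
    (h : ∀ i, Dfn C (P i)) : Dfn C fun A v => ∃ i, P i A v :=
  (allFin fun i => (h i).not).not.congr fun A _ v _ => by push Not; rfl

section tc

variable [TC C]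

theorem allB (i : ℕ) (h : Dfn C P) : Dfn C fun A v => ∀ a ∈ v i, P A (cons a v) :=
  (((mem 0 (i+1)).imp h).all).congr fun A hA v hv =>
    ⟨fun H a ha => H a (TC.tr A hA _ (hv i) ha) ha, fun H a _ ha => H a ha⟩

theorem exB (i : ℕ) (h : Dfn C P) : Dfn C fun A v => ∃ a ∈ v i, P A (cons a v) :=
  ((h.not.allB i).not).congr fun A _ v _ => by push Not; rfl

end tc

end Dfn

section basic

variable {C : ZFSet.{0} → Prop} [TC C]

theorem d_emp (i : ℕ) : Dfn C fun _ v => v i = ∅ :=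
  ((Dfn.fls).allB i).congr fun A hA v hv => by
    rw [ZFSet.eq_empty]

theorem d_sub (i j : ℕ) : Dfn C fun _ v => v i ⊆ v j :=
  ((Dfn.mem 0 (j+1)).allB i).congr fun A hA v hv => by
    rw [ZFSet.subset_def]; rfl

/-- `v i = {v j, v k}` -/
theorem d_up (i j k : ℕ) : Dfn C fun _ v => v i = {v j, v k} :=
  ((Dfn.mem j i).and ((Dfn.mem k i).and
    (((Dfn.eq 0 (j+1)).or (Dfn.eq 0 (k+1))).allB i))).congr fun A hA v hv => by
    constructor
    · rintro ⟨h1, h2, h3⟩
      ext z
      rw [ZFSet.mem_pair]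
      exact ⟨fun h => h3 z h, fun h => by rcases h with h | h <;> rw [h] <;> assumption⟩
    · intro h
      have hm : ∀ z, z ∈ v i ↔ z = v j ∨ z = v k := fun z => by rw [h, ZFSet.mem_pair]
      exact ⟨(hm _).2 (Or.inl rfl), (hm _).2 (Or.inr rfl), fun z hz => (hm z).1 hz⟩

theorem d_sing (i j : ℕ) : Dfn C fun _ v => v i = {v j} :=
  (d_up i j j).congr fun A hA v hv => by rw [ZFSet.pair_eq_singleton]

/-- `v i = (v j, v k)` -/
theorem d_pair (i j k : ℕ) : Dfn C fun _ v => v i = pair (v j) (v k) :=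
  ((((d_sing 1 (j+2)).and ((d_up 0 (j+2) (k+2)).and (d_up (i+2) 1 0))).exB (i+1)).exB i).congr
    fun A hA v hv => by
    show (∃ a ∈ v i, ∃ b ∈ v i, a = {v j} ∧ b = {v j, v k} ∧ v i = {a, b}) ↔ _
    constructor
    · rintro ⟨a, ha, b, hb, h1, h2, h3⟩
      rw [h3, h1, h2]; rfl
    · intro h
      refine ⟨{v j}, ?_, {v j, v k}, ?_, rfl, rfl, h⟩
      · rw [h]; exact ZFSet.mem_pair.2 (Or.inl rfl)
      · rw [h]; exact ZFSet.mem_pair.2 (Or.inr rfl)

/-- `(v i, v j) ∈ v k` -/
theorem d_app (i j k : ℕ) : Dfn C fun _ v => pair (v i) (v j) ∈ v k :=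
  ((d_pair 0 (i+1) (j+1)).exB k).congr fun A hA v hv => by
    show (∃ a ∈ v k, a = pair (v i) (v j)) ↔ _
    simp

/-- `v i = insert (v j) (v k)` -/
theorem d_insert (i j k : ℕ) : Dfn C fun _ v => v i = insert (v j) (v k) :=
  ((Dfn.mem j i).and ((d_sub k i).and
    (((Dfn.eq 0 (j+1)).or (Dfn.mem 0 (k+1))).allB i))).congr fun A hA v hv => by
    constructor
    · rintro ⟨h1, h2, h3⟩
      ext z
      rw [ZFSet.mem_insert_iff]
      exact ⟨fun h => h3 z h, fun h => by
        rcases h with h | h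
        · rw [h]; assumption
        · exact h2 h⟩
    · intro h
      have hm : ∀ z, z ∈ v i ↔ z = v j ∨ z ∈ v k := fun z => by rw [h, ZFSet.mem_insert_iff]
      exact ⟨(hm _).2 (Or.inl rfl), fun z hz => (hm _).2 (Or.inr hz), fun z hz => (hm z).1 hz⟩

theorem d_trans (i : ℕ) : Dfn C fun _ v => (v i).IsTransitive :=
  ((d_sub 0 (i+1)).allB i).congr fun A hA v hv => Iff.rfl

/-- `v i = num n` -/
theorem d_num : ∀ (n : ℕ) (i : ℕ), Dfn C fun _ v => v i = num n
  | 0, i => d_emp i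
  | n + 1, i => (((d_num n 0).and (d_insert (i+1) 0 0)).exB i).congr fun A hA v hv => by
    show (∃ a ∈ v i, a = num n ∧ v i = insert a a) ↔ v i = insert (num n) (num n)
    constructor
    · rintro ⟨a, ha, h1, h2⟩
      rw [h2, h1]
    · intro h
      exact ⟨num n, by rw [h]; exact ZFSet.mem_insert _ _, rfl, h⟩

end basic

/-! ### numerals and `ω` -/

theorem mem_omega {x : ZFSet.{0}} : x ∈ omega ↔ ∃ n, x = num n := by
  have key : ∀ n : ℕ, ZFSet.mk (PSet.ofNat n) = num n := by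
    intro n
    induction n with
    | zero => rfl
    | succ n ih => 
      show ZFSet.mk (insert (PSet.ofNat n) (PSet.ofNat n)) = insert (num n) (num n)
      rw [← ih]; rfl
  constructor
  · intro h
    induction x using Quotient.inductionOn with
    | _ x =>
    obtain ⟨⟨n⟩, hn⟩ := h
    exact ⟨n, (ZFSet.sound hn).trans (key n)⟩
  · rintro ⟨n, rfl⟩
    induction n with
    | zero => exact ZFSet.omega_zero
    | succ n ih => exact ZFSet.omega_succ ih

theorem num_mem_omega (n : ℕ) : num n ∈ omega.{0} := mem_omega.2 ⟨n, rfl⟩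

theorem mem_num {n : ℕ} {x : ZFSet.{0}} : x ∈ num n ↔ ∃ m < n, x = num m := by
  induction n with
  | zero => 
    show x ∈ (∅ : ZFSet) ↔ _
    simp
  | succ n ih =>
    show x ∈ (insert (num n) (num n) : ZFSet) ↔ _
    rw [ZFSet.mem_insert_iff, ih]
    constructor
    · rintro (h | ⟨m, hm, h⟩)
      · exact ⟨n, Nat.lt_succ_self n, h⟩
      · exact ⟨m, hm.trans (Nat.lt_succ_self n), h⟩
    · rintro ⟨m, hm, h⟩
      rcases Nat.lt_succ_iff_lt_or_eq.1 hm with h' | h'
      · exact Or.inr ⟨m, h', h⟩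
      · exact Or.inl (h' ▸ h)

theorem num_mem_num {m n : ℕ} : num m ∈ num n ↔ m < n := by
  constructor
  · intro h
    by_contra hc
    obtain ⟨k, hk, he⟩ := mem_num.1 h
    have : num k ∈ num m := mem_num.2 ⟨k, by omega, rfl⟩
    rw [he] at this
    exact ZFSet.mem_irrefl _ this
  · intro h
    exact mem_num.2 ⟨m, h, rfl⟩

theorem num_inj {m n : ℕ} : num m = num n ↔ m = n := by
  constructor
  · intro h
    rcases lt_trichotomy m n with h' | h' | h'
    · exact absurd (h ▸ num_mem_num.2 h') (ZFSet.mem_irrefl _)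
    · exact h'
    · exact absurd (h ▸ num_mem_num.2 h') (ZFSet.mem_irrefl _)
  · rintro rfl; rfl

theorem pair_mem_fnZ {s : ℕ → ZFSet.{0}} {n : ℕ} {x : ZFSet.{0}} :
    pair (num n) x ∈ fnZ s ↔ x = s n := by
  unfold fnZ
  rw [ZFSet.mem_range]
  constructor
  · rintro ⟨m, hm⟩
    rw [ZFSet.pair_inj, num_inj] at hm
    rw [← hm.1, hm.2]
  · rintro rfl
    exact ⟨n, rfl⟩

theorem mem_fnZ {s : ℕ → ZFSet.{0}} {p : ZFSet.{0}} :
    p ∈ fnZ s ↔ ∃ n, p = pair (num n) (s n) := by
  unfold fnZ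
  rw [ZFSet.mem_range]
  exact exists_congr fun n => eq_comm

@[simp] theorem val_fnZ (s : ℕ → ZFSet.{0}) (n : ℕ) : val (fnZ s) n = s n := by
  unfold val
  have h : ∃ x, pair (num n) x ∈ fnZ s := ⟨s n, pair_mem_fnZ.2 rfl⟩
  rw [dif_pos h]
  exact pair_mem_fnZ.1 h.choose_spec

theorem fnZ_inj {s s' : ℕ → ZFSet.{0}} : fnZ s = fnZ s' ↔ s = s' := by
  constructor
  · intro h
    funext n
    rw [← val_fnZ s, h, val_fnZ]
  · rintro rfl; rfl

theorem mem_tupZ {l : List ZFSet.{0}} {p : ZFSet.{0}} :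
    p ∈ tupZ l ↔ ∃ k : Fin l.length, p = pair (num k.1) (l.get k) := by
  unfold tupZ
  rw [ZFSet.mem_range]
  exact exists_congr fun n => eq_comm

theorem pair_mem_tupZ {l : List ZFSet.{0}} {n : ℕ} {x : ZFSet.{0}} :
    pair (num n) x ∈ tupZ l ↔ l[n]? = some x := by
  rw [mem_tupZ]
  constructor
  · rintro ⟨k, hk⟩
    rw [ZFSet.pair_inj, num_inj] at hk
    rw [hk.1, hk.2]
    simp
  · intro h
    obtain ⟨hn, hx⟩ := List.getElem?_eq_some_iff.1 h
    exact ⟨⟨n, hn⟩, by simp [hx]⟩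

theorem tupZ_inj {l l' : List ZFSet.{0}} : tupZ l = tupZ l' ↔ l = l' := by
  constructor
  · intro h
    apply List.ext_getElem?
    intro n
    ext x
    rw [← pair_mem_tupZ, h, pair_mem_tupZ]
  · rintro rfl; rfl

section om

variable {C : ZFSet.{0} → Prop} [TC C]

/-- `v i = ω` -/
theorem d_eqom (i : ℕ) : Dfn C fun _ v => v i = omega := by
  refine (((d_emp 0).exB i).and ((((d_insert 0 1 1).exB (i+1)).allB i).and
    (((d_emp 0).or ((d_insert 1 0 0).exB (i+1))).allB i))).congr ?_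
  intro A hA v hv
  show ((∃ a ∈ v i, a = ∅) ∧ (∀ a ∈ v i, ∃ b ∈ v i, b = insert a a) ∧
    (∀ a ∈ v i, a = ∅ ∨ ∃ b ∈ v i, a = insert b b)) ↔ _
  constructor
  · rintro ⟨⟨e, he, rfl⟩, h2, h3⟩
    ext x
    constructor
    · induction x using ZFSet.inductionOn with
      | _ x ih =>
      intro hx
      rcases h3 x hx with h | ⟨b, hb, h⟩
      · rw [h]; exact ZFSet.omega_zero
      · have := ih b (by rw [h]; exact ZFSet.mem_insert _ _) hb
        rw [h]; exact ZFSet.omega_succ this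
    · intro hx
      obtain ⟨n, rfl⟩ := mem_omega.1 hx
      clear hx
      induction n with
      | zero => exact he
      | succ n ih =>
        obtain ⟨b, hb, h⟩ := h2 _ ih
        show insert (num n) (num n) ∈ v i
        rw [← h]; exact hb
  · intro h
    rw [h]
    refine ⟨⟨∅, ZFSet.omega_zero, rfl⟩, fun a ha => ⟨_, ZFSet.omega_succ ha, rfl⟩, ?_⟩
    intro a ha
    obtain ⟨n, rfl⟩ := mem_omega.1 ha
    cases n with
    | zero => exact Or.inl rfl
    | succ n => exact Or.inr ⟨num n, num_mem_omega n, rfl⟩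

end om

section base

variable {C : ZFSet.{0} → Prop} [BC C]

/-- `v i ∈ ω` -/
theorem d_om (i : ℕ) : Dfn C fun _ v => v i ∈ omega :=
  (((d_eqom 0).and (Dfn.mem (i+1) 0)).ex).congr fun A hA v hv => by
    show (∃ a ∈ A, a = omega ∧ v i ∈ a) ↔ _
    constructor
    · rintro ⟨a, _, rfl, h⟩; exact h
    · intro h; exact ⟨omega, (BC.base A hA).om, rfl, h⟩

theorem Dfn.allOm {P : ZFSet.{0} → (ℕ → ZFSet.{0}) → Prop} (h : Dfn C P) :
    Dfn C fun A v => ∀ n : ℕ, P A (cons (num n) v) :=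
  (((d_om 0).imp h).all).congr fun A hA v hv => by
    show (∀ a ∈ A, a ∈ omega → P A (cons a v)) ↔ _
    have hB := BC.base A hA
    constructor
    · intro H n; exact H _ (hB.tr _ hB.om (num_mem_omega n)) (num_mem_omega n)
    · intro H a _ ha
      obtain ⟨n, rfl⟩ := mem_omega.1 ha
      exact H n

theorem Dfn.exOm {P : ZFSet.{0} → (ℕ → ZFSet.{0}) → Prop} (h : Dfn C P) :
    Dfn C fun A v => ∃ n : ℕ, P A (cons (num n) v) :=
  (h.not.allOm.not).congr fun A _ v _ => by push Not; rfl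

end base

/-! ### quantifiers over lists -/

theorem pre_mem {A : ZFSet.{0}} {l : List ZFSet.{0}} {v : ℕ → ZFSet.{0}} (hl : ∀ x ∈ l, x ∈ A)
    (hv : ∀ n, v n ∈ A) : ∀ n, pre l v n ∈ A := by
  induction l with
  | nil => exact hv
  | cons a l ih =>
    intro n
    exact cons_mem (hl a (by simp)) (ih fun x hx => hl x (by simp [hx])) n

theorem pre_append (l l' : List ZFSet.{0}) (v : ℕ → ZFSet.{0}) :
    pre (l ++ l') v = pre l (pre l' v) := by
  unfold pre
  rw [List.foldr_append]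

theorem asg_eq_pre (l : List ZFSet.{0}) : asg l = pre l (fun _ => ∅) := by
  induction l with
  | nil => funext n; simp [asg, pre]
  | cons a l ih =>
    funext n
    show asg (a :: l) n = cons a (pre l _) n
    rw [← ih]
    cases n with
    | zero => simp [asg, cons]
    | succ n => simp [asg, cons]

/-- quantification over the lists of length `m`; the list is put in front, its first element
becoming the variable `0` -/
theorem Dfn.allL {C : ZFSet.{0} → Prop} (m : ℕ) : ∀ {P : ZFSet.{0} → (ℕ → ZFSet.{0}) → Prop},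
    Dfn C P → Dfn C fun A v => ∀ l : List ZFSet.{0}, l.length = m → (∀ x ∈ l, x ∈ A) →
      P A (pre l v) := by
  induction m with
  | zero =>
    intro P h
    refine h.congr fun A hA v hv => ?_
    constructor
    · intro H l hl _
      rw [List.length_eq_zero_iff] at hl
      subst hl; exact H
    · intro H; exact H [] rfl (by simp)
  | succ m ih =>
    intro P h
    refine (ih h.all).congr fun A hA v hv => ?_
    constructor
    · intro H l hl hm
      cases l with
      | nil => simp at hl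
      | cons a l =>
        exact H l (by simpa using hl) (fun x hx => hm x (by simp [hx])) a (hm a (by simp))
    · intro H l hl hm a ha
      exact H (a :: l) (by simp [hl]) (fun x hx => by
        rcases List.mem_cons.1 hx with h | h
        · rw [h]; exact ha
        · exact hm x h)

theorem Dfn.exL {C : ZFSet.{0} → Prop} (m : ℕ) {P : ZFSet.{0} → (ℕ → ZFSet.{0}) → Prop}
    (h : Dfn C P) : Dfn C fun A v => ∃ l : List ZFSet.{0}, l.length = m ∧ (∀ x ∈ l, x ∈ A) ∧
      P A (pre l v) :=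
  ((h.not.allL m).not).congr fun A _ v _ => by
    push Not; rfl

end Pool.Agent.W886.VL
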