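import Pool.Agent.W886.VL.Key

/-!
# Definability with the predicate `K`; variables given by lists
-/

namespace Pool.Agent.W886.VL

open SOCat (Fml cons lift cons_lift)
open ZFSet (pair omega)

/-- renaming for `KF` -/
def kren : (ℕ → ℕ) → KF → KF
  | g, .mem i j => .mem (g i) (g j)
  | g, .eq i j => .eq (g i) (g j)
  | g, .K i => .K (g i)
  | g, .neg φ => .neg (kren g φ)
  | g, .and φ ψ => .and (kren g φ) (kren g ψ)
  | g, .all φ => .all (kren (lift g) φ)

theorem ksat_ren (A : ZFSet.{0}) (K : ZFSet.{0} → Prop) (φ : KF) :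
    ∀ (g : ℕ → ℕ) (v : ℕ → ZFSet.{0}), KSat A K (kren g φ) v ↔ KSat A K φ (fun n => v (g n)) := by
  induction φ with
  | mem i j => intro g v; rfl
  | eq i j => intro g v; rfl
  | K i => intro g v; rfl
  | neg φ ih => intro g v; simp only [kren, KSat, ih]
  | and φ ψ ih1 ih2 => intro g v; simp only [kren, KSat, ih1, ih2]
  | all φ ih => intro g v; simp only [kren, KSat, ih, cons_lift]

def toKF : Fml → KF
  | .mem i j => .mem i j
  | .eq i j => .eq i j
  | .neg φ => .neg (toKF φ)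
  | .and φ ψ => .and (toKF φ) (toKF ψ)
  | .all φ => .all (toKF φ)

theorem ksat_toKF (A : ZFSet.{0}) (K : ZFSet.{0} → Prop) (φ : Fml) :
    ∀ (v : ℕ → ZFSet.{0}), KSat A K (toKF φ) v ↔ Sat A φ v := by
  induction φ with
  | mem i j => intro v; rfl
  | eq i j => intro v; rfl
  | neg φ ih => intro v; simp only [toKF, KSat, Sat, ih]
  | and φ ψ ih1 ih2 => intro v; simp only [toKF, KSat, Sat, ih1, ih2]
  | all φ ih => intro v; simp only [toKF, KSat, Sat, ih]

namespace DfnK

variable {C : ZFSet.{0} → Prop} {P Q : ZFSet.{0} → (ZFSet.{0} → Prop) → (ℕ → ZFSet.{0}) → Prop}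

theorem congr (h : DfnK C P) (hPQ : ∀ A, C A → ∀ K, ∀ v : ℕ → ZFSet.{0}, (∀ n, v n ∈ A) →
    (P A K v ↔ Q A K v)) : DfnK C Q := by
  obtain ⟨φ, hφ⟩ := h
  exact ⟨φ, fun A hA K v hv => (hφ A hA K v hv).trans (hPQ A hA K v hv)⟩

theorem of_dfn {R : ZFSet.{0} → (ℕ → ZFSet.{0}) → Prop} (h : Dfn C R) :
    DfnK C (fun A _ v => R A v) := by
  obtain ⟨φ, hφ⟩ := h
  exact ⟨toKF φ, fun A hA K v hv => by rw [ksat_toKF, hφ A hA v hv]⟩

theorem K (i : ℕ) : DfnK C fun _ K v => K (v i) := ⟨.K i, fun _ _ _ _ _ => Iff.rfl⟩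

theorem not (h : DfnK C P) : DfnK C fun A K v => ¬ P A K v := by
  obtain ⟨φ, hφ⟩ := h
  exact ⟨.neg φ, fun A hA K v hv => by simp only [KSat, hφ A hA K v hv]⟩

theorem and (h : DfnK C P) (h' : DfnK C Q) : DfnK C fun A K v => P A K v ∧ Q A K v := by
  obtain ⟨φ, hφ⟩ := h
  obtain ⟨ψ, hψ⟩ := h'
  exact ⟨.and φ ψ, fun A hA K v hv => by simp only [KSat, hφ A hA K v hv, hψ A hA K v hv]⟩

theorem imp (h : DfnK C P) (h' : DfnK C Q) : DfnK C fun A K v => P A K v → Q A K v :=
  ((h.and h'.not).not).congr fun A _ K v _ => by tauto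

theorem all (h : DfnK C P) : DfnK C fun A K v => ∀ a ∈ A, P A K (cons a v) := by
  obtain ⟨φ, hφ⟩ := h
  refine ⟨.all φ, fun A hA K v hv => ?_⟩
  constructor
  · intro h a ha
    exact (hφ A hA K _ (cons_mem ha hv)).1 (h a ha)
  · intro h a ha
    exact (hφ A hA K _ (cons_mem ha hv)).2 (h a ha)

theorem ex (h : DfnK C P) : DfnK C fun A K v => ∃ a ∈ A, P A K (cons a v) :=
  (h.not.all.not).congr fun A _ K v _ => by push Not; rfl

theorem ren (g : ℕ → ℕ) (h : DfnK C P) : DfnK C fun A K v => P A K (fun n => v (g n)) := by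
  obtain ⟨φ, hφ⟩ := h
  exact ⟨kren g φ, fun A hA K v hv => by rw [ksat_ren, hφ A hA K _ (fun n => hv _)]⟩

theorem allL (m : ℕ) : ∀ {P : ZFSet.{0} → (ZFSet.{0} → Prop) → (ℕ → ZFSet.{0}) → Prop},
    DfnK C P → DfnK C fun A K v => ∀ l : List ZFSet.{0}, l.length = m → (∀ x ∈ l, x ∈ A) →
      P A K (pre l v) := by
  induction m with
  | zero =>
    intro P h
    refine h.congr fun A hA K v hv => ?_
    constructor
    · intro H l hl _
      rw [List.length_eq_zero_iff] at hl
      subst hl; exact H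
    · intro H; exact H [] rfl (by simp)
  | succ m ih =>
    intro P h
    refine (ih h.all).congr fun A hA K v hv => ?_
    constructor
    · intro H l hl hm
      cases l with
      | nil => simp at hl
      | cons a l =>
        exact H l (by simpa using hl) (fun x hx => hm x (by simp [hx])) a (hm a (by simp))
    · intro H l hl hm a ha
      exact H (a :: l) (by simp [hl]) (fun x hx => by
        rcases List.mem_cons.1 hx with h | h
        · rw [h]; exact ha
        · exact hm x h)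

end DfnK

/-! ### lists of variables -/

/-- `f` is given by a list of variables -/
def VL (f : (ℕ → ZFSet.{0}) → List ZFSet.{0}) : Prop := ∃ is : List ℕ, ∀ v, f v = is.map v

/-- `g` is given by a variable -/
def VV (g : (ℕ → ZFSet.{0}) → ZFSet.{0}) : Prop := ∃ i : ℕ, ∀ v, g v = v i

theorem VL.range (m : ℕ) : VL (fun w => (List.range m).map w) := ⟨_, fun _ => rfl⟩

theorem VL.shift {f : (ℕ → ZFSet.{0}) → List ZFSet.{0}} (h : VL f) (m : ℕ) :
    VL (fun w => f (fun i => w (m + i))) := by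
  obtain ⟨is, h⟩ := h
  exact ⟨is.map (fun i => m + i), fun v => (h _).trans (by rw [List.map_map]; rfl)⟩

theorem VL.append {f g : (ℕ → ZFSet.{0}) → List ZFSet.{0}} (h : VL f) (h' : VL g) :
    VL (fun w => f w ++ g w) := by
  obtain ⟨is, h⟩ := h
  obtain ⟨js, h'⟩ := h'
  exact ⟨is ++ js, fun v => by show f v ++ g v = _; rw [h, h', List.map_append]⟩

theorem VL.cons {f : (ℕ → ZFSet.{0}) → List ZFSet.{0}} {g : (ℕ → ZFSet.{0}) → ZFSet.{0}}
    (h' : VV g) (h : VL f) : VL (fun w => g w :: f w) := by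
  obtain ⟨is, h⟩ := h
  obtain ⟨j, h'⟩ := h'
  exact ⟨j :: is, fun v => by show g v :: f v = _; rw [h, h', List.map_cons]⟩

theorem VL.take {f : (ℕ → ZFSet.{0}) → List ZFSet.{0}} (h : VL f) (k : ℕ) :
    VL (fun w => (f w).take k) := by
  obtain ⟨is, h⟩ := h
  exact ⟨is.take k, fun v => by show (f v).take k = _; rw [h, List.map_take]⟩

theorem VV.var (i : ℕ) : VV (fun w => w i) := ⟨i, fun _ => rfl⟩

theorem VV.shift {f : (ℕ → ZFSet.{0}) → ZFSet.{0}} (h : VV f) (m : ℕ) :
    VV (fun w => f (fun i => w (m + i))) := by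
  obtain ⟨i, h⟩ := h
  exact ⟨m + i, fun v => h _⟩

theorem pre_range (l : List ZFSet.{0}) (v : ℕ → ZFSet.{0}) :
    (List.range l.length).map (pre l v) = l := by
  apply List.ext_getElem (by simp)
  intro i h1 h2
  simp [pre_lt h2]

theorem pre_shift (l : List ZFSet.{0}) (v : ℕ → ZFSet.{0}) :
    (fun i => pre l v (l.length + i)) = v := by
  funext i; exact pre_ge i

section lists

variable {C : ZFSet.{0} → Prop}

theorem Dfn.exLs (m : ℕ) {P : ZFSet.{0} → List ZFSet.{0} → (ℕ → ZFSet.{0}) → Prop}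
    (h : Dfn C (fun A w => P A ((List.range m).map w) (fun i => w (m + i)))) :
    Dfn C fun A v => ∃ l : List ZFSet.{0}, l.length = m ∧ (∀ x ∈ l, x ∈ A) ∧ P A l v :=
  (h.exL m).congr fun A _ v _ => by
    apply exists_congr; intro l
    apply and_congr_right; intro hl
    apply and_congr_right; intro _
    subst hl
    rw [pre_range, pre_shift]

theorem Dfn.allLs (m : ℕ) {P : ZFSet.{0} → List ZFSet.{0} → (ℕ → ZFSet.{0}) → Prop}
    (h : Dfn C (fun A w => P A ((List.range m).map w) (fun i => w (m + i)))) :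
    Dfn C fun A v => ∀ l : List ZFSet.{0}, l.length = m → (∀ x ∈ l, x ∈ A) → P A l v :=
  (h.allL m).congr fun A _ v _ => by
    apply forall_congr'; intro l
    apply imp_congr_right; intro hl
    apply imp_congr_right; intro _
    subst hl
    rw [pre_range, pre_shift]

theorem DfnK.allLs (m : ℕ)
    {P : ZFSet.{0} → (ZFSet.{0} → Prop) → List ZFSet.{0} → (ℕ → ZFSet.{0}) → Prop}
    (h : DfnK C (fun A K w => P A K ((List.range m).map w) (fun i => w (m + i)))) :
    DfnK C fun A K v => ∀ l : List ZFSet.{0}, l.length = m → (∀ x ∈ l, x ∈ A) → P A K l v :=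
  (h.allL m).congr fun A _ K v _ => by
    apply forall_congr'; intro l
    apply imp_congr_right; intro hl
    apply imp_congr_right; intro _
    subst hl
    rw [pre_range, pre_shift]

theorem DfnK.exLs (m : ℕ)
    {P : ZFSet.{0} → (ZFSet.{0} → Prop) → List ZFSet.{0} → (ℕ → ZFSet.{0}) → Prop}
    (h : DfnK C (fun A K w => P A K ((List.range m).map w) (fun i => w (m + i)))) :
    DfnK C fun A K v => ∃ l : List ZFSet.{0}, l.length = m ∧ (∀ x ∈ l, x ∈ A) ∧ P A K l v :=
  ((DfnK.allLs m (P := fun A K l v => ¬ P A K l v) h.not).not).congr fun A _ K v _ => by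
    push Not; rfl

end lists

section vl

variable {C : ZFSet.{0} → Prop} [BC C]

/-- the assignment given by a list of variables -/
theorem Dfn.asgL {P : ZFSet.{0} → (ℕ → ZFSet.{0}) → Prop} (h : Dfn C P)
    {f : (ℕ → ZFSet.{0}) → List ZFSet.{0}} (hf : VL f) : Dfn C (fun A v => P A (asg (f v))) := by
  obtain ⟨is, hf⟩ := hf
  refine (((d_emp 0).and (h.ren (fun n => if hn : n < is.length then is[n] + 1 else 0))).ex).congr
    fun A hA v hv => ?_
  have key : (fun n => cons ∅ v (if hn : n < is.length then is[n] + 1 else 0)) = asg (f v) := by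
    rw [hf]
    funext n
    unfold asg
    rw [List.getD_eq_getElem?_getD]
    split_ifs with hn
    · rw [List.getElem?_eq_getElem (by simpa using hn)]
      simp [cons]
    · rw [List.getElem?_eq_none (by simpa using hn)]
      rfl
  show (∃ a ∈ A, a = ∅ ∧ P A (fun n => cons a v _)) ↔ _
  constructor
  · rintro ⟨a, ha, rfl, h⟩
    rw [key] at h; exact h
  · intro h
    exact ⟨∅, (BC.base A hA).empty, rfl, by rw [key]; exact h⟩

theorem d_satl (φ : Fml) {f : (ℕ → ZFSet.{0}) → List ZFSet.{0}} (hf : VL f) :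
    Dfn C (fun A v => Sat A φ (asg (f v))) :=
  Dfn.asgL (P := fun A v => Sat A φ v) ⟨φ, fun _ _ _ _ => Iff.rfl⟩ hf

theorem d_satXl (hR : T_REL) (φ : Fml) {g : (ℕ → ZFSet.{0}) → ZFSet.{0}} (hg : VV g)
    {f : (ℕ → ZFSet.{0}) → List ZFSet.{0}} (hf : VL f) :
    Dfn C (fun _ v => Sat (g v) φ (asg (f v))) := by
  have h : Dfn C (fun _ v => Sat (v 0) φ (fun n => v (n + 1))) :=
    (hR φ).mono (fun A hA => (BC.base A hA).tr)
  refine (Dfn.asgL h (hf.cons hg)).congr fun A hA v hv => ?_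
  show Sat (asg (g v :: f v) 0) φ (fun n => asg (g v :: f v) (n+1)) ↔ _
  rw [asg_cons]
  rfl

theorem VL.cons' {f : (ℕ → ZFSet.{0}) → List ZFSet.{0}} (h : VL f) :
    VL (fun w => w 0 :: f (fun n => w (n + 1))) := by
  obtain ⟨is, h⟩ := h
  exact ⟨0 :: is.map (· + 1), fun v => by
    show v 0 :: f (fun n => v (n + 1)) = _
    rw [h, List.map_cons, List.map_map]; rfl⟩

theorem VV.succ {g : (ℕ → ZFSet.{0}) → ZFSet.{0}} (h : VV g) :
    VV (fun w => g (fun n => w (n + 1))) := by
  obtain ⟨i, h⟩ := h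
  exact ⟨i + 1, fun v => h _⟩

theorem VL.succ {f : (ℕ → ZFSet.{0}) → List ZFSet.{0}} (h : VL f) :
    VL (fun w => f (fun n => w (n + 1))) := by
  obtain ⟨is, h⟩ := h
  exact ⟨is.map (· + 1), fun v => (h _).trans (by rw [List.map_map]; rfl)⟩

theorem d_eqv {C : ZFSet.{0} → Prop} {g h : (ℕ → ZFSet.{0}) → ZFSet.{0}} (hg : VV g)
    (hh : VV h) : Dfn C (fun _ v => g v = h v) := by
  obtain ⟨i, hg⟩ := hg
  obtain ⟨j, hh⟩ := hh
  exact (Dfn.eq i j).congr fun A hA v hv => by rw [hg, hh]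

theorem d_memv {C : ZFSet.{0} → Prop} {g h : (ℕ → ZFSet.{0}) → ZFSet.{0}} (hg : VV g)
    (hh : VV h) : Dfn C (fun _ v => g v ∈ h v) := by
  obtain ⟨i, hg⟩ := hg
  obtain ⟨j, hh⟩ := hh
  exact (Dfn.mem i j).congr fun A hA v hv => by rw [hg, hh]

theorem d_uniq (φ : Fml) {f : (ℕ → ZFSet.{0}) → List ZFSet.{0}} (hf : VL f)
    {g : (ℕ → ZFSet.{0}) → ZFSet.{0}} (hg : VV g) :
    Dfn C (fun A v => UniqDef A φ (f v) (g v)) := by
  have h1 : Dfn C (fun A v => Sat A φ (asg (g v :: f v))) := d_satl φ (hf.cons hg)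
  have h2 : Dfn C (fun A v => ∀ c ∈ A, Sat A φ (asg (c :: f v)) → c = g v) :=
    ((d_satl φ hf.cons').imp (d_eqv (VV.var 0) hg.succ)).all
  refine (h1.and h2).congr fun A hA v hv => ?_
  obtain ⟨i, hi⟩ := hg
  constructor
  · intro h
    exact ⟨by rw [hi]; exact hv i, h.1, h.2⟩
  · intro h
    exact ⟨h.2.1, h.2.2⟩

theorem d_uniqX (hR : T_REL) (φ : Fml) {X g : (ℕ → ZFSet.{0}) → ZFSet.{0}} (hX : VV X)
    {f : (ℕ → ZFSet.{0}) → List ZFSet.{0}} (hf : VL f) (hg : VV g) :
    Dfn C (fun _ v => UniqDef (X v) φ (f v) (g v)) := by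
  have h0 : Dfn C (fun _ v => g v ∈ X v) := d_memv hg hX
  have h1 : Dfn C (fun _ v => Sat (X v) φ (asg (g v :: f v))) := d_satXl hR φ hX (hf.cons hg)
  have h2 : Dfn C (fun A v => ∀ c ∈ A, c ∈ X v → Sat (X v) φ (asg (c :: f v)) → c = g v) :=
    ((d_memv (VV.var 0) hX.succ).imp ((d_satXl hR φ hX.succ hf.cons').imp
      (d_eqv (VV.var 0) hg.succ))).all
  refine (h0.and (h1.and h2)).congr fun A hA v hv => ?_
  obtain ⟨i, hi⟩ := hX
  constructor
  · rintro ⟨a, b, c⟩
    refine ⟨a, b, fun x hx => c x ?_ hx⟩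
    rw [hi] at hx
    exact (BC.base A hA).tr _ (hv i) hx
  · rintro ⟨a, b, c⟩
    exact ⟨a, b, fun x _ hx => c x hx⟩

theorem d_ltv (hLT : T_LT) {g h : (ℕ → ZFSet.{0}) → ZFSet.{0}} (hg : VV g)
    (hh : VV h) : Dfn Good (fun _ v => ltL (g v) (h v)) := by
  obtain ⟨i, hg⟩ := hg
  obtain ⟨j, hh⟩ := hh
  refine (hLT.ren (fun n => if n = 0 then i else j)).congr fun A hA v hv => ?_
  rw [hg, hh]; rfl

theorem d_belowl (hLT : T_LT) {f : (ℕ → ZFSet.{0}) → List ZFSet.{0}} (hf : VL f)
    {g : (ℕ → ZFSet.{0}) → ZFSet.{0}} (hg : VV g) :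
    Dfn Good (fun _ v => ∀ x ∈ f v, ltL x (g v)) := by
  obtain ⟨is, hf⟩ := hf
  have : ∀ is : List ℕ, Dfn Good (fun _ v => ∀ x ∈ is.map v, ltL x (g v)) := by
    intro is
    induction is with
    | nil => exact Dfn.tru.congr fun A hA v hv => by simp
    | cons i is ih =>
      exact ((d_ltv hLT (VV.var i) hg).and ih).congr fun A hA v hv => by simp
  exact (this is).congr fun A hA v hv => by rw [hf]

theorem d_desc (hLT : T_LT) {f : (ℕ → ZFSet.{0}) → List ZFSet.{0}} (hf : VL f) :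
    Dfn Good (fun _ v => Desc (f v)) := by
  obtain ⟨is, hf⟩ := hf
  have : ∀ is : List ℕ, Dfn Good (fun _ v => Desc (is.map v)) := by
    intro is
    induction is with
    | nil => exact Dfn.tru.congr fun A hA v hv => by simp [Desc]
    | cons i is ih =>
      exact ((d_belowl hLT ⟨is, fun _ => rfl⟩ (VV.var i)).and ih).congr fun A hA v hv => by
        unfold Desc
        rw [List.map_cons, List.pairwise_cons]
  exact (this is).congr fun A hA v hv => by rw [hf]

theorem d_lex (hLT : T_LT) {f g : (ℕ → ZFSet.{0}) → List ZFSet.{0}} (hf : VL f) (hg : VL g) :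
    Dfn Good (fun _ v => List.Lex ltL (f v) (g v)) := by
  obtain ⟨is, hf⟩ := hf
  obtain ⟨js, hg⟩ := hg
  have : ∀ is js : List ℕ, Dfn Good (fun _ v => List.Lex ltL (is.map v) (js.map v)) := by
    intro is
    induction is with
    | nil =>
      intro js
      cases js with
      | nil => exact Dfn.fls.congr fun A hA v hv => by simp
      | cons j js => exact Dfn.tru.congr fun A hA v hv => by simp
    | cons i is ih =>
      intro js
      cases js with
      | nil => exact Dfn.fls.congr fun A hA v hv => by simp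
      | cons j js =>
        exact ((d_ltv hLT (VV.var i) (VV.var j)).or ((Dfn.eq i j).and (ih js))).congr
          fun A hA v hv => by
            rw [List.map_cons, List.map_cons]
            constructor
            · rintro (h | ⟨h1, h2⟩)
              · exact List.Lex.rel h
              · rw [h1]; exact List.Lex.cons h2
            · intro h
              generalize v i = a at h ⊢
              generalize v j = b at h ⊢
              cases h with
              | cons h => exact Or.inr ⟨rfl, h⟩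
              | rel h => exact Or.inl h
  exact (this is js).congr fun A hA v hv => by rw [hf, hg]

end vl

end Pool.Agent.W886.VL
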