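import Pool.Agent.W886.VL.Stm

/-!
# The key lemma
-/

namespace Pool.Agent.W886.VL

open SOCat (Fml cons)
open ZFSet (pair omega)

theorem Base.empty {A : ZFSet.{0}} (h : Base A) : ∅ ∈ A := h.tr _ h.om ZFSet.omega_zero

theorem asg_mem {A : ZFSet.{0}} {l : List ZFSet.{0}} (h0 : ∅ ∈ A) (hl : ∀ x ∈ l, x ∈ A) :
    ∀ n, asg l n ∈ A := by
  intro n
  unfold asg
  rw [List.getD_eq_getElem?_getD]
  cases h : l[n]? with
  | none => exact h0
  | some x => exact hl x (List.mem_of_getElem? h)

theorem asg_cons (a : ZFSet.{0}) (l : List ZFSet.{0}) : asg (a :: l) = cons a (asg l) := by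
  rw [asg_eq_pre, asg_eq_pre]; rfl

theorem asg_map {f : ZFSet.{0} → ZFSet.{0}} (h : f ∅ = ∅) (l : List ZFSet.{0}) :
    asg (l.map f) = fun n => f (asg l n) := by
  funext n
  unfold asg
  rw [List.getD_eq_getElem?_getD, List.getD_eq_getElem?_getD, List.getElem?_map]
  cases l[n]? with
  | none => exact h.symm
  | some x => rfl

/-- an element defined by a definable property is in the hull -/
theorem mem_dcl_of_dfn {C : ZFSet.{0} → Prop} {P : ZFSet.{0} → (ℕ → ZFSet.{0}) → Prop}
    (hP : Dfn C P) {A : ZFSet.{0}} (hA : C A) (h0 : ∅ ∈ A) {X : ZFSet.{0} → Prop}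
    (hX : ∀ x, X x → x ∈ A) {l : List ZFSet.{0}} (hl : ∀ x ∈ l, X x) {b : ZFSet.{0}}
    (hb : b ∈ A) (h1 : P A (asg (b :: l))) (h2 : ∀ c ∈ A, P A (asg (c :: l)) → c = b) :
    b ∈ dcl A X := by
  obtain ⟨φ, hφ⟩ := hP
  have hm : ∀ c ∈ A, ∀ n, asg (c :: l) n ∈ A := fun c hc => asg_mem h0 (fun x hx => by
    rcases List.mem_cons.1 hx with h | h
    · rw [h]; exact hc
    · exact hX x (hl x h))
  unfold dcl
  rw [ZFSet.mem_sep]
  exact ⟨hb, φ, l, hl, hb, (hφ A hA _ (hm b hb)).2 h1,
    fun c hc h => h2 c hc ((hφ A hA _ (hm c hc)).1 h)⟩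

theorem empty_mem_dcl {A : ZFSet.{0}} (hA : Base A) {X : ZFSet.{0} → Prop}
    (hX : ∀ x, X x → x ∈ A) : ∅ ∈ dcl A X :=
  mem_dcl_of_dfn (C := Base) (d_emp 0) hA hA.empty hX (l := []) (by simp) hA.empty
    (by simp [asg]) (fun c _ h => by simpa [asg] using h)

theorem dcl_sub (A : ZFSet.{0}) (X : ZFSet.{0} → Prop) : dcl A X ⊆ A := ZFSet.sep_subset

/-- transfer of unique definability to the collapse -/
theorem uniqDef_col (hcol : T_COL) {A Y : ZFSet.{0}} (hA : A.IsTransitive) (hY : El Y A)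
    (h0 : ∅ ∈ Y) {φ : Fml} {l : List ZFSet.{0}} (hl : ∀ x ∈ l, x ∈ Y) {b : ZFSet.{0}}
    (hb : b ∈ Y) : UniqDef A φ l b ↔ UniqDef (colS Y) φ (l.map (col Y)) (col Y b) := by
  have hc0 : col Y ∅ = ∅ := by
    rw [ZFSet.eq_empty]
    intro z hz
    obtain ⟨w, hw, _⟩ := (hcol.mem_col _ _ _).1 hz
    exact ZFSet.notMem_empty _ hw
  have hs : ∀ c ∈ Y, (Sat (colS Y) φ (asg (col Y c :: l.map (col Y))) ↔
      Sat A φ (asg (c :: l))) := by
    intro c hc
    rw [← List.map_cons, asg_map hc0]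
    exact hcol.sat Y A hA hY φ _ (asg_mem h0 (fun x hx => by
      rcases List.mem_cons.1 hx with h | h
      · rw [h]; exact hc
      · exact hl x h))
  constructor
  · rintro ⟨_, h1, h2⟩
    refine ⟨(hcol.mem_colS _ _).2 ⟨b, hb, rfl⟩, (hs b hb).2 h1, ?_⟩
    intro c hc h
    obtain ⟨c', hc', rfl⟩ := (hcol.mem_colS _ _).1 hc
    rw [h2 c' (hY.1 hc') ((hs c' hc').1 h)]
  · rintro ⟨_, h1, h2⟩
    refine ⟨hY.1 hb, (hs b hb).1 h1, ?_⟩
    -- the formula `∀ x, φ(x) → x = b`
    let g : ℕ → ℕ := fun n => match n with | 0 => 0 | n + 1 => n + 2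
    let ψ : Fml := .all (.neg (.and (SOCat.ren g φ) (.neg (.eq 0 1))))
    have hg : ∀ c, (fun n => cons c (cons b (asg l)) (g n)) = asg (c :: l) := by
      intro c
      rw [asg_cons]
      funext n
      cases n <;> rfl
    have hψ : ∀ B : ZFSet.{0}, Sat B ψ (cons b (asg l)) ↔
        ∀ c ∈ B, Sat B φ (asg (c :: l)) → c = b := by
      intro B
      show (∀ c ∈ B, ¬ (Sat B (SOCat.ren g φ) _ ∧ ¬ _)) ↔ _
      apply forall_congr'; intro c
      apply imp_congr_right; intro _
      rw [sat_ren, hg c]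
      show ¬ (_ ∧ ¬ (c = b)) ↔ _
      tauto
    rw [← hψ, ← hY.2 ψ _ (cons_mem hb (asg_mem h0 hl)), hψ]
    intro c hc h
    have h3 : Sat A φ (asg (c :: l)) := (hY.2 φ _ (asg_mem h0 (fun x hx => by
      rcases List.mem_cons.1 hx with h | h
      · rw [h]; exact hc
      · exact hl x h))).1 h
    have h4 := h2 _ ((hcol.mem_colS _ _).2 ⟨c, hc, rfl⟩) ((hs c hc).2 h3)
    exact (hcol.inj Y A hA hY c hc b hb).1.1 h4

theorem Good.level {A : ZFSet.{0}} (hA : Good A) {γ β : Ordinal.{0}} (hβ : β < γ)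
    (h : hset γ ∈ A) : L β ∈ A := by
  have h1 : lev β ∈ A := hA.tr _ h (mem_hset.2 ⟨β, hβ, rfl⟩)
  have h2 : ({L β} : ZFSet.{0}) ∈ A := hA.tr _ h1 (by
    unfold lev ZFSet.pair; exact ZFSet.mem_pair.2 (Or.inl rfl))
  exact hA.tr _ h2 (ZFSet.mem_singleton.2 rfl)

theorem Good.init (hO : T_ORD) {A : ZFSet.{0}} (hA : Good A) {x y : ZFSet.{0}} (hy : y ∈ A)
    (h : ltL x y) : x ∈ A := by
  obtain ⟨γ, β, h1, h2, h3⟩ := hA.hist y hy
  exact hA.tr _ (hA.level h1 h2) (hO.init β x y h3 h)

theorem exists_level_list {A : ZFSet.{0}} (hA : Good A) (m : List ZFSet.{0})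
    (hm : ∀ x ∈ m, x ∈ A) : ∃ α, ∀ x ∈ m, x ∈ L α := by
  induction m with
  | nil => exact ⟨0, by simp⟩
  | cons a m ih =>
    obtain ⟨α, hα⟩ := ih (fun x hx => hm x (by simp [hx]))
    obtain ⟨γ, β, _, _, h3⟩ := hA.hist a (hm a (by simp))
    refine ⟨max α β, fun x hx => ?_⟩
    rcases List.mem_cons.1 hx with h | h
    · rw [h]; exact L_mono (le_max_right _ _) h3
    · exact L_mono (le_max_left _ _) (hα x h)

/-- positions of the elements of the list `G ++ r'` in the sequence
`r', e, X, G, G', ∅, ∅, ...` -/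
theorem key_pos1 (G G' r' : List ZFSet.{0}) (e X : ZFSet.{0}) (hk : G'.length = G.length) :
    asg (G ++ r') = fun n => pre r' (asg (e :: X :: (G ++ G')))
      (if n < G.length then r'.length + 2 + n else if n < G.length + r'.length then n - G.length
        else r'.length + 2 + 2 * G.length) := by
  have hpre : ∀ n, pre r' (asg (e :: X :: (G ++ G'))) n = asg (r' ++ e :: X :: (G ++ G')) n := by
    intro n
    rw [asg_eq_pre, asg_eq_pre, pre_append]
  funext n
  rw [hpre]
  unfold asg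
  simp only [List.getD_eq_getElem?_getD]
  split_ifs with h1 h2
  · rw [List.getElem?_append_left h1, List.getElem?_append_right (by omega),
      show r'.length + 2 + n - r'.length = n + 1 + 1 by omega, List.getElem?_cons_succ,
      List.getElem?_cons_succ, List.getElem?_append_left h1]
  · rw [List.getElem?_append_right (by omega), List.getElem?_append_left (by omega)]
  · rw [List.getElem?_eq_none (by simp; omega), List.getElem?_eq_none (by simp; omega)]

theorem key_pos2 (G G' r' : List ZFSet.{0}) (e X : ZFSet.{0}) (hk : G'.length = G.length) :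
    asg (G' ++ r') = fun n => pre r' (asg (e :: X :: (G ++ G')))
      (if n < G.length then r'.length + 2 + G.length + n
        else if n < G.length + r'.length then n - G.length
        else r'.length + 2 + 2 * G.length) := by
  have hpre : ∀ n, pre r' (asg (e :: X :: (G ++ G'))) n = asg (r' ++ e :: X :: (G ++ G')) n := by
    intro n
    rw [asg_eq_pre, asg_eq_pre, pre_append]
  funext n
  rw [hpre]
  unfold asg
  simp only [List.getD_eq_getElem?_getD]
  split_ifs with h1 h2
  · rw [List.getElem?_append_left (by omega), List.getElem?_append_right (by omega),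
      show r'.length + 2 + G.length + n - r'.length = G.length + n + 1 + 1 by omega,
      List.getElem?_cons_succ, List.getElem?_cons_succ, List.getElem?_append_right (by omega),
      show G.length + n - G.length = n by omega]
  · rw [List.getElem?_append_right (by omega), List.getElem?_append_left (by omega), hk]
  · rw [List.getElem?_eq_none (by simp; omega), List.getElem?_eq_none (by simp; omega)]

/-- `∀ x ∈ r', ltL x e` inside the structures -/
theorem d_below (hLT : T_LT) : ∀ m : ℕ, ∀ (e : ℕ), Dfn Good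
    (fun _ w => ∀ i < m, ltL (w i) (w e)) := by
  intro m e
  have h : Dfn Good (fun _ w => ∀ i : Fin m, ltL (w i.1) (w e)) :=
    Dfn.allFin (fun i => (Dfn.ren (fun n => if n = 0 then i.1 else e) hLT))
  exact h.congr fun A _ w _ => ⟨fun h i hi => h ⟨i, hi⟩, fun h i => h i.1 i.2⟩

theorem pre_lt {l : List ZFSet.{0}} {v : ℕ → ZFSet.{0}} {i : ℕ} (h : i < l.length) :
    pre l v i = l[i] := by
  induction l generalizing i with
  | nil => simp at h
  | cons a l ih =>
    cases i with
    | zero => rfl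
    | succ i => exact ih (by simpa using h)

theorem pre_ge {l : List ZFSet.{0}} {v : ℕ → ZFSet.{0}} (i : ℕ) :
    pre l v (l.length + i) = v i := by
  induction l generalizing i with
  | nil => simp [pre]
  | cons a l ih =>
    show cons a (pre l v) (l.length + 1 + i) = v i
    rw [show l.length + 1 + i = (l.length + i) + 1 by omega]
    exact ih i

theorem key (hO : T_ORD) (hLT : T_LT) (hC : T_CMP) (hcol : T_COL) (hG : T_GCOL) (hD : T_DCL)
    (hR : T_REL) (hX : T_LEX) : T_KEY := by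
  intro H hH G r e u hdesc hmem hu hmin
  generalize hl : G ++ e :: r = l at *
  have heH : e ∈ H := hmem e (by rw [← hl]; simp)
  have hGl : ∀ g ∈ G, g ∈ l := fun g hg => by rw [← hl]; simp [hg]
  have hel : e ∈ l := by rw [← hl]; simp
  set Y0 := dcl H (fun x => x ∈ l) with hY0
  have elY0 : El Y0 H := hD.el H _ hH hmem
  have subY0 : ∀ x ∈ l, x ∈ Y0 := hD.sub H _ hmem
  have emY0 : ∅ ∈ Y0 := empty_mem_dcl hH.toBase hmem
  let X1 : ZFSet.{0} → Prop := fun x => (x ∈ Y0 ∧ ltL x e) ∨ x ∈ G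
  have hX1Y0 : ∀ x, X1 x → x ∈ Y0 := by
    rintro x (h | h)
    · exact h.1
    · exact subY0 x (hGl x h)
  have hX1H : ∀ x, X1 x → x ∈ H := fun x hx => elY0.1 (hX1Y0 x hx)
  set Y1 := dcl H X1 with hY1
  have elY1 : El Y1 H := hD.el H X1 hH hX1H
  have subY1 : ∀ x, X1 x → x ∈ Y1 := hD.sub H _ hX1H
  have emY1 : ∅ ∈ Y1 := empty_mem_dcl hH.toBase hX1H
  have hY10 : Y1 ⊆ Y0 := hD.least H Y0 X1 hH.tr emY0 elY0 hX1Y0
  obtain ⟨hN, hNo⟩ := hG Y0 H hH elY0 ⟨∅, emY0⟩
  obtain ⟨hQ, hQo⟩ := hG Y1 H hH elY1 ⟨∅, emY1⟩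
  have memN : ∀ z, z ∈ colS Y0 ↔ ∃ x ∈ Y0, col Y0 x = z := hcol.mem_colS Y0
  have memQ : ∀ z, z ∈ colS Y1 ↔ ∃ x ∈ Y1, col Y1 x = z := hcol.mem_colS Y1
  have inj0 := hcol.inj Y0 H hH.tr elY0
  have inj1 := hcol.inj Y1 H hH.tr elY1
  have ltmem : ∀ x ∈ H, ∀ w ∈ x, ltL w x := by
    intro x hx w hw
    obtain ⟨γ, β, _, _, h3⟩ := hH.hist x hx
    exact hO.mem β w x h3 hw
  -- the collapses agree below e
  have agree : ∀ x, x ∈ Y0 → ltL x e → col Y1 x = col Y0 x := by
    intro x
    induction x using ZFSet.inductionOn with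
    | _ x ih =>
    intro hx hxe
    have hxH := elY0.1 hx
    ext z
    rw [hcol.mem_col, hcol.mem_col]
    constructor
    · rintro ⟨w, hw, hwY, rfl⟩
      have hwe := hO.trans _ _ _ (ltmem x hxH w hw) hxe
      exact ⟨w, hw, hY10 hwY, (ih w hw (hY10 hwY) hwe).symm⟩
    · rintro ⟨w, hw, hwY, rfl⟩
      have hwe := hO.trans _ _ _ (ltmem x hxH w hw) hxe
      exact ⟨w, hw, subY1 w (Or.inl ⟨hwY, hwe⟩), ih w hw hwY hwe⟩
  have col0 : ∀ Y : ZFSet.{0}, col Y ∅ = ∅ := by
    intro Y
    rw [ZFSet.eq_empty]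
    intro z hz
    obtain ⟨w, hw, _⟩ := (hcol.mem_col _ _ _).1 hz
    exact ZFSet.notMem_empty _ hw
  have rnk : ∀ x, x ∈ Y1 → (col Y1 x).rank ≤ (col Y0 x).rank := by
    intro x
    induction x using ZFSet.inductionOn with
    | _ x ih =>
    intro hx
    rw [ZFSet.rank_le_iff]
    intro z hz
    obtain ⟨w, hw, hwY, rfl⟩ := (hcol.mem_col _ _ _).1 hz
    refine (ih w hw hwY).trans_lt (ZFSet.rank_lt_of_mem ?_)
    exact (hcol.mem_col _ _ _).2 ⟨w, hw, hY10 hwY, rfl⟩
  have agree1 : ∀ x, X1 x → ltL x e → col Y1 x = col Y0 x := fun x hx h => agree x (hX1Y0 x hx) h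
  rcases hC (colS Y0) (colS Y1) hN hQ with hNQ | hNQ | hQN
  · -- the case Q = N
    exfalso
    have hf0 : ∀ x, ∃ x', x ∈ Y1 → x' ∈ Y0 ∧ col Y0 x' = col Y1 x := by
      intro x
      by_cases hx : x ∈ Y1
      · have := (memQ (col Y1 x)).2 ⟨x, hx, rfl⟩
        rw [← hNQ] at this
        obtain ⟨x', h1, h2⟩ := (memN _).1 this
        exact ⟨x', fun _ => ⟨h1, h2⟩⟩
      · exact ⟨x, fun h => absurd h hx⟩
    choose f hf using hf0
    have hlow : ∀ x, x ∈ Y1 → ltL x e → f x = x := by
      intro x hx hxe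
      refine (inj0 _ (hf x hx).1 x (hY10 hx)).1.1 ?_
      rw [(hf x hx).2]
      exact agree x (hY10 hx) hxe
    have hord : ∀ x ∈ Y1, ∀ y ∈ Y1, (ltL (f x) (f y) ↔ ltL x y) := by
      intro x hx y hy
      rw [← hNo _ (hf x hx).1 _ (hf y hy).1, (hf x hx).2, (hf y hy).2, hQo x hx y hy]
    have hle : ∀ x, x ∈ Y1 → ¬ ltL x (f x) := by
      intro x
      induction x using hO.wf.induction with
      | _ x ih =>
      intro hx hlt
      -- x = f x1
      have h1 : col Y0 x ∈ colS Y1 := by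
        rw [← hNQ]; exact (memN _).2 ⟨x, hY10 hx, rfl⟩
      obtain ⟨x1, hx1, h2⟩ := (memQ _).1 h1
      have h3 : f x1 = x := (inj0 _ (hf x1 hx1).1 x (hY10 hx)).1.1 (by rw [(hf x1 hx1).2, h2])
      have h4 : ltL x1 x := by
        rw [← hord x1 hx1 x hx, h3]; exact hlt
      exact ih x1 h4 hx1 (by rw [h3]; exact h4)
    have hle' : ∀ x ∈ Y1, f x = x ∨ ltL (f x) x := by
      intro x hx
      obtain ⟨γ, β, _, _, h3⟩ := hH.hist x (elY1.1 hx)
      obtain ⟨γ', β', _, _, h3'⟩ := hH.hist (f x) (elY0.1 (hf x hx).1)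
      rcases hO.tri _ _ _ _ h3 h3' with h | h | h
      · exact absurd h (hle x hx)
      · exact Or.inl h.symm
      · exact Or.inr h
    -- u is the image of some c
    have hu1 : col Y0 u ∈ colS Y1 := by rw [← hNQ]; exact (memN _).2 ⟨u, hu, rfl⟩
    obtain ⟨c, hc, hcu⟩ := (memQ _).1 hu1
    have hc' := hc
    rw [hY1] at hc'
    unfold dcl at hc'
    rw [ZFSet.mem_sep] at hc'
    obtain ⟨_, φ, m, hm, hφ⟩ := hc'
    have hmY1 : ∀ x ∈ m, x ∈ Y1 := fun x hx => subY1 x (hm x hx)
    have h5 := (uniqDef_col hcol hH.tr elY1 emY1 hmY1 hc).1 hφ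
    have hmm : (m.map f).map (col Y0) = m.map (col Y1) := by
      rw [List.map_map]
      apply List.map_congr_left
      intro x hx
      exact (hf x (hmY1 x hx)).2
    rw [← hNQ, hcu, ← hmm] at h5
    have hm' : ∀ x ∈ m.map f, x ∈ Y0 := by
      intro x hx
      obtain ⟨y, hy, rfl⟩ := List.mem_map.1 hx
      exact (hf y (hmY1 y hy)).1
    have h6 : UniqDef H φ (m.map f) u := (uniqDef_col hcol hH.tr elY0 emY0 hm' hu).2 h5
    obtain ⟨α, hα⟩ := exists_level_list hH (m.map f) (fun x hx => elY0.1 (hm' x hx))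
    obtain ⟨l', hl'1, hl'2⟩ := hX.sort α (m.map f) hα
    refine hmin l' hl'1 (fun x hx => elY0.1 (hm' x ((hl'2 x).1 hx))) ?_ ?_
    · rw [← hl] at hdesc ⊢
      refine hX.comp G r l' e f hdesc hl'1 ?_ ?_
      · intro x hx
        obtain ⟨y, hy, rfl⟩ := List.mem_map.1 ((hl'2 x).1 hx)
        rcases hm y hy with h | h
        · left; rw [hlow y (hmY1 y hy) h.2]; exact h.2
        · right; exact ⟨y, h, rfl⟩
      · intro g hg
        exact hle' g (subY1 g (Or.inr hg))
    · unfold dcl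
      rw [ZFSet.mem_sep]
      exact ⟨elY0.1 hu, φ, m.map f, fun x hx => (hl'2 x).2 hx, h6⟩
  · -- N ∈ Q is impossible
    exfalso
    obtain ⟨x, hx, hxN⟩ := (memQ _).1 hNQ
    have h1 : (col Y0 x).rank < (colS Y0).rank :=
      ZFSet.rank_lt_of_mem ((memN _).2 ⟨x, hY10 hx, rfl⟩)
    have h2 := rnk x hx
    rw [hxN] at h2
    exact absurd (h2.trans_lt h1) (lt_irrefl _)
  · -- Q ∈ N
    obtain ⟨X, hXY, hXQ⟩ := (memN _).1 hQN
    have hf0 : ∀ x, ∃ x', x ∈ Y1 → x' ∈ Y0 ∧ col Y0 x' = col Y1 x := by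
      intro x
      by_cases hx : x ∈ Y1
      · have h1 := (memQ (col Y1 x)).2 ⟨x, hx, rfl⟩
        have h2 : col Y1 x ∈ colS Y0 := hN.tr _ hQN h1
        obtain ⟨x', h1, h2⟩ := (memN _).1 h2
        exact ⟨x', fun _ => ⟨h1, h2⟩⟩
      · exact ⟨x, fun h => absurd h hx⟩
    choose f hf using hf0
    have hGY1 : ∀ g ∈ G, g ∈ Y1 := fun g hg => subY1 g (Or.inr hg)
    have hXH : X ∈ H := elY0.1 hXY
    have emX : ∅ ∈ X := by
      rw [← (inj0 ∅ emY0 X hXY).2, hXQ, col0, ← col0 Y1]
      exact (memQ _).2 ⟨∅, emY1, rfl⟩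
    have hfX : ∀ g ∈ G, f g ∈ X := by
      intro g hg
      rw [← (inj0 _ (hf g (hGY1 g hg)).1 X hXY).2, hXQ, (hf g (hGY1 g hg)).2]
      exact (memQ _).2 ⟨g, hGY1 g hg, rfl⟩
    -- X is transitive
    have hXtr : X.IsTransitive := by
      obtain ⟨φ, hφ⟩ := (d_trans 0 : Dfn Trs _)
      have h1 := hφ H hH.tr (asg [X]) (asg_mem hH.empty (by simpa using hXH))
      have h2 := hφ (colS Y0) hN.tr (fun n => col Y0 (asg [X] n)) (fun n =>
        (memN _).2 ⟨_, asg_mem emY0 (by simpa using hXY) n, rfl⟩)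
      have h3 := hcol.sat Y0 H hH.tr elY0 φ (asg [X]) (asg_mem emY0 (by simpa using hXY))
      have h4 : (col Y0 (asg [X] 0)).IsTransitive := by
        show (col Y0 X).IsTransitive
        rw [hXQ]; exact hQ.tr
      exact h1.1 (h3.1 (h2.2 h4))
    -- everything below e is in X
    have hbelow : ∀ x, ltL x e → x ∈ X := by
      by_contra hcon
      push Not at hcon
      obtain ⟨x, hxe, hxX⟩ := hcon
      have hd : Dfn Good (fun A v => ∃ a ∈ A, ltL (cons a v 0) (cons a v 1) ∧
          ¬ (cons a v 0 ∈ cons a v 2)) := (hLT.and (Dfn.mem 0 2).not).ex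
      obtain ⟨φ, hφ⟩ := hd
      have hv : ∀ n, asg [e, X] n ∈ Y0 := asg_mem emY0 (by
        intro x hx
        simp at hx
        rcases hx with h | h
        · rw [h]; exact subY0 e hel
        · rw [h]; exact hXY)
      have h1 : Sat H φ (asg [e, X]) := (hφ H hH _ (fun n => elY0.1 (hv n))).2
        ⟨x, hH.init hO heH hxe, hxe, hxX⟩
      have h2 : Sat (colS Y0) φ (fun n => col Y0 (asg [e, X] n)) :=
        (hcol.sat Y0 H hH.tr elY0 φ _ hv).2 h1
      obtain ⟨a, ha, h3, h4⟩ := (hφ _ hN _ (fun n => (memN _).2 ⟨_, hv n, rfl⟩)).1 h2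
      obtain ⟨y, hy, rfl⟩ := (memN _).1 ha
      have h5 : ltL (col Y0 y) (col Y0 e) := h3
      rw [hNo y hy e (subY0 e hel)] at h5
      apply h4
      show col Y0 y ∈ col Y0 X
      rw [hXQ, ← agree y hy h5]
      exact (memQ _).2 ⟨y, subY1 y (Or.inl ⟨hy, h5⟩), rfl⟩
    refine ⟨X, G.map f, hXY, ?_, by simp, ?_, emX, hXtr, hbelow, ?_⟩
    · intro x hx
      obtain ⟨g, hg, rfl⟩ := List.mem_map.1 hx
      exact (hf g (hGY1 g hg)).1
    · intro x hx
      obtain ⟨g, hg, rfl⟩ := List.mem_map.1 hx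
      exact hfX g hg
    · intro φ r' hr'
      by_contra hcon
      -- the failure reflects to Y0
      set m := r'.length with hm
      set k := G.length with hk
      let g1 : ℕ → ℕ := fun n => if n < k then m + 2 + n else if n < k + m then n - k
        else m + 2 + 2 * k
      let g2 : ℕ → ℕ := fun n => match n with
        | 0 => m + 1
        | n + 1 => if n < k then m + 2 + k + n else if n < k + m then n - k else m + 2 + 2 * k
      have hd1 : Dfn Good (fun A w => Sat A φ (fun n => w (g1 n))) :=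
        Dfn.ren g1 (P := fun A w => Sat A φ w) ⟨φ, fun _ _ _ _ => Iff.rfl⟩
      have hd2 : Dfn Good (fun A w => Sat (w (g2 0)) φ (fun n => w (g2 (n+1)))) :=
        Dfn.ren g2 ((hR φ).mono (fun A (hA : Good A) => hA.tr))
      have hd := ((d_below hLT m m).and (hd1.iff hd2).not).exL m
      obtain ⟨ψ, hψ⟩ := hd
      set v := asg (e :: X :: (G ++ G.map f)) with hv
      have hvY : ∀ n, v n ∈ Y0 := asg_mem emY0 (by
        intro x hx
        simp only [List.mem_cons, List.mem_append, List.mem_map] at hx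
        rcases hx with h | h | h | ⟨g, h, h'⟩
        · rw [h]; exact subY0 e hel
        · rw [h]; exact hXY
        · exact hY10 (hGY1 x h)
        · rw [← h']; exact (hf g (hGY1 g h)).1)
      have pos1 : ∀ r'' : List ZFSet.{0}, r''.length = m → (fun n => pre r'' v (g1 n)) =
          asg (G ++ r'') := by
        intro r'' hr
        rw [key_pos1 G (G.map f) r'' e X (by simp), hr]
      have pos2 : ∀ r'' : List ZFSet.{0}, r''.length = m → (fun n => pre r'' v (g2 (n+1))) =
          asg (G.map f ++ r'') := by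
        intro r'' hr
        rw [key_pos2 G (G.map f) r'' e X (by simp), hr]
      have pos3 : ∀ r'' : List ZFSet.{0}, r''.length = m → pre r'' v (g2 0) = X := by
        intro r'' hr
        show pre r'' v (m + 1) = X
        rw [← hr, pre_ge]; rfl
      have pos4 : ∀ r'' : List ZFSet.{0}, r''.length = m → pre r'' v m = e := by
        intro r'' hr
        rw [← hr, ← Nat.add_zero r''.length, pre_ge]; rfl
      have hsat : Sat H ψ v := by
        rw [hψ H hH v (fun n => elY0.1 (hvY n))]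
        refine ⟨r', rfl, fun x hx => hH.init hO heH (hr' x hx), ?_, ?_⟩
        · intro i hi
          rw [pos4 r' rfl, pre_lt hi]
          exact hr' _ (List.getElem_mem _)
        · show ¬ (Sat H φ (fun n => pre r' v (g1 n)) ↔
            Sat (pre r' v (g2 0)) φ (fun n => pre r' v (g2 (n+1))))
          rw [pos1 r' rfl, pos2 r' rfl, pos3 r' rfl]
          exact hcon
      have hsat' : Sat (colS Y0) ψ (fun n => col Y0 (v n)) :=
        (hcol.sat Y0 H hH.tr elY0 ψ v hvY).2 hsat
      rw [hψ _ hN _ (fun n => (memN _).2 ⟨_, hvY n, rfl⟩)] at hsat'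
      obtain ⟨s, hs1, hs2, hs3, hs4⟩ := hsat'
      -- the list s is the collapse of a list r'' from Y0
      have hlist : ∀ s : List ZFSet.{0}, (∀ x ∈ s, x ∈ colS Y0) →
          ∃ r'' : List ZFSet.{0}, (∀ x ∈ r'', x ∈ Y0) ∧ r''.map (col Y0) = s := by
        intro s
        induction s with
        | nil => intro _; exact ⟨[], by simp, rfl⟩
        | cons a s ih =>
          intro h
          obtain ⟨x, hx, hxa⟩ := (memN _).1 (h a (by simp))
          obtain ⟨r'', h1, h2⟩ := ih (fun x hx => h x (by simp [hx]))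
          refine ⟨x :: r'', ?_, by rw [List.map_cons, hxa, h2]⟩
          intro y hy
          rcases List.mem_cons.1 hy with h | h
          · rw [h]; exact hx
          · exact h1 y h
      obtain ⟨r'', hr1, rfl⟩ := hlist s hs2
      have hr2 : r''.length = m := by simpa using hs1
      have hprec : ∀ n, pre (r''.map (col Y0)) (fun n => col Y0 (v n)) n =
          col Y0 (pre r'' v n) := by
        have : ∀ (r'' : List ZFSet.{0}) n, pre (r''.map (col Y0)) (fun n => col Y0 (v n)) n =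
            col Y0 (pre r'' v n) := by
          intro r''
          induction r'' with
          | nil => intro n; rfl
          | cons a r'' ih =>
            intro n
            cases n with
            | zero => rfl
            | succ n => exact ih n
        exact this r''
      have hr3 : ∀ x ∈ r'', ltL x e := by
        intro x hx
        obtain ⟨i, hi, rfl⟩ := List.getElem_of_mem hx
        have h1 := hs3 i (by omega)
        rw [hprec, hprec, pos4 r'' hr2, pre_lt hi] at h1
        rwa [hNo _ (hr1 _ (List.getElem_mem _)) e (subY0 e hel)] at h1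
      apply hs4
      show Sat (colS Y0) φ (fun n => pre (r''.map (col Y0)) (fun n => col Y0 (v n)) (g1 n)) ↔
        Sat (pre (r''.map (col Y0)) (fun n => col Y0 (v n)) (g2 0)) φ
          (fun n => pre (r''.map (col Y0)) (fun n => col Y0 (v n)) (g2 (n+1)))
      have e1 : (fun n => pre (r''.map (col Y0)) (fun n => col Y0 (v n)) (g1 n)) =
          fun n => col Y0 (asg (G ++ r'') n) := by
        rw [← pos1 r'' hr2]; funext n; exact hprec _
      have e2 : (fun n => pre (r''.map (col Y0)) (fun n => col Y0 (v n)) (g2 (n+1))) =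
          fun n => col Y0 (asg (G.map f ++ r'') n) := by
        rw [← pos2 r'' hr2]; funext n; exact hprec _
      have e3 : pre (r''.map (col Y0)) (fun n => col Y0 (v n)) (g2 0) = colS Y1 := by
        rw [hprec, pos3 r'' hr2, hXQ]
      rw [e1, e2, e3]
      have hr4 : ∀ x ∈ G ++ r'', x ∈ Y1 := by
        intro x hx
        rcases List.mem_append.1 hx with h | h
        · exact hGY1 x h
        · exact subY1 x (Or.inl ⟨hr1 x h, hr3 x h⟩)
      have e4 : (fun n => col Y0 (asg (G.map f ++ r'') n)) = fun n => col Y1 (asg (G ++ r'') n) := by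
        rw [← asg_map (col0 Y0), ← asg_map (col0 Y1), List.map_append, List.map_append,
          List.map_map]
        congr 2
        · apply List.map_congr_left
          intro g hg
          exact (hf g (hGY1 g hg)).2
        · apply List.map_congr_left
          intro x hx
          exact (agree x (hr1 x hx) (hr3 x hx)).symm
      rw [e4, hcol.sat Y1 H hH.tr elY1 φ _ (asg_mem emY1 hr4),
        hcol.sat Y0 H hH.tr elY0 φ _ (asg_mem emY0 (fun x hx => hY10 (hr4 x hx)))]

end Pool.Agent.W886.VL
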