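import Pool.Agent.W886.VL.Frm

/-!
# Basic facts on codes, `FSet`, `RSet`, `Def` and the levels `L α`
-/

namespace Pool.Agent.W886.VL

open SOCat (Fml cons)
open ZFSet (pair omega)

theorem pair_eq {a b c d : ℕ} : Nat.pair a b = Nat.pair c d ↔ a = c ∧ b = d := by
  constructor
  · intro h
    have h1 := congrArg Nat.unpair h
    simp only [Nat.unpair_pair, Prod.mk.injEq] at h1
    exact h1
  · rintro ⟨rfl, rfl⟩; rfl

theorem code_inj : ∀ {φ ψ : NF}, φ.code = ψ.code → φ = ψ := by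
  intro φ
  induction φ with
  | eq i j => intro ψ h; cases ψ <;> simp [NF.code, pair_eq] at h ⊢ <;> exact h
  | mem i j => intro ψ h; cases ψ <;> simp [NF.code, pair_eq] at h ⊢ <;> exact h
  | tup j xs => intro ψ h; cases ψ <;> simp [NF.code, pair_eq] at h ⊢ <;> exact h
  | neg φ ih =>
    intro ψ h
    cases ψ <;> simp [NF.code, pair_eq] at h ⊢
    exact ih h
  | and φ φ' ih ih' =>
    intro ψ h
    cases ψ <;> simp [NF.code, pair_eq] at h ⊢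
    exact ⟨ih h.1, ih' h.2⟩
  | allD k φ ih =>
    intro ψ h
    cases ψ <;> simp [NF.code, pair_eq] at h ⊢
    exact ⟨h.1, ih h.2⟩
  | all k φ ih =>
    intro ψ h
    cases ψ <;> simp [NF.code, pair_eq] at h ⊢
    exact ⟨h.1, ih h.2⟩

theorem mem_FSet {y f : ZFSet.{0}} : f ∈ FSet y ↔ ∃ s, FSup y s ∧ f = fnZ s := by
  unfold FSet
  rw [ZFSet.mem_sep, ZFSet.mem_powerset]
  constructor
  · exact fun h => h.2
  · rintro ⟨s, hs, rfl⟩
    refine ⟨?_, s, hs, rfl⟩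
    intro p hp
    obtain ⟨n, rfl⟩ := mem_fnZ.1 hp
    exact ZFSet.pair_mem_prod.2 ⟨num_mem_omega n, hs.1 n⟩

theorem fnZ_mem_FSet {y : ZFSet.{0}} {s : ℕ → ZFSet.{0}} : fnZ s ∈ FSet y ↔ FSup y s := by
  rw [mem_FSet]
  constructor
  · rintro ⟨s', hs', h⟩
    rw [fnZ_inj] at h
    exact h ▸ hs'
  · intro h; exact ⟨s, h, rfl⟩

theorem mem_RSet {y p : ZFSet.{0}} : p ∈ RSet y ↔ ∃ (φ : NF) (s : ℕ → ZFSet.{0}), FSup y s ∧
    NSat y φ s ∧ p = pair (num φ.code) (fnZ s) := by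
  unfold RSet
  rw [ZFSet.mem_sep]
  constructor
  · exact fun h => h.2
  · rintro ⟨φ, s, hs, h1, rfl⟩
    refine ⟨?_, φ, s, hs, h1, rfl⟩
    exact ZFSet.pair_mem_prod.2 ⟨num_mem_omega _, fnZ_mem_FSet.2 hs⟩

theorem pair_mem_RSet {y : ZFSet.{0}} {φ : NF} {s : ℕ → ZFSet.{0}} :
    pair (num φ.code) (fnZ s) ∈ RSet y ↔ FSup y s ∧ NSat y φ s := by
  rw [mem_RSet]
  constructor
  · rintro ⟨φ', s', hs', h1, h2⟩
    rw [ZFSet.pair_inj, num_inj, fnZ_inj] at h2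
    rw [h2.2, code_inj h2.1]
    exact ⟨hs', h1⟩
  · rintro ⟨h1, h2⟩
    exact ⟨φ, s, h1, h2, rfl⟩

theorem FSup.update {y a : ZFSet.{0}} {s : ℕ → ZFSet.{0}} (hs : FSup y s) (n : ℕ) (ha : a ∈ y) :
    FSup y (Function.update s n a) := by
  obtain ⟨h1, N, hN⟩ := hs
  refine ⟨fun m => ?_, max N (n+1), fun m hm => ?_⟩
  · by_cases h : m = n
    · subst h; rw [Function.update_self]; exact ha
    · rw [Function.update_of_ne h]; exact h1 m
  · have : m ≠ n := by have := le_max_right N (n+1); omega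
    rw [Function.update_of_ne this]
    exact hN m ((le_max_left _ _).trans hm)

theorem FSup.empty_mem {y : ZFSet.{0}} {s : ℕ → ZFSet.{0}} (hs : FSup y s) : ∅ ∈ y := by
  obtain ⟨h1, N, hN⟩ := hs
  have := h1 N
  rw [hN N le_rfl] at this
  exact this

theorem FSup.mono {y z : ZFSet.{0}} {s : ℕ → ZFSet.{0}} (hs : FSup y s) (h : y ⊆ z) :
    FSup z s := ⟨fun n => h (hs.1 n), hs.2⟩

theorem isUpd_iff {s s' : ℕ → ZFSet.{0}} {n : ℕ} {a : ZFSet.{0}} :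
    IsUpd (fnZ s') (fnZ s) (num n) a ↔ s' = Function.update s n a := by
  unfold IsUpd
  constructor
  · rintro ⟨h1, h2⟩
    rw [pair_mem_fnZ] at h1
    funext m
    by_cases h : m = n
    · subst h; rw [Function.update_self, h1]
    · rw [Function.update_of_ne h]
      rcases h2 _ (mem_fnZ.2 ⟨m, rfl⟩) with h3 | h3
      · exact pair_mem_fnZ.1 h3
      · rw [ZFSet.pair_inj, num_inj] at h3
        exact absurd h3.1 h
  · rintro rfl
    refine ⟨pair_mem_fnZ.2 (by rw [Function.update_self]), ?_⟩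
    intro p hp
    obtain ⟨m, rfl⟩ := mem_fnZ.1 hp
    by_cases h : m = n
    · subst h; right; rw [Function.update_self]
    · left; rw [Function.update_of_ne h]; exact mem_fnZ.2 ⟨m, rfl⟩

/-! ### `Def` -/

theorem mem_Def {A x : ZFSet.{0}} : x ∈ Def A ↔ x ⊆ A ∧ (x = ∅ ∨ ∃ (φ : Fml)
    (v : ℕ → ZFSet.{0}), (∀ n, v n ∈ A) ∧ ∀ a ∈ A, a ∈ x ↔ Sat A φ (cons a v)) := by
  unfold Def
  rw [ZFSet.mem_sep, ZFSet.mem_powerset]

theorem sub_Def {A : ZFSet.{0}} (hA : A.IsTransitive) : A ⊆ Def A := by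
  intro x hx
  rw [mem_Def]
  exact ⟨hA x hx, Or.inr ⟨.mem 0 1, fun _ => x, fun _ => hx, fun a _ => Iff.rfl⟩⟩

theorem self_mem_Def (A : ZFSet.{0}) : A ∈ Def A := by
  rw [mem_Def]
  refine ⟨fun _ h => h, ?_⟩
  rcases ZFSet.eq_empty_or_nonempty A with h | ⟨x, hx⟩
  · exact Or.inl h
  · exact Or.inr ⟨.eq 0 0, fun _ => x, fun _ => hx, fun a ha => ⟨fun _ => rfl, fun _ => ha⟩⟩

theorem empty_mem_Def (A : ZFSet.{0}) : ∅ ∈ Def A :=
  mem_Def.2 ⟨ZFSet.empty_subset _, Or.inl rfl⟩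

theorem Def_empty {x : ZFSet.{0}} : x ∈ Def ∅ ↔ x = ∅ := by
  rw [mem_Def]
  constructor
  · rintro ⟨h, _⟩
    rw [ZFSet.eq_empty]
    intro y hy
    exact ZFSet.notMem_empty _ (h hy)
  · rintro rfl
    exact ⟨fun _ h => h, Or.inl rfl⟩

theorem Def_trans {A : ZFSet.{0}} (hA : A.IsTransitive) : (Def A).IsTransitive := by
  intro x hx z hz
  exact sub_Def hA ((mem_Def.1 hx).1 hz)

/-! ### levels -/

theorem mem_L {α : Ordinal.{0}} {x : ZFSet.{0}} : x ∈ L α ↔ ∃ β < α, x ∈ Def (L β) := by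
  rw [L, ZFSet.mem_iUnion]
  constructor
  · rintro ⟨⟨β, hβ⟩, h⟩; exact ⟨β, hβ, h⟩
  · rintro ⟨β, hβ, h⟩; exact ⟨⟨β, hβ⟩, h⟩

theorem L_trans (α : Ordinal.{0}) : (L α).IsTransitive := by
  induction α using WellFoundedLT.induction with
  | _ α ih =>
  intro x hx z hz
  obtain ⟨β, hβ, h⟩ := mem_L.1 hx
  exact mem_L.2 ⟨β, hβ, Def_trans (ih β hβ) x h hz⟩

theorem L_mono {α β : Ordinal.{0}} (h : α ≤ β) : L α ⊆ L β := by
  intro x hx
  obtain ⟨γ, hγ, h'⟩ := mem_L.1 hx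
  exact mem_L.2 ⟨γ, hγ.trans_le h, h'⟩

theorem L_succ (α : Ordinal.{0}) : L (α + 1) = Def (L α) := by
  ext x
  constructor
  · intro hx
    obtain ⟨γ, hγ, h⟩ := mem_L.1 hx
    rcases (Order.lt_add_one_iff.1 hγ).lt_or_eq with h' | h'
    · exact sub_Def (L_trans α) (mem_L.2 ⟨γ, h', h⟩)
    · rw [← h']; exact h
  · intro hx
    exact mem_L.2 ⟨α, Order.lt_add_one_iff.2 le_rfl, hx⟩

theorem L_zero : L 0 = ∅ := by
  rw [ZFSet.eq_empty]
  intro x hx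
  obtain ⟨γ, hγ, _⟩ := mem_L.1 hx
  exact absurd hγ (not_lt.2 (by simp))

theorem L_mem_L {α β : Ordinal.{0}} : L α ∈ L β ↔ α < β := by
  constructor
  · intro h
    by_contra hc
    exact ZFSet.mem_irrefl _ (L_mono (not_lt.1 hc) h)
  · intro h
    exact mem_L.2 ⟨α, h, self_mem_Def _⟩

theorem L_inj {α β : Ordinal.{0}} : L α = L β ↔ α = β := by
  constructor
  · intro h
    rcases lt_trichotomy α β with h' | h' | h'
    · exact absurd (h ▸ L_mem_L.2 h') (ZFSet.mem_irrefl _)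
    · exact h'
    · exact absurd (h ▸ L_mem_L.2 h') (ZFSet.mem_irrefl _)
  · rintro rfl; rfl

theorem empty_mem_L {α : Ordinal.{0}} (h : 0 < α) : ∅ ∈ L α :=
  mem_L.2 ⟨0, h, empty_mem_Def _⟩

theorem mem_L_subset {α : Ordinal.{0}} {x : ZFSet.{0}} (h : x ∈ L α) : ∃ β < α, x ⊆ L β := by
  obtain ⟨β, hβ, h'⟩ := mem_L.1 h
  exact ⟨β, hβ, (mem_Def.1 h').1⟩

/-- every element of a level appears first in some `Def (L β)`. -/
theorem exists_new {α : Ordinal.{0}} {x : ZFSet.{0}} (h : x ∈ L α) :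
    ∃ β < α, x ∈ Def (L β) ∧ x ∉ L β := by
  induction α using WellFoundedLT.induction with
  | _ α ih =>
  obtain ⟨β, hβ, h'⟩ := mem_L.1 h
  by_cases hx : x ∈ L β
  · obtain ⟨γ, hγ, h''⟩ := ih β hβ hx
    exact ⟨γ, hγ.trans hβ, h''⟩
  · exact ⟨β, hβ, h', hx⟩

theorem lev_inj {α β : Ordinal.{0}} (h : lev α = lev β) : α = β := by
  unfold lev at h
  rw [ZFSet.pair_inj] at h
  exact L_inj.1 h.1

theorem mem_hset {γ : Ordinal.{0}} {q : ZFSet.{0}} : q ∈ hset γ ↔ ∃ β < γ, q = lev β := by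
  unfold hset
  rw [ZFSet.mem_range]
  constructor
  · rintro ⟨⟨β, hβ⟩, rfl⟩; exact ⟨β, hβ, rfl⟩
  · rintro ⟨β, hβ, rfl⟩; exact ⟨⟨β, hβ⟩, rfl⟩

end Pool.Agent.W886.VL
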