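import Pool.Agent.W886.VL.KD

/-!
# The main step
-/

namespace Pool.Agent.W886.VL

open SOCat
open ZFSet (pair omega)

theorem code_emb {τ : Voc} (ψ : SO τ) : (emb ψ).code = SOcode ψ := by
  induction ψ <;> simp [emb, NF.code, SOcode, *]

/-- closed properties are preserved between models of a complete theory -/
theorem transfer (hKS : T_KS) (hHH : T_HH) {τ : Voc} {T : Set (SO τ)} (hT : Complete.{0} T)
    (hfin : ∀ (M : Type) [Nonempty M] [Finite M] (S : Str τ M), ¬ IsModel S T)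
    {P : ZFSet.{0} → (ZFSet.{0} → Prop) → Prop} (hP : DfnK IsHH (fun A K _ => P A K))
    {M N : Type} [Nonempty M] [Nonempty N] (S : Str τ M) (S' : Str τ N)
    (hS : IsModel S T) (hS' : IsModel S' T) (h : P (HH M) (Cds S)) : P (HH N) (Cds S') := by
  have hinf : ∀ (M : Type) [Nonempty M] (S : Str τ M), IsModel S T → Infinite M := by
    intro M _ S hS
    by_contra hc
    rw [not_infinite_iff_finite] at hc
    exact hfin M S hS
  haveI := hinf M S hS
  haveI := hinf N S' hS'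
  obtain ⟨φ, hφ⟩ := hP
  obtain ⟨ψ, hψ, hψ'⟩ := hKS τ φ
  have e : ∀ (M : Type) [i : Infinite M] (S : Str τ M), Models S ψ ↔ P (HH M) (Cds S) :=
    fun M i S => (hψ' M S).trans
      (hφ (HH M) ⟨M, i, rfl⟩ _ _ (fun _ => (hHH.base M).empty))
  rcases hT ψ hψ with h1 | h1
  · exact (e N S').1 (h1 N S' hS')
  · exfalso
    have h2 := h1 M S hS
    have h3 := (e M S).2 h
    obtain ⟨m⟩ : Nonempty M := inferInstance
    exact h2 (fun _ => m) (fun _ _ _ => True) (h3 _ _)

theorem dcl_list {A b : ZFSet.{0}} {l : List ZFSet.{0}} (h : b ∈ dcl A (fun x => x ∈ l)) :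
    ∃ φ, UniqDef A φ l b := by
  unfold dcl at h
  rw [ZFSet.mem_sep] at h
  obtain ⟨_, φ, m, hm, h1, h2, h3⟩ := h
  have hpos : ∀ i : ℕ, ∃ j : ℕ, (i < m.length → j < l.length ∧ l[j]? = m[i]?) ∧
      (¬ i < m.length → j = l.length) := by
    intro i
    by_cases hi : i < m.length
    · obtain ⟨j, hj, he⟩ := List.getElem_of_mem (hm _ (List.getElem_mem hi))
      refine ⟨j, fun _ => ⟨hj, ?_⟩, fun h => absurd hi h⟩
      rw [List.getElem?_eq_getElem hj, List.getElem?_eq_getElem hi, he]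
    · exact ⟨l.length, fun h => absurd h hi, fun _ => rfl⟩
  choose p hp1 hp2 using hpos
  let g : ℕ → ℕ := fun n => match n with | 0 => 0 | n + 1 => p n + 1
  have hg : ∀ c, (fun n => asg (c :: l) (g n)) = asg (c :: m) := by
    intro c
    rw [asg_cons, asg_cons]
    funext n
    cases n with
    | zero => rfl
    | succ n =>
      show asg l (p n) = asg m n
      unfold asg
      rw [List.getD_eq_getElem?_getD, List.getD_eq_getElem?_getD]
      by_cases hn : n < m.length
      · rw [(hp1 n hn).2]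
      · rw [hp2 n hn, List.getElem?_eq_none le_rfl, List.getElem?_eq_none (not_lt.1 hn)]
  refine ⟨ren g φ, h1, ?_, ?_⟩
  · rw [sat_ren, hg]; exact h2
  · intro c hc h
    rw [sat_ren, hg] at h
    exact h3 c hc h

theorem mem_dcl_of_uniq {A b : ZFSet.{0}} {l : List ZFSet.{0}} {φ : Fml}
    (h : UniqDef A φ l b) : b ∈ dcl A (fun x => x ∈ l) := by
  unfold dcl
  rw [ZFSet.mem_sep]
  exact ⟨h.1, φ, l, fun x hx => hx, h⟩

theorem UniqDef.unique {A b c : ZFSet.{0}} {l : List ZFSet.{0}} {φ : Fml}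
    (h : UniqDef A φ l b) (h' : UniqDef A φ l c) : b = c := h'.2.2 b h.1 h.2.1

theorem range_asg (l : List ZFSet.{0}) : (List.range l.length).map (asg l) = l := by
  rw [asg_eq_pre, pre_range]

theorem lex_split {l l' : List ZFSet.{0}} (h : List.Lex ltL l l') (hl : l.length = l'.length) :
    ∃ G x y r r', l = G ++ x :: r ∧ l' = G ++ y :: r' ∧ ltL x y := by
  induction h with
  | nil => simp at hl
  | cons h ih =>
    obtain ⟨G, x, y, r, r', h1, h2, h3⟩ := ih (by simpa using hl)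
    exact ⟨_ :: G, x, y, r, r', by rw [h1]; rfl, by rw [h2]; rfl, h3⟩
  | rel h => exact ⟨[], _, _, _, _, rfl, rfl, h⟩

theorem d_allmem {C : ZFSet.{0} → Prop} {f : (ℕ → ZFSet.{0}) → List ZFSet.{0}} (hf : VL f)
    {g : (ℕ → ZFSet.{0}) → ZFSet.{0}} (hg : VV g) :
    Dfn C (fun _ v => ∀ x ∈ f v, x ∈ g v) := by
  obtain ⟨is, hf⟩ := hf
  have : ∀ is : List ℕ, Dfn C (fun _ v => ∀ x ∈ is.map v, x ∈ g v) := by
    intro is
    induction is with
    | nil => exact Dfn.tru.congr fun A hA v hv => by simp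
    | cons i is ih =>
      exact ((d_memv (VV.var i) hg).and ih).congr fun A hA v hv => by simp
  exact (this is).congr fun A hA v hv => by rw [hf]

/-! ### `NF`-formulas evaluated at the code of a structure -/

/-- a bound for the variables of an `NF`-formula -/
def nfb : NF → ℕ
  | .eq i j => max i j + 1
  | .mem i j => max i j + 1
  | .tup j xs => max j (xs.foldr max 0) + 1
  | .neg φ => nfb φ
  | .and φ ψ => max (nfb φ) (nfb ψ)
  | .allD k φ => max (k + 1) (nfb φ) + 1
  | .all k φ => max (k + 1) (nfb φ)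

theorem le_foldr_max {xs : List ℕ} {x : ℕ} (h : x ∈ xs) : x ≤ xs.foldr max 0 := by
  induction xs with
  | nil => simp at h
  | cons a xs ih =>
    rcases List.mem_cons.1 h with h | h
    · rw [h]; exact le_max_left _ _
    · exact (ih h).trans (le_max_right _ _)

theorem nsat_congr (A : ZFSet.{0}) (φ : NF) : ∀ {v w : ℕ → ZFSet.{0}},
    (∀ i < nfb φ, v i = w i) → (NSat A φ v ↔ NSat A φ w) := by
  induction φ with
  | eq i j =>
    intro v w h
    simp only [nfb] at h
    simp only [NSat]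
    rw [h i (by omega), h j (by omega)]
  | mem i j =>
    intro v w h
    simp only [nfb] at h
    simp only [NSat]
    rw [h i (by omega), h j (by omega)]
  | tup j xs =>
    intro v w h
    simp only [nfb] at h
    simp only [NSat]
    rw [h j (by omega)]
    have : xs.map v = xs.map w := by
      apply List.map_congr_left
      intro x hx
      have := le_foldr_max hx
      exact h x (by omega)
    rw [this]
  | neg φ ih => intro v w h; simp only [NSat]; rw [ih h]
  | and φ ψ ih1 ih2 =>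
    intro v w h
    simp only [nfb] at h
    simp only [NSat]
    rw [ih1 (fun i hi => h i (by omega)), ih2 (fun i hi => h i (by omega))]
  | allD k φ ih =>
    intro v w h
    simp only [nfb] at h
    simp only [NSat]
    have h0 := h 0 (by omega)
    rw [h0]
    apply forall_congr'; intro a
    apply imp_congr_right; intro _
    apply imp_congr_right; intro _
    apply ih
    intro i hi
    by_cases hk : i = k
    · subst hk; rw [Function.update_self, Function.update_self]
    · rw [Function.update_of_ne hk, Function.update_of_ne hk]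
      exact h i (by omega)
  | all k φ ih =>
    intro v w h
    simp only [nfb] at h
    simp only [NSat]
    apply forall_congr'; intro a
    apply imp_congr_right; intro _
    apply ih
    intro i hi
    by_cases hk : i = k
    · subst hk; rw [Function.update_self, Function.update_self]
    · rw [Function.update_of_ne hk, Function.update_of_ne hk]
      exact h i (by omega)

theorem IsStrCode.fn {τ : Voc} {b : ZFSet.{0}} (h : IsStrCode τ b) : ∃ s, b = fnZ s := by
  obtain ⟨M, S, s, e, h, _⟩ := h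
  exact ⟨s, h⟩

theorem val_mem {A b : ZFSet.{0}} (hA : A.IsTransitive) (hb : b ∈ A) {s : ℕ → ZFSet.{0}}
    (h : b = fnZ s) (n : ℕ) : s n ∈ A := by
  have h1 : pair (num n) (s n) ∈ A := hA _ hb (by rw [h]; exact pair_mem_fnZ.2 rfl)
  have h2 : ({num n, s n} : ZFSet.{0}) ∈ A := hA _ h1 (by
    unfold ZFSet.pair; exact ZFSet.mem_pair.2 (Or.inr rfl))
  exact hA _ h2 (ZFSet.mem_pair.2 (Or.inr rfl))

theorem d_nsv (hNS : T_NS) (hSC : T_SC) (τ : Voc) (ψ : NF) :
    Dfn Good (fun A v => IsStrCode τ (v 0) ∧ NSat A ψ (val (v 0))) := by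
  have h1 : Dfn Good (fun _ v => IsStrCode τ (v 0)) := (hSC τ).mono (fun A hA => hA.toBase)
  have h2 : Dfn Good (fun A w => NSat A ψ w) := (hNS ψ).mono (fun A hA => hA.tr)
  set N := nfb ψ with hN
  have h3 : Dfn Good (fun _ w => ∀ i : Fin N, pair (num i) (w i) ∈ w N) := by
    refine Dfn.allFin (fun i => ?_)
    refine (((d_num i.1 0).and (d_app 0 (i.1+1) (N+1))).ex).congr fun A hA v hv => ?_
    show (∃ a ∈ A, a = num i ∧ pair a (v i) ∈ v N) ↔ _
    constructor
    · rintro ⟨a, _, rfl, h⟩; exact h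
    · intro h
      exact ⟨_, hA.tr _ hA.om (num_mem_omega _), rfl, h⟩
  refine (h1.and ((h3.and h2).exL N)).congr fun A hA v hv => ?_
  apply and_congr_right
  intro hs
  obtain ⟨s, hs⟩ := hs.fn
  have hval : val (v 0) = s := by rw [hs]; funext n; exact val_fnZ s n
  rw [hval]
  constructor
  · rintro ⟨l, hl, hm, h4, h5⟩
    refine (nsat_congr A ψ (fun i hi => ?_)).1 h5
    have h6 := h4 ⟨i, hi⟩
    have h7 : pre l v N = v 0 := by rw [← hl]; exact pre_ge (v := v) 0
    rw [h7, hs] at h6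
    exact pair_mem_fnZ.1 h6
  · intro h
    refine ⟨(List.range N).map s, by simp, ?_, ?_, ?_⟩
    · intro x hx
      obtain ⟨i, _, rfl⟩ := List.mem_map.1 hx
      exact val_mem hA.tr (hv 0) hs i
    · intro i
      have h7 : pre ((List.range N).map s) v N = v 0 := by
        have := pre_ge (l := (List.range N).map s) (v := v) 0
        simpa using this
      rw [h7, hs, pair_mem_fnZ, pre_lt (by simp)]
      simp
    · refine (nsat_congr A ψ (fun i hi => ?_)).1 h
      rw [pre_lt (by simpa using hi)]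
      simp

/-- reflection of properties of the elements defined by `s` -/
theorem reflect (hGd : T_GOOD) {H X : ZFSet.{0}} (hH : Good H) {G G' : List ZFSet.{0}}
    {e : ZFSet.{0}} (hGH : ∀ x ∈ G, x ∈ H) (hGX : ∀ x ∈ G', x ∈ X) (hX0 : ∅ ∈ X)
    (hXtr : X.IsTransitive) (hlen : G'.length = G.length)
    (heq : ∀ (φ : Fml) (r : List ZFSet.{0}), (∀ x ∈ r, ltL x e) →
      (Sat H φ (asg (G ++ r)) ↔ Sat X φ (asg (G' ++ r)))) :
    Good X ∧ ∀ (s : Fml) (Q : ZFSet.{0} → (ℕ → ZFSet.{0}) → Prop), Dfn Good Q →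
      ∀ r : List ZFSet.{0}, (∀ x ∈ r, ltL x e) → (∀ x ∈ r, x ∈ H) → (∀ x ∈ r, x ∈ X) →
      ((∃ u, UniqDef H s (G ++ r) u ∧ Q H (asg (u :: (G ++ r)))) ↔
        ∃ u, UniqDef X s (G' ++ r) u ∧ Q X (asg (u :: (G' ++ r)))) := by
  have hgX : Good X := by
    obtain ⟨σ, hσ⟩ := hGd
    have h1 := hσ H hH.tr (asg (G ++ [])) (asg_mem hH.empty (by simpa using hGH))
    have h2 := hσ X hXtr (asg (G' ++ [])) (asg_mem hX0 (by simpa using hGX))
    exact h2.1 ((heq σ [] (by simp)).1 (h1.2 hH))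
  refine ⟨hgX, ?_⟩
  intro s Q hQ r hr hrH hrX
  set N := (G ++ r).length with hN
  have hN' : N = (G' ++ r).length := by rw [hN]; simp [hlen]
  have hd : Dfn Good (fun A v => ∃ u ∈ A, UniqDef A s ((List.range N).map (fun n => cons u v (n+1)))
      (cons u v 0) ∧ Q A (cons u v)) :=
    Dfn.ex ((d_uniq s (VL.range N).succ (VV.var 0)).and hQ)
  obtain ⟨φ, hφ⟩ := hd
  have h1 := hφ H hH (asg (G ++ r)) (asg_mem hH.empty (fun x hx => by
    rcases List.mem_append.1 hx with h | h
    · exact hGH x h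
    · exact hrH x h))
  have h2 := hφ X hgX (asg (G' ++ r)) (asg_mem hX0 (fun x hx => by
    rcases List.mem_append.1 hx with h | h
    · exact hGX x h
    · exact hrX x h))
  have h3 := heq φ r hr
  rw [h1, h2] at h3
  have e1 : ∀ u, (List.range N).map (fun n => cons u (asg (G ++ r)) (n+1)) = G ++ r := by
    intro u
    exact range_asg (G ++ r)
  have e2 : ∀ u, (List.range N).map (fun n => cons u (asg (G' ++ r)) (n+1)) = G' ++ r := by
    intro u
    rw [hN']
    exact range_asg (G' ++ r)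
  constructor
  · rintro ⟨u, hu1, hu2⟩
    obtain ⟨u', _, h4, h5⟩ := h3.1 ⟨u, hu1.1, by rw [e1]; exact hu1, by rw [← asg_cons]; exact hu2⟩
    rw [e2] at h4
    exact ⟨u', h4, by rw [asg_cons]; exact h5⟩
  · rintro ⟨u, hu1, hu2⟩
    obtain ⟨u', _, h4, h5⟩ := h3.2 ⟨u, hu1.1, by rw [e2]; exact hu1, by rw [← asg_cons]; exact hu2⟩
    rw [e1] at h4
    exact ⟨u', h4, by rw [asg_cons]; exact h5⟩

/-- transport of a structure along a bijection -/
def trans {τ : Voc} {M N : Type} (S : Str τ N) (e : N ≃ M) : Str τ M where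
  rel R xs := S.rel R (fun k => e.symm (xs k))
  fn f xs := e (S.fn f (fun k => e.symm (xs k)))

theorem isom_trans {τ : Voc} {M N : Type} (S : Str τ N) (e : N ≃ M) : Isom S (trans S e) := by
  refine ⟨e, fun R xs => ?_, fun f xs => ?_⟩
  · show _ ↔ S.rel R _
    simp
  · show _ = e (S.fn f _)
    simp

theorem Isom.symm' {τ : Voc} {M N : Type} {S : Str τ M} {S' : Str τ N} (h : Isom S S') :
    Isom S' S := by
  obtain ⟨e, h1, h2⟩ := h
  refine ⟨e.symm, fun R xs => ?_, fun f xs => ?_⟩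
  · rw [h1]; simp
  · rw [Equiv.symm_apply_eq, h2]; simp

theorem Isom.trans' {τ : Voc} {M N P : Type} {S : Str τ M} {S' : Str τ N} {S'' : Str τ P}
    (h : Isom S S') (h' : Isom S' S'') : Isom S S'' := by
  obtain ⟨e, h1, h2⟩ := h
  obtain ⟨e', h1', h2'⟩ := h'
  refine ⟨e.trans e', fun R xs => ?_, fun f xs => ?_⟩
  · rw [h1, h1']; rfl
  · show e' (e (S.fn f xs)) = _
    rw [h2, h2']; rfl

/-- the set of numbers of the sentences in `T'` -/
def codesOf {τ : Voc} (T' : Set (SO τ)) : ℕ → Prop := fun n => ∃ φ ∈ T', SOcode φ = n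

theorem codesOf_code {τ : Voc} {T' : Set (SO τ)} {φ : NF} (h : codesOf T' φ.code) :
    ∃ ψ ∈ T', emb ψ = φ := by
  obtain ⟨ψ, h1, h2⟩ := h
  exact ⟨ψ, h1, code_inj (by rw [code_emb, h2])⟩

/-- models of `T'` and truth in `HH M` -/
theorem model_iff (hHH : T_HH) (hCds : T_CDS) {τ : Voc} {T' : Set (SO τ)}
    (hsent : ∀ φ ∈ T', SO.IsSentence.{0} φ) {M N : Type} [Infinite M] {S : Str τ N}
    {b : ZFSet.{0}} (hb : b ∈ HH M) (hS : Cds S b) :
    IsModel S T' ↔ ∀ ψ ∈ T', NSat (HH M) (emb ψ) (val b) := by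
  have h0 : val b 0 ∈ HH M := by
    obtain ⟨s, e, h, _⟩ := hS
    have := val_mem (hHH.tr M) hb h 0
    rw [h, val_fnZ]; exact this
  have h1 := hCds.sat N S (HH M) b (hHH.tr M) hb hS (fun z hz => hHH.tup M (val b 0) z h0 hz)
  constructor
  · intro h ψ hψ
    exact (h1 ψ (hsent ψ hψ)).1 (h ψ hψ)
  · intro h ψ hψ
    exact (h1 ψ (hsent ψ hψ)).2 (h ψ hψ)

/-- decreasing witnesses -/
def Wit (H : ZFSet.{0}) (K : ZFSet.{0} → Prop) (l : List ZFSet.{0}) : Prop :=
  Desc l ∧ (∀ x ∈ l, x ∈ H) ∧ ∃ u, u ∈ dcl H (fun x => x ∈ l) ∧ K u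

/-- `l` is the least decreasing list of length `n` from which `s` defines an element of `K` -/
def GG (s : Fml) (n : ℕ) (A : ZFSet.{0}) (K : ZFSet.{0} → Prop) (l : List ZFSet.{0}) : Prop :=
  Desc l ∧ (∃ u ∈ A, UniqDef A s l u ∧ K u) ∧
    ∀ l' : List ZFSet.{0}, l'.length = n → (∀ x ∈ l', x ∈ A) →
      (Desc l' ∧ ∃ u ∈ A, UniqDef A s l' u ∧ K u) → ¬ List.Lex ltL l' l

theorem DfnK.mono {C C' : ZFSet.{0} → Prop}
    {P : ZFSet.{0} → (ZFSet.{0} → Prop) → (ℕ → ZFSet.{0}) → Prop} (h : DfnK C P)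
    (hC : ∀ A, C' A → C A) : DfnK C' P := by
  obtain ⟨φ, hφ⟩ := h
  exact ⟨φ, fun A hA => hφ A (hC A hA)⟩

theorem d_exu (s : Fml) {f : (ℕ → ZFSet.{0}) → List ZFSet.{0}} (hf : VL f) :
    DfnK Good (fun A K v => ∃ u ∈ A, UniqDef A s (f v) u ∧ K u) :=
  DfnK.ex ((DfnK.of_dfn (d_uniq s hf.succ (VV.var 0))).and (DfnK.K 0))

theorem d_GG (hLT : T_LT) (s : Fml) (n : ℕ) {f : (ℕ → ZFSet.{0}) → List ZFSet.{0}} (hf : VL f) :
    DfnK Good (fun A K v => GG s n A K (f v)) := by
  refine (DfnK.of_dfn (d_desc hLT hf)).and ((d_exu s hf).and ?_)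
  refine DfnK.allLs n (P := fun A K l' v => (Desc l' ∧ ∃ u ∈ A, UniqDef A s l' u ∧ K u) →
    ¬ List.Lex ltL l' (f v)) ?_
  exact ((DfnK.of_dfn (d_desc hLT (VL.range n))).and (d_exu s (VL.range n))).imp
    (DfnK.of_dfn (d_lex hLT (VL.range n) (hf.shift n))).not

theorem main_step (hO : T_ORD) (hLT : T_LT) (hGd : T_GOOD) (hHH : T_HH) (hHHV : T_HHV)
    (hCds : T_CDS) (hKS : T_KS) (hTI : T_TI) (hSC : T_SC) (hNS : T_NS) (hX : T_LEX)
    (hKey : T_KEY) (hR : T_REL) : T_MAIN := by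
  intro τ T hT hR' hfin hcard M _ S S' hS hS'
  have hinf : Infinite M := by
    by_contra hc
    rw [not_infinite_iff_finite] at hc
    exact hfin M S hS
  set H := HH M with hHdef
  have hH : Good H := hHHV.good M
  have hI : IsHH H := ⟨M, hinf, rfl⟩
  have hGI : ∀ A, IsHH A → Good A := by
    rintro A ⟨N, hN, rfl⟩
    exact hHHV.good N
  obtain ⟨T', hsent, hmod, hre⟩ := hR'
  -- trichotomy for lists
  have tri : ∀ l l' : List ZFSet.{0}, (∀ x ∈ l, x ∈ H) → (∀ x ∈ l', x ∈ H) →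
      List.Lex ltL l l' ∨ l = l' ∨ List.Lex ltL l' l := by
    intro l l' h h'
    obtain ⟨α, hα⟩ := exists_level_list hH (l ++ l') (fun x hx => by
      rcases List.mem_append.1 hx with h1 | h1
      · exact h x h1
      · exact h' x h1)
    exact hX.tri α l l' (fun x hx => hα x (by simp [hx])) (fun x hx => hα x (by simp [hx]))
  -- minimal witnesses
  have hex : ∀ S : Str τ M, ∃ l, Wit H (Cds S) l ∧ ∀ l', Wit H (Cds S) l' →
      ¬ List.Lex ltL l' l := by
    intro S
    obtain ⟨b, hb, hbS⟩ := hCds.ex M S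
    have hne : {l | Wit H (Cds S) l}.Nonempty := by
      refine ⟨[b], by simp [Desc], by simpa using hb, b, ?_, hbS⟩
      have hd : Dfn Good (fun _ v => v 0 = v 1) := Dfn.eq 0 1
      exact mem_dcl_of_dfn hd hH hH.empty (X := fun x => x ∈ [b]) (by simpa using hb)
        (l := [b]) (by simp) hb (by simp [asg]) (fun c _ h => by simpa [asg] using h)
    refine ⟨hX.wf.min _ hne, hX.wf.min_mem _ hne, ?_⟩
    intro l' hl' hlt
    exact hX.wf.not_lt_min _ hl' ⟨hl'.1, (hX.wf.min_mem _ hne).1, hlt⟩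
  choose F hF1 hF2 using hex
  -- a model with the least `F`
  have hne : {l | ∃ S : Str τ M, IsModel S T ∧ F S = l}.Nonempty := ⟨_, S, hS, rfl⟩
  obtain ⟨S0, hS0, hl0⟩ := hX.wf.min_mem _ hne
  have hmin0 : ∀ S : Str τ M, IsModel S T → ¬ List.Lex ltL (F S) (F S0) := by
    intro S hS hlt
    have hmem : F S ∈ {l | ∃ S : Str τ M, IsModel S T ∧ F S = l} := ⟨S, hS, rfl⟩
    refine hX.wf.not_lt_min _ hmem ?_
    rw [← hl0]
    exact ⟨(hF1 S).1, (hF1 S0).1, hlt⟩
  clear hl0 hne
  obtain ⟨hd0, hm0, u0, hu0, hK0⟩ := hF1 S0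
  obtain ⟨s0, hs0⟩ := dcl_list hu0
  set n := (F S0).length with hn
  have gg0 : GG s0 n H (Cds S0) (F S0) := by
    refine ⟨hd0, ⟨u0, hs0.1, hs0, hK0⟩, ?_⟩
    rintro l' _ hl'm ⟨hl'd, u, _, hu, hKu⟩
    exact hF2 S0 l' ⟨hl'd, hl'm, u, mem_dcl_of_uniq hu, hKu⟩
  have ggu : ∀ (K : ZFSet.{0} → Prop) (l l' : List ZFSet.{0}), l.length = n → l'.length = n →
      (∀ x ∈ l, x ∈ H) → (∀ x ∈ l', x ∈ H) → GG s0 n H K l → GG s0 n H K l' → l = l' := by
    intro K l l' h1 h2 h3 h4 h5 h6
    rcases tri l l' h3 h4 with h | h | h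
    · exact absurd h (h6.2.2 l h1 h3 ⟨h5.1, h5.2.1⟩)
    · exact h
    · exact absurd h (h5.2.2 l' h2 h4 ⟨h6.1, h6.2.1⟩)
  -- all the models have their least witness of length n defined by s0
  have ggS : ∀ S : Str τ M, IsModel S T → (F S).length = n ∧ GG s0 n H (Cds S) (F S) := by
    intro S hS
    have hP1 : DfnK IsHH (fun A K (_ : ℕ → ZFSet.{0}) => ∃ l : List ZFSet.{0}, l.length = n ∧
        (∀ x ∈ l, x ∈ A) ∧ GG s0 n A K l) :=
      (DfnK.exLs n (P := fun A K l _ => GG s0 n A K l) (d_GG hLT s0 n (VL.range n))).mono hGI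
    obtain ⟨l, hl1, hl2, hl3⟩ := transfer hKS hHH hT hfin hP1 S0 S hS0 hS ⟨(F S0), rfl, hm0, gg0⟩
    have hlW : Wit H (Cds S) l := by
      obtain ⟨u, _, h1, h2⟩ := hl3.2.1
      exact ⟨hl3.1, hl2, u, mem_dcl_of_uniq h1, h2⟩
    obtain ⟨hd1, hm1, u1, hu1, hK1⟩ := hF1 S
    obtain ⟨s1, hs1⟩ := dcl_list hu1
    have hle : ¬ List.Lex ltL (F S) l := by
      intro hlt
      set m1 := (F S).length with hm1'
      have hP2 : DfnK IsHH (fun A K (_ : ℕ → ZFSet.{0}) => ∃ l : List ZFSet.{0}, l.length = n ∧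
          (∀ x ∈ l, x ∈ A) ∧ (GG s0 n A K l ∧ ∃ l' : List ZFSet.{0}, l'.length = m1 ∧
            (∀ x ∈ l', x ∈ A) ∧ (Desc l' ∧ List.Lex ltL l' l ∧
              ∃ u ∈ A, UniqDef A s1 l' u ∧ K u))) := by
        refine DfnK.mono (DfnK.exLs n (P := fun A K l _ => GG s0 n A K l ∧
          ∃ l' : List ZFSet.{0}, l'.length = m1 ∧ (∀ x ∈ l', x ∈ A) ∧
            (Desc l' ∧ List.Lex ltL l' l ∧ ∃ u ∈ A, UniqDef A s1 l' u ∧ K u)) ?_) hGI
        refine (d_GG hLT s0 n (VL.range n)).and ?_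
        refine DfnK.exLs m1 (P := fun A K l' w => Desc l' ∧
          List.Lex ltL l' ((List.range n).map w) ∧ ∃ u ∈ A, UniqDef A s1 l' u ∧ K u) ?_
        exact (DfnK.of_dfn (d_desc hLT (VL.range m1))).and
          ((DfnK.of_dfn (d_lex hLT (VL.range m1) ((VL.range n).shift m1))).and
            (d_exu s1 (VL.range m1)))
      obtain ⟨l2, h1, h2, h3, l', h4, h5, h6, h7, u, h8, h9, h10⟩ :=
        transfer hKS hHH hT hfin hP2 S S0 hS hS0
          ⟨l, hl1, hl2, hl3, F S, rfl, hm1, hd1, hlt, u1, hs1.1, hs1, hK1⟩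
      have h11 := ggu _ l2 (F S0) h1 rfl h2 hm0 h3 gg0
      rw [h11] at h7
      exact hF2 S0 l' ⟨h6, h5, u, mem_dcl_of_uniq h9, h10⟩ h7
    have : F S = l := by
      rcases tri (F S) l hm1 hl2 with h | h | h
      · exact absurd h hle
      · exact h
      · exact absurd h (hF2 S l hlW)
    rw [this]
    exact ⟨hl1, hl3⟩
  -- transfer of definable properties of the least witness
  have tq : ∀ Q : ZFSet.{0} → List ZFSet.{0} → Prop,
      DfnK IsHH (fun A _ w => Q A ((List.range n).map w)) →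
      ∀ S1 S2 : Str τ M, IsModel S1 T → IsModel S2 T → Q H (F S1) → Q H (F S2) := by
    intro Q hQ S1 S2 hS1 hS2 hQ1
    have hP : DfnK IsHH (fun A K (_ : ℕ → ZFSet.{0}) => ∃ l : List ZFSet.{0}, l.length = n ∧
        (∀ x ∈ l, x ∈ A) ∧ (GG s0 n A K l ∧ Q A l)) :=
      DfnK.exLs n (P := fun A K l _ => GG s0 n A K l ∧ Q A l)
        (((d_GG hLT s0 n (VL.range n)).mono hGI).and hQ)
    obtain ⟨l, h1, h2, h3, h4⟩ := transfer hKS hHH hT hfin hP S1 S2 hS1 hS2
      ⟨F S1, (ggS S1 hS1).1, (hF1 S1).2.1, (ggS S1 hS1).2, hQ1⟩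
    rw [← ggu _ l (F S2) h1 (ggS S2 hS2).1 h2 (hF1 S2).2.1 h3 (ggS S2 hS2).2]
    exact h4
  -- the main claim
  have claim : ∀ S : Str τ M, IsModel S T → F S = (F S0) := by
    intro S hS
    by_contra hne
    obtain ⟨hl1n, hl1g⟩ := ggS S hS
    have hm1 : ∀ x ∈ (F S), x ∈ H := (hF1 S).2.1
    have hlt : List.Lex ltL (F S0) (F S) := by
      rcases tri (F S0) (F S) hm0 hm1 with h | h | h
      · exact h
      · exact absurd h.symm hne
      · exact absurd h (hmin0 S hS)
    obtain ⟨G, e0, e, r0, r1, hG0, hG1, hee⟩ := lex_split hlt (by rw [hl1n])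
    obtain ⟨u1, hu1H, hu1, hK1⟩ := hl1g.2.1
    have hd1 := hl1g.1
    have hGn : G.length < n := by rw [hn, hG0]; simp
    have hrn : (e0 :: r0).length = n - G.length := by rw [hn, hG0]; simp
    obtain ⟨X, G', hXd, hG'd, hlen, hG'X, hX0, hXtr, hXb, heq⟩ := hKey H hH G r1 e u1
      (by rw [← hG1]; exact hd1) (by rw [← hG1]; exact hm1)
      (by rw [← hG1]; exact mem_dcl_of_uniq hu1)
      (by
        intro l' hl'd hl'm hl'lt hu
        rw [← hG1] at hl'lt
        exact hF2 S l' ⟨hl'd, hl'm, u1, hu, hK1⟩ hl'lt)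
    rw [← hG1] at hXd hG'd
    obtain ⟨χ, hχ⟩ := dcl_list hXd
    obtain ⟨k, hk⟩ : ∃ k, k = G.length := ⟨_, rfl⟩
    have hχs : ∀ i : Fin k, ∃ φ, UniqDef H φ (F S) (G'.getD i.1 ∅) := by
      intro i
      apply dcl_list
      apply hG'd
      rw [List.getD_eq_getElem?_getD, List.getElem?_eq_getElem (by rw [hlen, ← hk]; exact i.2)]
      exact List.getElem_mem _
    choose χs hχs using hχs
    rw [← hk] at hGn hrn hlen
    let RG : ZFSet.{0} → List ZFSet.{0} → ZFSet.{0} → List ZFSet.{0} → Prop := fun A l X G' =>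
      UniqDef A χ l X ∧ ∀ i : Fin k, UniqDef A (χs i) l (G'.getD i.1 ∅)
    have vvget : ∀ (m i : ℕ), i < m → VV (fun w => ((List.range m).map w).getD i ∅) := by
      intro m i hi
      refine ⟨i, fun v => ?_⟩
      show ((List.range m).map v).getD i ∅ = v i
      rw [List.getD_eq_getElem?_getD, List.getElem?_eq_getElem (by simpa using hi)]
      simp
    have rgu : ∀ l X1 X2 G1 G2, G1.length = k → G2.length = k → RG H l X1 G1 → RG H l X2 G2 →
        X1 = X2 ∧ G1 = G2 := by
      intro l X1 X2 G1 G2 h1 h2 h3 h4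
      refine ⟨h3.1.unique h4.1, ?_⟩
      apply List.ext_getElem (by rw [h1, h2])
      intro i h5 h6
      have := (h3.2 ⟨i, h1 ▸ h5⟩).unique (h4.2 ⟨i, h1 ▸ h5⟩)
      simp only [List.getD_eq_getElem?_getD, List.getElem?_eq_getElem h5,
        List.getElem?_eq_getElem h6, Option.getD_some] at this
      exact this
    have d_RG : ∀ {f g : (ℕ → ZFSet.{0}) → List ZFSet.{0}} {x : (ℕ → ZFSet.{0}) → ZFSet.{0}},
        VL f → VV x → VL g → (∀ i < k, VV (fun w => (g w).getD i ∅)) →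
        Dfn Good (fun A w => RG A (f w) (x w) (g w)) := by
      intro f g x hf hx hg hgi
      exact (d_uniq χ hf hx).and (Dfn.allFin (fun i => d_uniq (χs i) hf (hgi i.1 i.2)))
    -- the equivalences, as a definable property of the least witness
    let EQ : Fml → ℕ → ZFSet.{0} → List ZFSet.{0} → Prop := fun φ m A l =>
      ∀ Xl : List ZFSet.{0}, Xl.length = 1 → (∀ x ∈ Xl, x ∈ A) →
      ∀ G' : List ZFSet.{0}, G'.length = k → (∀ x ∈ G', x ∈ A) →
      ∀ r : List ZFSet.{0}, r.length = m → (∀ x ∈ r, x ∈ A) →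
        (RG A l (Xl.getD 0 ∅) G' ∧ ∀ x ∈ r, ltL x (l.getD k ∅)) →
        (Sat A φ (asg (l.take k ++ r)) ↔ Sat (Xl.getD 0 ∅) φ (asg (G' ++ r)))
    have dEQ : ∀ φ m, DfnK IsHH (fun A _ w => EQ φ m A ((List.range n).map w)) := by
      intro φ m
      refine DfnK.of_dfn (Dfn.mono ?_ hGI)
      refine Dfn.allLs 1 (P := fun A Xl v => ∀ G' : List ZFSet.{0}, G'.length = k →
        (∀ x ∈ G', x ∈ A) → ∀ r : List ZFSet.{0}, r.length = m → (∀ x ∈ r, x ∈ A) →
        (RG A ((List.range n).map v) (Xl.getD 0 ∅) G' ∧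
          ∀ x ∈ r, ltL x (((List.range n).map v).getD k ∅)) →
        (Sat A φ (asg (((List.range n).map v).take k ++ r)) ↔
          Sat (Xl.getD 0 ∅) φ (asg (G' ++ r)))) ?_
      refine Dfn.allLs k (P := fun A G' v => ∀ r : List ZFSet.{0}, r.length = m →
        (∀ x ∈ r, x ∈ A) →
        (RG A ((List.range n).map (fun i => v (1 + i))) (((List.range 1).map v).getD 0 ∅) G' ∧
          ∀ x ∈ r, ltL x (((List.range n).map (fun i => v (1 + i))).getD k ∅)) →
        (Sat A φ (asg (((List.range n).map (fun i => v (1 + i))).take k ++ r)) ↔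
          Sat (((List.range 1).map v).getD 0 ∅) φ (asg (G' ++ r)))) ?_
      refine Dfn.allLs m (P := fun A r v =>
        (RG A ((List.range n).map (fun i => v (k + (1 + i))))
            (((List.range 1).map (fun i => v (k + i))).getD 0 ∅) ((List.range k).map v) ∧
          ∀ x ∈ r, ltL x (((List.range n).map (fun i => v (k + (1 + i)))).getD k ∅)) →
        (Sat A φ (asg (((List.range n).map (fun i => v (k + (1 + i)))).take k ++ r)) ↔
          Sat (((List.range 1).map (fun i => v (k + i))).getD 0 ∅) φ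
            (asg ((List.range k).map v ++ r)))) ?_
      have v1 : VL (fun w : ℕ → ZFSet.{0} => (List.range n).map (fun i => w (m + (k + (1 + i))))) :=
        (((VL.range n).shift 1).shift k).shift m
      have v2 : VV (fun w : ℕ → ZFSet.{0} =>
          ((List.range 1).map (fun i => w (m + (k + i)))).getD 0 ∅) :=
        ((vvget 1 0 (by omega)).shift k).shift m
      have v3 : VL (fun w : ℕ → ZFSet.{0} => (List.range k).map (fun i => w (m + i))) :=
        (VL.range k).shift m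
      have v4 : VV (fun w : ℕ → ZFSet.{0} =>
          ((List.range n).map (fun i => w (m + (k + (1 + i))))).getD k ∅) :=
        (((vvget n k hGn).shift 1).shift k).shift m
      have v5 : ∀ i < k, VV (fun w : ℕ → ZFSet.{0} =>
          ((List.range k).map (fun i => w (m + i))).getD i ∅) := fun i hi =>
        (vvget k i hi).shift m
      exact ((d_RG v1 v2 v3 v5).and (d_belowl hLT (VL.range m) v4)).imp
        ((d_satl φ ((v1.take k).append (VL.range m))).iff
          (d_satXl hR φ v2 (v3.append (VL.range m))))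
    have hEQ1 : ∀ φ m, EQ φ m H (F S) := by
      intro φ m Xl h1 _ G1 h2 _ r h3 _ h4
      have h5 := rgu (F S) _ _ G1 G' h2 hlen h4.1 ⟨hχ, hχs⟩
      rw [h5.1, h5.2]
      have h6 : (F S).take k = G := by rw [hG1, hk]; simp
      have h7 : (F S).getD k ∅ = e := by rw [hG1, hk]; simp
      rw [h6]
      exact heq φ r (fun x hx => by rw [← h7]; exact h4.2 x hx)
    have hEQ0 : ∀ φ m, EQ φ m H (F S0) := fun φ m => tq (EQ φ m) (dEQ φ m) S S0 hS hS0 (hEQ1 φ m)
    -- the statement Θ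
    let C := codesOf T'
    let TH : ZFSet.{0} → List ZFSet.{0} → Prop := fun A l =>
      ∃ Xl : List ZFSet.{0}, Xl.length = 1 ∧ (∀ x ∈ Xl, x ∈ A) ∧
      ∃ G' : List ZFSet.{0}, G'.length = k ∧ (∀ x ∈ G', x ∈ A) ∧
      ∃ r : List ZFSet.{0}, r.length = n - k ∧ (∀ x ∈ r, x ∈ A) ∧
      ∃ ul : List ZFSet.{0}, ul.length = 1 ∧ (∀ x ∈ ul, x ∈ A) ∧
        (RG A l (Xl.getD 0 ∅) G' ∧ Desc r ∧ (∀ x ∈ r, ltL x (l.getD k ∅)) ∧
          (∀ x ∈ G' ++ r, x ∈ Xl.getD 0 ∅) ∧
          UniqDef (Xl.getD 0 ∅) s0 (G' ++ r) (ul.getD 0 ∅) ∧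
          ((Xl.getD 0 ∅).IsTransitive ∧ ul.getD 0 ∅ ∈ Xl.getD 0 ∅ ∧
            IsStrCode τ (ul.getD 0 ∅) ∧ TrueIn C (Xl.getD 0 ∅) (ul.getD 0 ∅)))
    have dTH : DfnK IsHH (fun A _ w => TH A ((List.range n).map w)) := by
      refine DfnK.of_dfn ?_
      set m := n - k with hmdef
      refine Dfn.exLs 1 (P := fun A Xl v => ∃ G' : List ZFSet.{0}, G'.length = k ∧
        (∀ x ∈ G', x ∈ A) ∧
        ∃ r : List ZFSet.{0}, r.length = m ∧ (∀ x ∈ r, x ∈ A) ∧
        ∃ ul : List ZFSet.{0}, ul.length = 1 ∧ (∀ x ∈ ul, x ∈ A) ∧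
        (RG A ((List.range n).map v) (Xl.getD 0 ∅) G' ∧ Desc r ∧
          (∀ x ∈ r, ltL x (((List.range n).map v).getD k ∅)) ∧
          (∀ x ∈ G' ++ r, x ∈ Xl.getD 0 ∅) ∧
          UniqDef (Xl.getD 0 ∅) s0 (G' ++ r) (ul.getD 0 ∅) ∧
          ((Xl.getD 0 ∅).IsTransitive ∧ ul.getD 0 ∅ ∈ Xl.getD 0 ∅ ∧
            IsStrCode τ (ul.getD 0 ∅) ∧ TrueIn C (Xl.getD 0 ∅) (ul.getD 0 ∅)))) ?_
      refine Dfn.exLs k (P := fun A G' v => 
        ∃ r : List ZFSet.{0}, r.length = m ∧ (∀ x ∈ r, x ∈ A) ∧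
        ∃ ul : List ZFSet.{0}, ul.length = 1 ∧ (∀ x ∈ ul, x ∈ A) ∧
        (RG A ((List.range n).map (fun i => v (1 + i))) (((List.range 1).map v).getD 0 ∅) G' ∧
          Desc r ∧ (∀ x ∈ r, ltL x (((List.range n).map (fun i => v (1 + i))).getD k ∅)) ∧
          (∀ x ∈ G' ++ r, x ∈ ((List.range 1).map v).getD 0 ∅) ∧
          UniqDef (((List.range 1).map v).getD 0 ∅) s0 (G' ++ r) (ul.getD 0 ∅) ∧
          ((((List.range 1).map v).getD 0 ∅).IsTransitive ∧
            ul.getD 0 ∅ ∈ ((List.range 1).map v).getD 0 ∅ ∧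
            IsStrCode τ (ul.getD 0 ∅) ∧
            TrueIn C (((List.range 1).map v).getD 0 ∅) (ul.getD 0 ∅)))) ?_
      refine Dfn.exLs m (P := fun A r v => 
        ∃ ul : List ZFSet.{0}, ul.length = 1 ∧ (∀ x ∈ ul, x ∈ A) ∧
        (RG A ((List.range n).map (fun i => v (k + (1 + i))))
          (((List.range 1).map (fun i => v (k + i))).getD 0 ∅) ((List.range k).map v) ∧
          Desc r ∧
          (∀ x ∈ r, ltL x (((List.range n).map (fun i => v (k + (1 + i)))).getD k ∅)) ∧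
          (∀ x ∈ (List.range k).map v ++ r,
            x ∈ ((List.range 1).map (fun i => v (k + i))).getD 0 ∅) ∧
          UniqDef (((List.range 1).map (fun i => v (k + i))).getD 0 ∅) s0
            ((List.range k).map v ++ r) (ul.getD 0 ∅) ∧
          ((((List.range 1).map (fun i => v (k + i))).getD 0 ∅).IsTransitive ∧
            ul.getD 0 ∅ ∈ ((List.range 1).map (fun i => v (k + i))).getD 0 ∅ ∧
            IsStrCode τ (ul.getD 0 ∅) ∧
            TrueIn C (((List.range 1).map (fun i => v (k + i))).getD 0 ∅) (ul.getD 0 ∅)))) ?_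
      refine Dfn.exLs 1 (P := fun A ul v => 
        (RG A ((List.range n).map (fun i => v (m + (k + (1 + i)))))
          (((List.range 1).map (fun i => v (m + (k + i)))).getD 0 ∅)
          ((List.range k).map (fun i => v (m + i))) ∧
          Desc ((List.range m).map v) ∧
          (∀ x ∈ (List.range m).map v,
            ltL x (((List.range n).map (fun i => v (m + (k + (1 + i))))).getD k ∅)) ∧
          (∀ x ∈ (List.range k).map (fun i => v (m + i)) ++ (List.range m).map v,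
            x ∈ ((List.range 1).map (fun i => v (m + (k + i)))).getD 0 ∅) ∧
          UniqDef (((List.range 1).map (fun i => v (m + (k + i)))).getD 0 ∅) s0
            ((List.range k).map (fun i => v (m + i)) ++ (List.range m).map v) (ul.getD 0 ∅) ∧
          ((((List.range 1).map (fun i => v (m + (k + i)))).getD 0 ∅).IsTransitive ∧
            ul.getD 0 ∅ ∈ ((List.range 1).map (fun i => v (m + (k + i)))).getD 0 ∅ ∧
            IsStrCode τ (ul.getD 0 ∅) ∧
            TrueIn C (((List.range 1).map (fun i => v (m + (k + i)))).getD 0 ∅)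
              (ul.getD 0 ∅)))) ?_
      have v1 : VL (fun w : ℕ → ZFSet.{0} =>
          (List.range n).map (fun i => w (1 + (m + (k + (1 + i)))))) :=
        ((((VL.range n).shift 1).shift k).shift m).shift 1
      have v2 : VV (fun w : ℕ → ZFSet.{0} =>
          ((List.range 1).map (fun i => w (1 + (m + (k + i))))).getD 0 ∅) :=
        (((vvget 1 0 (by omega)).shift k).shift m).shift 1
      have v3 : VL (fun w : ℕ → ZFSet.{0} => (List.range k).map (fun i => w (1 + (m + i)))) :=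
        ((VL.range k).shift m).shift 1
      have v4 : VV (fun w : ℕ → ZFSet.{0} =>
          ((List.range n).map (fun i => w (1 + (m + (k + (1 + i)))))).getD k ∅) :=
        ((((vvget n k hGn).shift 1).shift k).shift m).shift 1
      have v5 : ∀ i < k, VV (fun w : ℕ → ZFSet.{0} =>
          ((List.range k).map (fun i => w (1 + (m + i)))).getD i ∅) := fun i hi =>
        ((vvget k i hi).shift m).shift 1
      have v6 : VL (fun w : ℕ → ZFSet.{0} => (List.range m).map (fun i => w (1 + i))) :=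
        (VL.range m).shift 1
      have v7 : VV (fun w : ℕ → ZFSet.{0} => ((List.range 1).map w).getD 0 ∅) :=
        vvget 1 0 (by omega)
      have hC : ∀ c, C c → ∃ φ : NF, φ.code = c := by
        rintro c ⟨ψ, _, h⟩
        exact ⟨emb ψ, by rw [code_emb, h]⟩
      have hti := hTI C hre hC τ
      have g1 : Dfn IsHH _ := (d_RG v1 v2 v3 v5).mono hGI
      have g2 : Dfn IsHH _ := (d_desc hLT v6).mono hGI
      have g3 : Dfn IsHH _ := (d_belowl hLT v6 v4).mono hGI
      have g4 : Dfn IsHH _ := d_allmem (C := IsHH) (v3.append v6) v2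
      have g5 : Dfn IsHH _ := (d_uniqX (C := Good) hR s0 v2 (v3.append v6) v7).mono hGI
      have g6 : Dfn IsHH (fun _ w =>
          ((((List.range 1).map (fun i => w (1 + (m + (k + i))))).getD 0 ∅).IsTransitive ∧
            ((List.range 1).map w).getD 0 ∅ ∈
              ((List.range 1).map (fun i => w (1 + (m + (k + i))))).getD 0 ∅ ∧
            IsStrCode τ (((List.range 1).map w).getD 0 ∅) ∧
            TrueIn C (((List.range 1).map (fun i => w (1 + (m + (k + i))))).getD 0 ∅)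
              (((List.range 1).map w).getD 0 ∅))) := by
        obtain ⟨a, ha⟩ := v2
        obtain ⟨b, hb⟩ := v7
        refine (hti.ren (fun n => if n = 0 then a else b)).congr fun A hA w hw => ?_
        have ha' := ha w
        have hb' := hb w
        simp only at ha' hb'
        rw [ha', hb']
        rfl
      exact g1.and (g2.and (g3.and (g4.and (g5.and g6))))
    have hTH1 : TH H (F S) := by
      have hG'H : ∀ x ∈ G', x ∈ H := fun x hx => dcl_sub _ _ (hG'd x hx)
      have hrH : ∀ x ∈ e0 :: r0, x ∈ H := fun x hx => hm0 x (by rw [hG0]; simp [List.mem_cons.1 hx])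
      have hre0 : ∀ x ∈ e0 :: r0, ltL x e := by
        intro x hx
        rcases List.mem_cons.1 hx with h | h
        · rw [h]; exact hee
        · have hd0' := hd0
          rw [hG0] at hd0'
          have h1 := (List.pairwise_append.1 hd0').2.1
          exact hO.trans _ _ _ ((List.pairwise_cons.1 h1).1 x h) hee
      have hrX : ∀ x ∈ e0 :: r0, x ∈ X := fun x hx => hXb x (hre0 x hx)
      obtain ⟨hgX, hrefl⟩ := reflect hGd hH (G := G) (G' := G') (e := e)
        (fun x hx => hm0 x (by rw [hG0]; simp [hx])) hG'X hX0 hXtr (hlen.trans hk) heq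
      have hsu : UniqDef H s0 (G ++ e0 :: r0) u0 := by rw [← hG0]; exact hs0
      obtain ⟨u, hu, _⟩ := (hrefl s0 (fun _ _ => True) Dfn.tru (e0 :: r0) hre0 hrH hrX).1
        ⟨u0, hsu, trivial⟩
      have hq : ∀ ψ ∈ T', IsStrCode τ u ∧ NSat X (emb ψ) (val u) := by
        intro ψ hψ
        obtain ⟨u', hu', h1⟩ := (hrefl s0 (fun A v => IsStrCode τ (v 0) ∧
          NSat A (emb ψ) (val (v 0))) (d_nsv hNS hSC τ (emb ψ)) (e0 :: r0) hre0 hrH hrX).1
          ⟨u0, hsu, by
            refine ⟨⟨M, S0, hK0⟩, ?_⟩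
            exact (model_iff hHH hCds hsent hs0.1 hK0).1 ((hmod M S0).1 hS0) ψ hψ⟩
        have : u' = u := hu'.unique hu
        rw [this] at h1
        exact h1
      have hqs : IsStrCode τ u := by
        obtain ⟨u', hu', h1⟩ := (hrefl s0 (fun A v => IsStrCode τ (v 0))
          ((hSC τ).mono (fun A hA => hA.toBase)) (e0 :: r0) hre0 hrH hrX).1
          ⟨u0, hsu, ⟨M, S0, hK0⟩⟩
        have : u' = u := hu'.unique hu
        rw [this] at h1
        exact h1
      refine ⟨[X], rfl, by simpa using hχ.1, G', hlen, hG'H, e0 :: r0, hrn, hrH, [u], rfl,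
        ?_, ?_⟩
      · intro x hx
        rw [List.mem_singleton.1 hx]
        exact hH.tr _ hχ.1 hu.1
      · refine ⟨⟨hχ, hχs⟩, ?_, ?_, ?_, hu, hXtr, hu.1, hqs, ?_⟩
        · have hd0' := hd0
          rw [hG0] at hd0'
          exact (List.pairwise_append.1 hd0').2.1
        · have h7 : (F S).getD k ∅ = e := by rw [hG1, hk]; simp
          rw [h7]
          exact hre0
        · intro x hx
          rcases List.mem_append.1 hx with h | h
          · exact hG'X x h
          · exact hrX x h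
        · intro φ hφ
          obtain ⟨ψ, hψ, rfl⟩ := codesOf_code hφ
          exact (hq ψ hψ).2
    have hTH0 : TH H (F S0) := tq TH dTH S S0 hS hS0 hTH1
    obtain ⟨Xl, hXl, hXlH, G0, hG0l, hG0H, r, hrl, hrH, ul, hul, hulH, hrg, hrd, hre0, hGrX,
      hu, hX0tr, huX, hcode, htrue⟩ := hTH0
    obtain ⟨X0, rfl⟩ : ∃ X0, Xl = [X0] := List.length_eq_one_iff.1 hXl
    obtain ⟨u, rfl⟩ : ∃ u, ul = [u] := List.length_eq_one_iff.1 hul
    have h6 : (F S0).take k = G := by rw [hG0, hk]; simp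
    have h7 : (F S0).getD k ∅ = e0 := by rw [hG0, hk]; simp
    rw [h7] at hre0
    have he0H : e0 ∈ H := hm0 e0 (by rw [hG0]; simp)
    have heq0 : ∀ (φ : Fml) (r : List ZFSet.{0}), (∀ x ∈ r, ltL x e0) →
        (Sat H φ (asg (G ++ r)) ↔ Sat X0 φ (asg (G0 ++ r))) := by
      intro φ r hr
      have := hEQ0 φ r.length [X0] rfl hXlH G0 hG0l hG0H r rfl
        (fun x hx => hH.init hO he0H (hr x hx)) ⟨hrg, by rw [h7]; exact hr⟩
      rw [h6] at this
      exact this
    have hX00 : ∅ ∈ X0 := by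
      obtain ⟨N, SN, s, en, h1, _, _, ⟨m, h2⟩, h3, _⟩ := hcode
      have h4 : s 0 ∈ X0 := val_mem hX0tr huX h1 0
      exact hX0tr _ h4 ((h3 ∅).2 ⟨m, h2⟩)
    obtain ⟨hgX, hrefl⟩ := reflect hGd hH (G := G) (G' := G0) (e := e0)
      (fun x hx => hm0 x (by rw [hG0]; simp [hx])) (fun x hx => hGrX x (by simp [hx]))
      hX00 hX0tr (hG0l.trans hk) heq0
    have hrX : ∀ x ∈ r, x ∈ X0 := fun x hx => hGrX x (by simp [hx])
    obtain ⟨u', hu', hcode'⟩ := (hrefl s0 (fun A v => IsStrCode τ (v 0))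
      ((hSC τ).mono (fun A hA => hA.toBase)) r hre0 hrH hrX).2 ⟨u, hu, hcode⟩
    have htrue' : ∀ ψ ∈ T', NSat H (emb ψ) (val u') := by
      intro ψ hψ
      obtain ⟨u'', hu'', h1⟩ := (hrefl s0 (fun A v => IsStrCode τ (v 0) ∧
        NSat A (emb ψ) (val (v 0))) (d_nsv hNS hSC τ (emb ψ)) r hre0 hrH hrX).2
        ⟨u, hu, hcode, htrue (emb ψ) ⟨ψ, hψ, (code_emb ψ).symm⟩⟩
      have h2 : u'' = u' := hu''.unique hu'
      rw [h2] at h1
      exact h1.2
    obtain ⟨N, SN, hSN⟩ := (show IsStrCode τ u' from hcode')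
    haveI : Nonempty N := by
      obtain ⟨s, en, _, _, _, ⟨m, _⟩, _⟩ := hSN
      exact ⟨m⟩
    have hSNm : IsModel SN T := (hmod N SN).2 ((model_iff hHH hCds hsent hu'.1 hSN).2 htrue')
    have hNM : Cardinal.mk N = Cardinal.mk M := hcard N M SN S0 hSNm hS0
    obtain ⟨eNM⟩ := Cardinal.eq.1 hNM
    set S2 := trans SN eNM with hS2
    have hS2c : Cds S2 u' := hCds.congr N M SN S2 u' (isom_trans SN eNM) hSN
    have hS2m : IsModel S2 T := (hmod M S2).2 ((model_iff hHH hCds hsent hu'.1 hS2c).2 htrue')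
    have hd : Desc (G ++ r) := by
      have hd0' := hd0
      rw [hG0] at hd0'
      have h8 := List.pairwise_append.1 hd0'
      refine List.pairwise_append.2 ⟨h8.1, hrd, ?_⟩
      intro g hg x hx
      exact hO.trans _ _ _ (hre0 x hx) (h8.2.2 g hg e0 (by simp))
    have hW : Wit H (Cds S2) (G ++ r) := by
      refine ⟨hd, ?_, u', mem_dcl_of_uniq hu', hS2c⟩
      intro x hx
      rcases List.mem_append.1 hx with h | h
      · exact hm0 x (by rw [hG0]; simp [h])
      · exact hrH x h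
    have hlt2 : List.Lex ltL (G ++ r) (F S0) := by
      rw [hG0]
      have : ∀ G : List ZFSet.{0}, List.Lex ltL (G ++ r) (G ++ e0 :: r0) := by
        intro G
        induction G with
        | nil =>
          cases r with
          | nil => exact List.Lex.nil
          | cons a r => exact List.Lex.rel (hre0 a (by simp))
        | cons g G ih => exact List.Lex.cons ih
      exact this G
    rcases tri (F S2) (G ++ r) (hF1 S2).2.1 hW.2.1 with h | h | h
    · exact hmin0 S2 hS2m (hX.trans _ _ _ h hlt2)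
    · exact hmin0 S2 hS2m (by rw [h]; exact hlt2)
    · exact hF2 S2 _ hW h
  -- conclusion
  obtain ⟨-, g1⟩ := ggS S hS
  obtain ⟨-, g2⟩ := ggS S' hS'
  rw [claim S hS] at g1
  rw [claim S' hS'] at g2
  obtain ⟨u, _, h1, h2⟩ := g1.2.1
  obtain ⟨u', _, h1', h2'⟩ := g2.2.1
  have : u = u' := h1.unique h1'
  rw [← this] at h2'
  exact hCds.isom M M S S' u h2 h2'

end Pool.Agent.W886.VL
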