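import Pool.Agent.W886.VL.Defs
import Pool.Agent.SOCat.Fml

/-!
# Objects used in the proof
-/

namespace Pool.Agent.W886.VL

open SOCat

/-! ### numbers, functions, tuples -/

/-- the von Neumann numerals -/
noncomputable def num : ℕ → ZFSet.{0}
  | 0 => ∅
  | n + 1 => insert (num n) (num n)

/-- the set function `n ↦ s n` with domain `ω` -/
noncomputable def fnZ (s : ℕ → ZFSet.{0}) : ZFSet.{0} :=
  ZFSet.range (fun n : ℕ => ZFSet.pair (num n) (s n))

/-- the value at `n` of a function given as a set -/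
noncomputable def val (b : ZFSet.{0}) (n : ℕ) : ZFSet.{0} := by
  classical exact if h : ∃ x, ZFSet.pair (num n) x ∈ b then h.choose else ∅

/-- a finite sequence as a set: the function `k ↦ l[k]` with domain the length of `l` -/
noncomputable def tupZ (l : List ZFSet.{0}) : ZFSet.{0} :=
  ZFSet.range (fun k : Fin l.length => ZFSet.pair (num k.1) (l.get k))

/-- the assignment given by a finite list (and `∅` beyond its end) -/
noncomputable def asg (l : List ZFSet.{0}) : ℕ → ZFSet.{0} := fun n => l.getD n ∅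

/-- put the list `l` in front of the sequence `v` -/
def pre (l : List ZFSet.{0}) (v : ℕ → ZFSet.{0}) : ℕ → ZFSet.{0} := l.foldr cons v

/-! ### definability, uniformly over a class of structures -/

/-- `P` is definable over the structures of the class `C` by one formula. -/
def Dfn (C : ZFSet.{0} → Prop) (P : ZFSet.{0} → (ℕ → ZFSet.{0}) → Prop) : Prop :=
  ∃ φ : Fml, ∀ A, C A → ∀ v : ℕ → ZFSet.{0}, (∀ n, v n ∈ A) → (Sat A φ v ↔ P A v)

/-- transitive sets -/
def Trs (A : ZFSet.{0}) : Prop := A.IsTransitive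

/-- transitive sets with `ω` as an element, closed under unordered pairs and unions of two -/
structure Base (A : ZFSet.{0}) : Prop where
  tr : A.IsTransitive
  om : ZFSet.omega ∈ A
  pr : ∀ a ∈ A, ∀ b ∈ A, ({a, b} : ZFSet.{0}) ∈ A
  un : ∀ a ∈ A, ∀ b ∈ A, a ∪ b ∈ A

/-! ### formulas with names, their codes, internal satisfaction -/

/-- First-order formulas with named variables, the atomic formulas `x_i = x_j`, `x_i ∈ x_j`,
`⟨x_i : i ∈ xs⟩ ∈ x_j`, the unbounded quantifier `all` and the quantifier `allD` over the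
elements of the value of `x_0`. -/
inductive NF : Type
  | eq (i j : ℕ)
  | mem (i j : ℕ)
  | tup (j : ℕ) (xs : List ℕ)
  | neg (φ : NF)
  | and (φ ψ : NF)
  | allD (k : ℕ) (φ : NF)
  | all (k : ℕ) (φ : NF)

def NF.code : NF → ℕ
  | .eq i j => Nat.pair 0 (Nat.pair i j)
  | .mem i j => Nat.pair 1 (Nat.pair i j)
  | .tup j xs => Nat.pair 2 (Nat.pair j (Encodable.encode xs))
  | .neg φ => Nat.pair 3 φ.code
  | .and φ ψ => Nat.pair 4 (Nat.pair φ.code ψ.code)
  | .allD k φ => Nat.pair 5 (Nat.pair k φ.code)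
  | .all k φ => Nat.pair 6 (Nat.pair k φ.code)

/-- satisfaction of `NF`-formulas in `(A, ∈)` -/
def NSat (A : ZFSet.{0}) : NF → (ℕ → ZFSet.{0}) → Prop
  | .eq i j, v => v i = v j
  | .mem i j, v => v i ∈ v j
  | .tup j xs, v => tupZ (xs.map v) ∈ v j
  | .neg φ, v => ¬ NSat A φ v
  | .and φ ψ, v => NSat A φ v ∧ NSat A ψ v
  | .allD k φ, v => ∀ a ∈ A, a ∈ v 0 → NSat A φ (Function.update v k a)
  | .all k φ, v => ∀ a ∈ A, NSat A φ (Function.update v k a)

/-- finitely supported sequences of elements of `y` -/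
def FSup (y : ZFSet.{0}) (s : ℕ → ZFSet.{0}) : Prop :=
  (∀ n, s n ∈ y) ∧ ∃ N, ∀ n, N ≤ n → s n = ∅

/-- the set of the finitely supported functions from `ω` to `y` -/
noncomputable def FSet (y : ZFSet.{0}) : ZFSet.{0} :=
  (ZFSet.prod ZFSet.omega y).powerset.sep (fun f => ∃ s, FSup y s ∧ f = fnZ s)

/-- the satisfaction relation of `(y, ∈)` as a set -/
noncomputable def RSet (y : ZFSet.{0}) : ZFSet.{0} :=
  (ZFSet.prod ZFSet.omega (FSet y)).sep
    (fun p => ∃ (φ : NF) (s : ℕ → ZFSet.{0}), FSup y s ∧ NSat y φ s ∧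
      p = ZFSet.pair (num φ.code) (fnZ s))

/-! ### the canonical order of `L` -/

/-- the order of sequences by the last difference -/
def ltF (r : ZFSet.{0} → ZFSet.{0} → Prop) (s s' : ℕ → ZFSet.{0}) : Prop :=
  ∃ k, r (s k) (s' k) ∧ ∀ j, k < j → s j = s' j

/-- `x` is the subset of `y` defined over `(y, ∈)` by the formula `φ` and the parameters `s` -/
def DefBy (y : ZFSet.{0}) (φ : NF) (s : ℕ → ZFSet.{0}) (x : ZFSet.{0}) : Prop :=
  x ⊆ y ∧ ∀ a ∈ y, a ∈ x ↔ NSat y φ (Function.update s 0 a)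

/-- the order of the new elements of `Def y`, `r` being the order of `y`: some code of `x` is
smaller than all the codes of `x'` -/
def newLt (y : ZFSet.{0}) (r : ZFSet.{0} → ZFSet.{0} → Prop) (x x' : ZFSet.{0}) : Prop :=
  ∃ (φ : NF) (s : ℕ → ZFSet.{0}), FSup y s ∧ DefBy y φ s x ∧
    ∀ (φ' : NF) (s' : ℕ → ZFSet.{0}), FSup y s' → DefBy y φ' s' x' →
      φ.code < φ'.code ∨ (φ.code = φ'.code ∧ ltF r s s')

/-- the canonical order of `L α` -/
noncomputable def rel (α : Ordinal.{0}) : ZFSet.{0} → ZFSet.{0} → Prop := fun x x' =>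
  x ∈ L α ∧ x' ∈ L α ∧ ∃ β : Set.Iio α,
    (x ∈ Def (L β.1) ∧ x' ∉ Def (L β.1)) ∨
    (x ∈ Def (L β.1) ∧ x' ∈ Def (L β.1) ∧ x ∉ L β.1 ∧ x' ∉ L β.1 ∧
      newLt (L β.1) (rel β.1) x x')
termination_by α
decreasing_by exact β.2

/-- the canonical order of `L` -/
def ltL (x x' : ZFSet.{0}) : Prop := ∃ α, rel α x x'

/-- the order of `L α` as a set -/
noncomputable def rZ (α : Ordinal.{0}) : ZFSet.{0} :=
  (ZFSet.prod (L α) (L α)).sep (fun p => ∃ x x', rel α x x' ∧ p = ZFSet.pair x x')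

/-- the level `α` with its order, sequences and satisfaction relation -/
noncomputable def lev (α : Ordinal.{0}) : ZFSet.{0} :=
  ZFSet.pair (L α) (ZFSet.pair (rZ α) (ZFSet.pair (FSet (L α)) (RSet (L α))))

/-- the set of the levels below `γ` -/
noncomputable def hset (γ : Ordinal.{0}) : ZFSet.{0} :=
  ZFSet.range (fun β : Set.Iio γ => lev β.1)

/-! ### an explicit description of the sets `hset γ` -/

/-- `s'` is `s` with the value at `k` changed to `a` (for functions `s`, `s'`) -/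
def IsUpd (s' s k a : ZFSet.{0}) : Prop :=
  ZFSet.pair k a ∈ s' ∧ ∀ p ∈ s', p ∈ s ∨ p = ZFSet.pair k a

/-- `x` is the subset of `y` defined by the code `c` and the parameters `s` -/
def Dby (y F R c s x : ZFSet.{0}) : Prop :=
  x ⊆ y ∧ ∀ a ∈ y, (a ∈ x ↔ ∃ s' ∈ F, IsUpd s' s ∅ a ∧ ZFSet.pair c s' ∈ R)

def DD (y F R x : ZFSet.{0}) : Prop :=
  x = ∅ ∨ ∃ c ∈ ZFSet.omega, ∃ s ∈ F, Dby y F R c s x

def LF (y r s s' : ZFSet.{0}) : Prop :=
  ∃ k ∈ ZFSet.omega, ∃ a ∈ y, ∃ a' ∈ y, ZFSet.pair k a ∈ s ∧ ZFSet.pair k a' ∈ s' ∧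
    ZFSet.pair a a' ∈ r ∧ ∀ j ∈ ZFSet.omega, k ∈ j → ∀ b ∈ y,
      (ZFSet.pair j b ∈ s ↔ ZFSet.pair j b ∈ s')

def NL (y r F R x x' : ZFSet.{0}) : Prop :=
  ∃ c ∈ ZFSet.omega, ∃ s ∈ F, Dby y F R c s x ∧ ∀ c' ∈ ZFSet.omega, ∀ s' ∈ F,
    Dby y F R c' s' x' → (c ∈ c' ∨ (c = c' ∧ LF y r s s'))

noncomputable def quad (y r F R : ZFSet.{0}) : ZFSet.{0} :=
  ZFSet.pair y (ZFSet.pair r (ZFSet.pair F R))

def IsHist (h : ZFSet.{0}) : Prop :=
  ∀ q ∈ h, ∃ y r F R, q = quad y r F R ∧ F = FSet y ∧ R = RSet y ∧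
    (∀ x ∈ y, ∃ y' r' F' R', quad y' r' F' R' ∈ h ∧ y' ∈ y ∧ DD y' F' R' x) ∧
    (∀ y' r' F' R', quad y' r' F' R' ∈ h → y' ∈ y →
      ∅ ∈ y ∧ ∀ c ∈ ZFSet.omega, ∀ s ∈ F', ∃ x ∈ y, Dby y' F' R' c s x) ∧
    (∀ p ∈ r, ∃ x ∈ y, ∃ x' ∈ y, p = ZFSet.pair x x') ∧
    (∀ x ∈ y, ∀ x' ∈ y, (ZFSet.pair x x' ∈ r ↔ ∃ y' r' F' R', quad y' r' F' R' ∈ h ∧ y' ∈ y ∧
      ((DD y' F' R' x ∧ ¬ DD y' F' R' x') ∨
       (DD y' F' R' x ∧ DD y' F' R' x' ∧ x ∉ y' ∧ x' ∉ y' ∧ NL y' r' F' R' x x'))))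

/-- The sets `A` which know that all their elements are constructible. -/
structure Good (A : ZFSet.{0}) : Prop extends Base A where
  hist : ∀ x ∈ A, ∃ γ β : Ordinal.{0}, β < γ ∧ hset γ ∈ A ∧ x ∈ L β

/-! ### elementary substructures, collapses, hulls -/

/-- `(Y, ∈)` is an elementary substructure of `(A, ∈)` -/
def El (Y A : ZFSet.{0}) : Prop :=
  Y ⊆ A ∧ ∀ (φ : Fml) (v : ℕ → ZFSet.{0}), (∀ n, v n ∈ Y) → (Sat Y φ v ↔ Sat A φ v)

/-- the Mostowski collapse of `Y` -/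
noncomputable def col (Y : ZFSet.{0}) : ZFSet.{0} → ZFSet.{0} :=
  ZFSet.mem_wf.fix (fun x ih => ZFSet.range (fun z : (x ∩ Y : ZFSet.{0}) =>
    ih z.1 (ZFSet.mem_inter.1 z.2).1))

/-- the image of `Y` under its collapse -/
noncomputable def colS (Y : ZFSet.{0}) : ZFSet.{0} :=
  ZFSet.range (fun z : Y => col Y z.1)

/-- `b` is the unique element of `A` which satisfies `φ` with the parameters `l` -/
def UniqDef (A : ZFSet.{0}) (φ : Fml) (l : List ZFSet.{0}) (b : ZFSet.{0}) : Prop :=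
  b ∈ A ∧ Sat A φ (asg (b :: l)) ∧ ∀ c ∈ A, Sat A φ (asg (c :: l)) → c = b

/-- the set of the elements of `A` which are definable over `(A, ∈)` from elements of `X` -/
noncomputable def dcl (A : ZFSet.{0}) (X : ZFSet.{0} → Prop) : ZFSet.{0} :=
  A.sep (fun b => ∃ (φ : Fml) (l : List ZFSet.{0}), (∀ x ∈ l, X x) ∧ UniqDef A φ l b)

/-! ### sets coded by well-founded relations on `M` -/

/-- the set coded by the well-founded relation `E` and the point `t` -/
noncomputable def mos {M : Type} (E : M → M → Prop) (t : M) : ZFSet.{0} := by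
  classical exact
    if h : WellFounded E then h.fix (fun t ih => ZFSet.range (fun s : {s // E s t} => ih s.1 s.2)) t
    else ∅

/-- `H(|M|⁺)`: the sets coded by well-founded relations on `M` -/
noncomputable def HH (M : Type) : ZFSet.{0} :=
  ZFSet.range (fun p : (M → M → Prop) × M => mos p.1 p.2)

/-! ### codes of structures, and second-order formulas as `NF`-formulas -/

/-- second-order formulas as `NF`-formulas -/
def emb {τ : Voc} : SO τ → NF
  | .eq x y => .eq (3 * x + 1) (3 * y + 1)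
  | .rel R xs => .tup (3 * (R.1 + 1)) (List.ofFn (fun k => 3 * xs k + 1))
  | .fn f xs y => .tup (3 * (τ.nR + f.1 + 1)) (List.ofFn (fun k => 3 * xs k + 1) ++ [3 * y + 1])
  | .var r i xs => .tup (3 * Nat.pair r i + 2) (List.ofFn (fun k => 3 * xs k + 1))
  | .neg φ => .neg (emb φ)
  | .and φ ψ => .and (emb φ) (emb ψ)
  | .all x φ => .allD (3 * x + 1) (emb φ)
  | .allR r i φ => .all (3 * Nat.pair r i + 2) (emb φ)

/-- `b` is a code of the structure `S`: `b` is a function with domain `ω`,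
`b(0)` is the domain of a structure isomorphic to `S` (containing `∅`), `b(3(k+1))` is the
`k`-th relation or function of the structure, and the other values of `b` are empty. -/
def Cds {τ : Voc} {M : Type} (S : Str τ M) (b : ZFSet.{0}) : Prop :=
  ∃ (s : ℕ → ZFSet.{0}) (e : M → ZFSet.{0}), b = fnZ s ∧
    (∀ n, (∀ k, k ≤ τ.nR + τ.nF → n ≠ 3 * k) → s n = ∅) ∧
    Function.Injective e ∧ (∃ m, e m = ∅) ∧ (∀ x, x ∈ s 0 ↔ ∃ m, e m = x) ∧
    (∀ R xs, S.rel R xs ↔ tupZ (List.ofFn (fun k => e (xs k))) ∈ s (3 * (R.1 + 1))) ∧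
    (∀ f xs y, S.fn f xs = y ↔
      tupZ (List.ofFn (fun k => e (xs k)) ++ [e y]) ∈ s (3 * (τ.nR + f.1 + 1)))

/-- `b` is a code of a structure of the vocabulary `τ` -/
def IsStrCode (τ : Voc) (b : ZFSet.{0}) : Prop :=
  ∃ (M : Type) (S : Str τ M), Cds S b

/-- the formulas with code in `C` hold in `(A, ∈)` with the assignment `b` -/
def TrueIn (C : ℕ → Prop) (A b : ZFSet.{0}) : Prop :=
  ∀ φ : NF, C φ.code → NSat A φ (val b)

/-! ### formulas with a predicate for the codes of a structure -/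

/-- First-order formulas in the language `{∈, K}`, `K` a unary predicate. -/
inductive KF : Type
  | mem (i j : ℕ)
  | eq (i j : ℕ)
  | K (i : ℕ)
  | neg (φ : KF)
  | and (φ ψ : KF)
  | all (φ : KF)

def KSat (A : ZFSet.{0}) (K : ZFSet.{0} → Prop) : KF → (ℕ → ZFSet.{0}) → Prop
  | .mem i j, v => v i ∈ v j
  | .eq i j, v => v i = v j
  | .K i, v => K (v i)
  | .neg φ, v => ¬ KSat A K φ v
  | .and φ ψ, v => KSat A K φ v ∧ KSat A K ψ v
  | .all φ, v => ∀ a ∈ A, KSat A K φ (cons a v)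

/-- `P` is definable over the structures `(A, ∈, K)`, `A` in the class `C`, by one formula. -/
def DfnK (C : ZFSet.{0} → Prop) (P : ZFSet.{0} → (ZFSet.{0} → Prop) → (ℕ → ZFSet.{0}) → Prop) :
    Prop :=
  ∃ φ : KF, ∀ A, C A → ∀ (K : ZFSet.{0} → Prop) (v : ℕ → ZFSet.{0}), (∀ n, v n ∈ A) →
    (KSat A K φ v ↔ P A K v)

end Pool.Agent.W886.VL
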